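import Pool.Agent.Helper35.AHC.Defs

/-!
# Project AHC, module 02 (Av): averages over a finite type / a finite additive group.
-/

namespace AHC

section Basic

variable {V : Type*} [Fintype V]

theorem av_add (g h : V → ℝ) : av (fun x => g x + h x) = av g + av h := by
  unfold av
  rw [Finset.sum_add_distrib, mul_add]

theorem av_sub (g h : V → ℝ) : av (fun x => g x - h x) = av g - av h := by
  unfold av
  rw [Finset.sum_sub_distrib, mul_sub]

theorem av_mul (c : ℝ) (g : V → ℝ) : av (fun x => c * g x) = c * av g := by
  unfold av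
  rw [← Finset.mul_sum]
  ring

theorem av_mono {g h : V → ℝ} (hgh : ∀ x, g x ≤ h x) : av g ≤ av h := by
  unfold av
  exact mul_le_mul_of_nonneg_left (Finset.sum_le_sum fun x _ => hgh x) (by positivity)

theorem av_nonneg {g : V → ℝ} (hg : ∀ x, 0 ≤ g x) : 0 ≤ av g := by
  unfold av
  exact mul_nonneg (by positivity) (Finset.sum_nonneg fun x _ => hg x)

theorem av_const [Nonempty V] (c : ℝ) : av (fun _ : V => c) = c := by
  unfold av
  rw [Finset.sum_const, Finset.card_univ, nsmul_eq_mul, ← mul_assoc, inv_mul_cancel₀, one_mul]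
  exact_mod_cast Fintype.card_ne_zero

theorem av_le_const [Nonempty V] {g : V → ℝ} {c : ℝ} (hg : ∀ x, g x ≤ c) : av g ≤ c :=
  (av_mono hg).trans (av_const c).le

/-- some value is at most the average. -/
theorem exists_le_av [Nonempty V] (g : V → ℝ) : ∃ x, g x ≤ av g := by
  by_contra hc
  push Not at hc
  have h1 : ∑ x : V, av g < ∑ x, g x :=
    Finset.sum_lt_sum_of_nonempty Finset.univ_nonempty fun x _ => hc x
  rw [Finset.sum_const, Finset.card_univ, nsmul_eq_mul] at h1
  have h2 : (0 : ℝ) < Fintype.card V := by exact_mod_cast Fintype.card_pos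
  have h3 : (Fintype.card V : ℝ) * av g = ∑ x, g x := by
    unfold av
    rw [← mul_assoc, mul_inv_cancel₀ h2.ne', one_mul]
  rw [h3] at h1
  exact lt_irrefl _ h1

theorem av_comm {W : Type*} [Fintype W] (g : V → W → ℝ) :
    av (fun x => av fun y => g x y) = av fun y => av fun x => g x y := by
  unfold av
  simp_rw [← Finset.mul_sum]
  rw [Finset.sum_comm]
  ring

end Basic

section Group

variable {V : Type*} [Fintype V] [AddCommGroup V]

theorem av_shift (g : V → ℝ) (c : V) : av (fun x => g (x + c)) = av g := by
  unfold av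
  congr 1
  exact Fintype.sum_equiv (Equiv.addRight c) _ _ fun x => rfl

theorem av_shift' (g : V → ℝ) (c : V) : av (fun x => g (c + x)) = av g := by
  unfold av
  congr 1
  exact Fintype.sum_equiv (Equiv.addLeft c) _ _ fun x => rfl

theorem av_shift_sub (g : V → ℝ) (c : V) : av (fun x => g (x - c)) = av g := by
  unfold av
  congr 1
  exact Fintype.sum_equiv (Equiv.subRight c) _ _ fun x => rfl

theorem av_sub_left (g : V → ℝ) (c : V) : av (fun x => g (c - x)) = av g := by
  unfold av
  congr 1
  exact Fintype.sum_equiv (Equiv.subLeft c) _ _ fun x => rfl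

theorem av_neg (g : V → ℝ) : av (fun x => g (-x)) = av g := by
  unfold av
  congr 1
  exact Fintype.sum_equiv (Equiv.neg V) _ _ fun x => rfl

/-- two averages: `(x, y) ↦ (x + y, y)`. -/
theorem av2_add (g : V → V → ℝ) :
    av (fun x => av fun y => g (x + y) y) = av fun x => av fun y => g x y := by
  rw [av_comm, av_comm g]
  congr 1
  ext y
  exact av_shift (fun x => g x y) y

/-- two averages: `(x, y) ↦ (x, x + y)`. -/
theorem av2_add' (g : V → V → ℝ) :
    av (fun x => av fun y => g x (x + y)) = av fun x => av fun y => g x y := by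
  congr 1
  ext x
  exact av_shift' (fun y => g x y) x

end Group

end AHC
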