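import Pool.Agent.Helper35.AHC.SelDefs

/-!
# Project AHC, module AHC-13 (BetMono): monotonicity of the size bounds.

PROOF.  For g monotone with m <= g m for all m: g^[n] m is monotone in m (Monotone.iterate) and in n
(g^[n] m <= g (g^[n] m) = g^[n+1] m, Function.iterate_succ_apply', monotone_nat_of_le_succ), and m <= g^[n] m.
With n = 9 * m^2 * k monotone in m.  For bet5: g t = 9 * t.  For itb: g t = beta (3 * t), applied to beta m.
-/

namespace AHC

private theorem iter_le_iter {g : ℕ → ℕ} (hg : Monotone g) (hg' : ∀ m, m ≤ g m) {n n' m m' : ℕ}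
    (hn : n ≤ n') (hm : m ≤ m') : g^[n] m ≤ g^[n'] m' := by
  have h1 : Monotone (fun n => g^[n] m') := by
    apply monotone_nat_of_le_succ
    intro n
    rw [Function.iterate_succ_apply']
    exact hg' _
  exact (hg.iterate n hm).trans (h1 hn)

private theorem le_iter {g : ℕ → ℕ} (hg : Monotone g) (hg' : ∀ m, m ≤ g m) (n m : ℕ) :
    m ≤ g^[n] m :=
  iter_le_iter hg hg' (Nat.zero_le n) (le_refl m)

private theorem cnt_le (k : ℕ) {m m' : ℕ} (h : m ≤ m') : 9 * m ^ 2 * k ≤ 9 * m' ^ 2 * k :=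
  Nat.mul_le_mul_right k (Nat.mul_le_mul_left 9 (Nat.pow_le_pow_left h 2))

private theorem nine_mono : Monotone (fun t : ℕ => 9 * t) := fun _ _ h => Nat.mul_le_mul_left 9 h

private theorem le_nine (m : ℕ) : m ≤ (fun t : ℕ => 9 * t) m := by
  show m ≤ 9 * m
  omega

theorem bet5_mono (k : ℕ) : Monotone (bet5 k) := by
  intro m m' h
  exact iter_le_iter nine_mono le_nine (cnt_le k h) h

theorem le_bet5 (k m : ℕ) : m ≤ bet5 k m := le_iter nine_mono le_nine _ _

private theorem three_mono (β : ℕ → ℕ) (hβ : Monotone β) : Monotone (fun t => β (3 * t)) :=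
  fun _ _ h => hβ (Nat.mul_le_mul_left 3 h)

private theorem le_three (β : ℕ → ℕ) (hβ' : ∀ m, m ≤ β m) (m : ℕ) :
    m ≤ (fun t => β (3 * t)) m := by
  have h := hβ' (3 * m)
  show m ≤ β (3 * m)
  omega

theorem itb_mono (β : ℕ → ℕ) (hβ : Monotone β) (hβ' : ∀ m, m ≤ β m) (k : ℕ) :
    Monotone (itb β k) := by
  intro m m' h
  exact iter_le_iter (three_mono β hβ) (le_three β hβ') (cnt_le k h) (hβ h)

theorem le_itb (β : ℕ → ℕ) (hβ : Monotone β) (hβ' : ∀ m, m ≤ β m) (k m : ℕ) :
    m ≤ itb β k m :=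
  (hβ' m).trans (le_iter (three_mono β hβ) (le_three β hβ') _ _)

end AHC
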