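import Pool.Agent.Helper35.AHC.Dim
import Pool.Agent.Helper35.AHC.Av

/-!
# Project AHC, module AHC-12 (Canon): canonicity of `Kc P P' a b`.

PROOF of canon_pt.  Kc P P' a b = P a ⊓ (P' b ⊔ P' (a+b)).  Put Q = P' b ⊔ P' (a + b), Q⁺ = R s b ⊔ R s (a+b);
Q ≤ Q⁺ by rb; also P' (b-s) ⊔ P' (a+(b-s)) ≤ Q⁺ by rsub (a+(b-s) = (a+b)-s).
dd (Kc a (b-s)) (Kc a b) <= dd (P a ⊓ Q⁺) (P a ⊓ Q) (dd_mono), = dim (P a ⊓ Q⁺) - dim (P a ⊓ Q)
(dd_inf, since P a ⊓ Q ≤ P a ⊓ Q⁺) and dim (P a ⊓ Q⁺) + dd (P a) Q⁺ = dim P a = dim (P a ⊓ Q) + dd (P a) Q (dd_inf).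
PROOF of canon_av.  For fixed a, b: av over b' of dd (Kc a b') (Kc a b) = av over s of dd (Kc a (b-s)) (Kc a b)
(av_sub_left), and canon_pt, av_mono.
-/

namespace AHC

open Module Submodule

variable {K : Type*} [Field K] {B : Type*} [AddCommGroup B] [Module K B] [FiniteDimensional K B]
  {V : Type*} [AddCommGroup V]

theorem canon_pt (P P' : V → Submodule K B) (R : V → V → Submodule K B)
    (rb : ∀ s b, P' b ≤ R s b) (rsub : ∀ s b, P' (b - s) ≤ R s b) (a b s : V) :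
    dd (Kc P P' a (b - s)) (Kc P P' a b) + dd (P a) (R s b ⊔ R s (a + b))
      ≤ dd (P a) (P' b ⊔ P' (a + b)) := by
  have hQ : P' b ⊔ P' (a + b) ≤ R s b ⊔ R s (a + b) := sup_le_sup (rb s b) (rb s (a + b))
  have hS : P' (b - s) ⊔ P' (a + (b - s)) ≤ R s b ⊔ R s (a + b) := by
    rw [← add_sub_assoc]
    exact sup_le_sup (rsub s b) (rsub s (a + b))
  have h1 : dd (Kc P P' a (b - s)) (Kc P P' a b) ≤
      dd (P a ⊓ (R s b ⊔ R s (a + b))) (P a ⊓ (P' b ⊔ P' (a + b))) := by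
    unfold Kc
    exact dd_mono (inf_le_inf_left _ hS) le_rfl
  have h2 := dd_inf (P a ⊓ (R s b ⊔ R s (a + b))) (P a ⊓ (P' b ⊔ P' (a + b)))
  rw [inf_eq_right.mpr (inf_le_inf_left (P a) hQ)] at h2
  have h3 := dd_inf (P a) (R s b ⊔ R s (a + b))
  have h4 := dd_inf (P a) (P' b ⊔ P' (a + b))
  omega

theorem canon_av [Fintype V] (P P' : V → Submodule K B) (R : V → V → Submodule K B)
    (rb : ∀ s b, P' b ≤ R s b) (rsub : ∀ s b, P' (b - s) ≤ R s b) (η : ℝ)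
    (hst : av (fun a => av fun b => av fun s =>
      ((dd (P a) (P' b ⊔ P' (a + b)) : ℝ) - dd (P a) (R s b ⊔ R s (a + b)))) ≤ η) :
    av (fun a : V => av fun b : V => av fun b' : V =>
      (dd (Kc P P' a b') (Kc P P' a b) : ℝ)) ≤ η := by
  refine le_trans (av_mono fun a => av_mono fun b => ?_) hst
  rw [← av_sub_left (fun b' => (dd (Kc P P' a b') (Kc P P' a b) : ℝ)) b]
  refine av_mono fun s => ?_
  have h := canon_pt P P' R rb rsub a b s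
  have h' : ((dd (Kc P P' a (b - s)) (Kc P P' a b) + dd (P a) (R s b ⊔ R s (a + b)) : ℕ) : ℝ)
      ≤ (dd (P a) (P' b ⊔ P' (a + b)) : ℕ) := by exact_mod_cast h
  push_cast at h'
  linarith

end AHC
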