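import Pool.Agent.Helper35.AHC.GoodSets
import Pool.Agent.Helper35.AHC.Av

/-!
# Project AHC: definitions for Part I.
-/

namespace AHC

open Module Submodule

variable {K : Type*} [Field K] {A B : Type*} [AddCommGroup A] [Module K A]
  [AddCommGroup B] [Module K B] {V : Type*} [AddCommGroup V]

/-- `P(S[x]) + P(S[y]) + P(S[x+y])`. -/
noncomputable def PT (f : V → A →ₗ[K] B) (S : Finset V) (x y : V) : Submodule K B :=
  PP f (ex S x) ⊔ PP f (ex S y) ⊔ PP f (ex S (x + y))

/-- the subspace `D(x,y)⁻¹(P(S[x]) + P(S[y]) + P(S[x+y]))` of `A`. -/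
noncomputable def NT (f : V → A →ₗ[K] B) (S : Finset V) (x y : V) : Submodule K A :=
  (PT f S x y).comap (Df f x y)

/-- the potential `q(S)`. -/
noncomputable def qq [Fintype V] (f : V → A →ₗ[K] B) (S : Finset V) : ℝ :=
  av fun x => av fun y => (rkm (Df f x y) (PT f S x y) : ℝ)

end AHC
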