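import Mathlib

/-!
# Project AHC, module AHC-06 (Greedy): the abstract greedy lemma.

PROOF.  Induction on N, generalizing x0.  If `good x0`, take x = x0; size x0 <= g^[N] (size x0) since
m <= g^[N] m (induction, hg' and monotonicity; e.g. Function.id_le_iterate_of_id_le or by hand).
If not good x0, hstep gives x' with phi x' < phi x0 - delta.  N = 0: phi x' < phi x0 - delta <= 0 - 0,
contradiction to hphi.  N+1: phi x' <= N * delta; the induction hypothesis gives x with
size x <= g^[N] (size x') <= g^[N] (g (size x0)) = g^[N+1] (size x0) (Monotone.iterate,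
Function.iterate_succ_apply).
-/

namespace AHC

theorem greedy {X : Type*} (φ : X → ℝ) (good : X → Prop) (size : X → ℕ) (g : ℕ → ℕ)
    (hg : Monotone g) (hg' : ∀ m, m ≤ g m) (δ : ℝ) (hδ : 0 ≤ δ) (hφ : ∀ x, 0 ≤ φ x)
    (hstep : ∀ x, ¬ good x → ∃ x', φ x' < φ x - δ ∧ size x' ≤ g (size x))
    (N : ℕ) (x0 : X) (h0 : φ x0 ≤ N * δ) : ∃ x, good x ∧ size x ≤ g^[N] (size x0) := by
  induction N generalizing x0 with
  | zero =>
    by_cases hx : good x0
    · exact ⟨x0, hx, le_rfl⟩
    · obtain ⟨x', h1, -⟩ := hstep x0 hx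
      have h2 := hφ x'
      rw [Nat.cast_zero, zero_mul] at h0
      linarith
  | succ N ih =>
    have hid : ∀ (n m : ℕ), m ≤ g^[n] m := by
      intro n
      induction n with
      | zero => intro m; exact le_rfl
      | succ n ihn =>
        intro m
        rw [Function.iterate_succ_apply]
        exact (hg' m).trans (ihn (g m))
    by_cases hx : good x0
    · exact ⟨x0, hx, hid (N + 1) _⟩
    · obtain ⟨x', h1, h2⟩ := hstep x0 hx
      push_cast at h0
      obtain ⟨x, h3, h4⟩ := ih x' (by linarith)
      refine ⟨x, h3, h4.trans ?_⟩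
      rw [Function.iterate_succ_apply]
      exact (hg.iterate N) h2

end AHC
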