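import Pool.Agent.Helper35.AHC.ColDefs
import Pool.Agent.Helper35.AHC.Greedy

/-!
# Project AHC, module AHC-08 (ColGreedy): choice of `S` in Part I.

PROOF.  Apply `greedy` with X = {S : Finset V // Good S}, phi S = qq f S, size = card, g t = 3 * t,
delta = r / k, good S := qq f S - av (fun z => qq f (ex S z)) <= r / k, N = k, x0 = {0} (good_zero).
If S is not good: av (fun z => qq f (ex S z)) < qq f S - r/k, exists_le_av gives z with
qq f (ex S z) <= av < qq f S - r/k; x' = ex S z (good_ex, card_ex).  phi >= 0: av_nonneg;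
phi x0 <= k * (r/k) = r: rkm <= rk <= r (rkm_le_rk, hf, av_le_const; mul_div_cancel₀).
Finally (fun t => 3 * t)^[k] 1 = 3^k (induction).
-/

namespace AHC

open Module Submodule

variable {K : Type*} [Field K] {A B : Type*} [AddCommGroup A] [Module K A]
  [AddCommGroup B] [Module K B] [FiniteDimensional K B] {V : Type*} [AddCommGroup V] [Fintype V]

theorem col_greedy (f : V → A →ₗ[K] B) (r : ℕ) (hf : ∀ x y, rk (Df f x y) ≤ r)
    (k : ℕ) (hk : 0 < k) :
    ∃ S : Finset V, Good S ∧ S.card ≤ 3 ^ k ∧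
      qq f S - av (fun z => qq f (ex S z)) ≤ (r : ℝ) / k := by
  have hk' : (0 : ℝ) < k := by exact_mod_cast hk
  obtain ⟨⟨S, hS⟩, h1, h2⟩ := greedy (X := {S : Finset V // Good S}) (fun S => qq f S.1)
    (fun S => qq f S.1 - av (fun z => qq f (ex S.1 z)) ≤ (r : ℝ) / k) (fun S => S.1.card)
    (fun t => 3 * t) (fun a b h => Nat.mul_le_mul_left 3 h) (fun m => by omega) ((r : ℝ) / k)
    (by positivity) (fun S => av_nonneg fun x => av_nonneg fun y => Nat.cast_nonneg _)
    (fun S hS => by
      rw [not_le] at hS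
      obtain ⟨z, hz⟩ := exists_le_av fun z => qq f (ex S.1 z)
      exact ⟨⟨ex S.1 z, good_ex S.2 z⟩, by simp only; linarith, card_ex S.1 z⟩) k ⟨{0}, good_zero⟩ (by
      rw [mul_div_cancel₀ _ hk'.ne']
      refine av_le_const fun x => av_le_const fun y => ?_
      exact_mod_cast (rkm_le_rk _ _).trans (hf x y))
  refine ⟨S, hS, h2.trans ?_, h1⟩
  have h3 : ∀ n : ℕ, (fun t => 3 * t)^[n] 1 = 3 ^ n := by
    intro n
    induction n with
    | zero => rfl
    | succ n ih => rw [Function.iterate_succ_apply', ih, pow_succ]; ring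
  simp only [Finset.card_singleton]
  rw [h3]

end AHC
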