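import Pool.Agent.Helper35.AHC.ColIncl
import Pool.Agent.Helper35.AHC.ColGreedy

/-!
# Project AHC, module AHC-10 (ColFin): conclusion of Part I.

PROOF.  S from col_greedy.  q = qq f S, q' = av (fun z => qq f (ex S z)), q - q' <= r/k.
(a) Average col_incl over x, y, z:  av_x av_y av_z dd (NT x y) (NT y z) <= 3 q - 3 q' <= 3 r/k:
   right side: av_x av_y av_z rkm (D x (y+z)) (PT S x (y+z)) = q (av_comm for y,z; av_shift), etc.
   left side: av_x av_y av_z rkm (D x y) (PT (ex S z) x y) = q' (commute z outside), and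
   av_x av_y av_z rkm (D (x+y) z) (PT (ex S y) (x+y) z): commute to av_y av_x, shift x: = q';
   av_x av_y av_z rkm (D y z) (PT (ex S x) y z) = q'.
(b) dd_triangle: dd (NT x y) (NT z w) <= dd (NT x y) (NT y z) + dd (NT y z) (NT z w); averages:
   av_x av_y av_z av_w dd (NT x y) (NT z w) <= 6 r/k.  exists_le_av twice: x0, y0 with
   av_z av_w dd (NT x0 y0) (NT z w) <= 6 r/k.
(c) N0 = NT f S x0 y0; dim A - dim N0 = rkm (D x0 y0) (PT ..) <= r (rkm_add_finrank_comap, rkm_le_rk, hf).
   pi = projection of A onto N0 along a complement (Submodule.exists_isCompl, Submodule.IsCompl.projection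
   or N0.subtype ∘ Submodule.linearProjOfIsCompl).  f1 x = f x ∘ₗ pi.
   f x - f1 x = f x ∘ₗ (id - pi), and range of (id - pi) has dimension dim A - dim N0 <= r.
   range (f1 b + f1 (-b)) = range ((f b + f (-b)) ∘ₗ pi) ≤ range (f b + f (-b)) ≤ PP f (ex S b) (range_add_neg_le).
   Df f1 x y = Df f x y ∘ₗ pi; range = (N0).map (Df f x y); rkm (Df f1 x y) (PT f S x y)
   = dd (N0.map D) PT = dd N0 (PT.comap D)  (<= suffices:  dim (N0.map D) - dim (N0.map D ∩ PT)
   = dim N0 - dim (N0 ∩ PT.comap D) as in the proof of dd_comap_le; or: choose a complement Z of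
   N0 ⊓ NT in N0; N0.map D = (N0 ⊓ NT).map D ⊔ Z.map D, first part ≤ PT, dim Z = dd N0 NT).
-/

namespace AHC

open Module Submodule

variable {K : Type*} [Field K] {A B : Type*} [AddCommGroup A] [Module K A]
  [FiniteDimensional K A] [AddCommGroup B] [Module K B] [FiniteDimensional K B]
  {V : Type*} [AddCommGroup V] [Fintype V]

/-- averaged form of `col_incl` -/
private theorem cf_avg (f : V → A →ₗ[K] B) (S : Finset V) (hS : Good S) :
    av (fun x => av fun y => av fun z => (dd (NT f S x y) (NT f S y z) : ℝ)) ≤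
      3 * (qq f S - av (fun z => qq f (ex S z))) := by
  have hne : Nonempty V := ⟨0⟩
  -- the six averages
  have r1 : av (fun x => av fun y => av fun z => (rkm (Df f x (y + z)) (PT f S x (y + z)) : ℝ)) =
      qq f S := by
    unfold qq
    congr 1
    funext x
    have h1 : (fun y => av fun z => (rkm (Df f x (y + z)) (PT f S x (y + z)) : ℝ)) =
        fun _ => av fun z => (rkm (Df f x z) (PT f S x z) : ℝ) := by
      funext y
      exact av_shift' (fun z => (rkm (Df f x z) (PT f S x z) : ℝ)) y
    rw [h1, av_const]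
  have r2 : av (fun x => av fun y => av fun z => (rkm (Df f (x + y) z) (PT f S (x + y) z) : ℝ)) =
      qq f S := by
    have h1 : (fun x => av fun y => av fun z => (rkm (Df f (x + y) z) (PT f S (x + y) z) : ℝ)) =
        fun _ => qq f S := by
      funext x
      exact av_shift' (fun u => av fun z => (rkm (Df f u z) (PT f S u z) : ℝ)) x
    rw [h1, av_const]
  have r3 : av (fun _ : V => av fun y => av fun z => (rkm (Df f y z) (PT f S y z) : ℝ)) =
      qq f S := av_const _
  have l2 : av (fun x => av fun y => av fun z => (rkm (Df f x y) (PT f (ex S z) x y) : ℝ)) =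
      av (fun z => qq f (ex S z)) := by
    have h1 : (fun x => av fun y => av fun z => (rkm (Df f x y) (PT f (ex S z) x y) : ℝ)) =
        fun x => av fun z => av fun y => (rkm (Df f x y) (PT f (ex S z) x y) : ℝ) := by
      funext x
      exact av_comm _
    rw [h1, av_comm]
    rfl
  have l3 : av (fun x => av fun y => av fun z =>
      (rkm (Df f (x + y) z) (PT f (ex S y) (x + y) z) : ℝ)) = av (fun z => qq f (ex S z)) := by
    rw [av_comm]
    congr 1
    funext y
    exact av_shift (fun u => av fun z => (rkm (Df f u z) (PT f (ex S y) u z) : ℝ)) y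
  have l4 : av (fun x => av fun y => av fun z => (rkm (Df f y z) (PT f (ex S x) y z) : ℝ)) =
      av (fun z => qq f (ex S z)) := rfl
  have key : av (fun x => av fun y => av fun z =>
      (((dd (NT f S x y) (NT f S y z) : ℝ) + rkm (Df f x y) (PT f (ex S z) x y)) +
        rkm (Df f (x + y) z) (PT f (ex S y) (x + y) z)) + rkm (Df f y z) (PT f (ex S x) y z)) ≤
      av (fun x => av fun y => av fun z =>
        ((rkm (Df f x (y + z)) (PT f S x (y + z)) : ℝ) +
          rkm (Df f (x + y) z) (PT f S (x + y) z)) + rkm (Df f y z) (PT f S y z)) := by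
    refine av_mono fun x => av_mono fun y => av_mono fun z => ?_
    exact_mod_cast col_incl f S hS x y z
  simp only [av_add] at key
  rw [r1, r2, r3, l2, l3, l4] at key
  linarith

private theorem cf_map_dd (D : A →ₗ[K] B) (N : Submodule K A) (P : Submodule K B) :
    dd (N.map D) P ≤ dd N (P.comap D) :=
  (dd_mono le_rfl (Submodule.map_comap_le D P)).trans (dd_map_le D N (P.comap D))

theorem col_main (f : V → A →ₗ[K] B) (r : ℕ) (hf : ∀ x y, rk (Df f x y) ≤ r)
    (k : ℕ) (hk : 0 < k) :
    ∃ S : Finset V, Good S ∧ S.card ≤ 3 ^ k ∧ ∃ f1 : V → A →ₗ[K] B,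
      (∀ x, rk (f x - f1 x) ≤ r) ∧
      (∀ b, LinearMap.range (f1 b + f1 (-b)) ≤ PP f (ex S b)) ∧
      av (fun x => av fun y => (rkm (Df f1 x y) (PT f S x y) : ℝ)) ≤ 6 * ((r : ℝ) / k) := by
  have hne : Nonempty V := ⟨0⟩
  obtain ⟨S, hS, hcard, hq⟩ := col_greedy f r hf k hk
  refine ⟨S, hS, hcard, ?_⟩
  have h1 := cf_avg f S hS
  -- four averages
  have h2 : av (fun x => av fun y => av fun z => av fun w =>
      (dd (NT f S x y) (NT f S z w) : ℝ)) ≤ 6 * ((r : ℝ) / k) := by
    have h3 : av (fun x => av fun y => av fun z => av fun w =>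
        (dd (NT f S x y) (NT f S z w) : ℝ)) ≤
        av (fun x => av fun y => av fun z => av fun w =>
          (dd (NT f S x y) (NT f S y z) : ℝ) + dd (NT f S y z) (NT f S z w)) := by
      refine av_mono fun x => av_mono fun y => av_mono fun z => av_mono fun w => ?_
      exact_mod_cast dd_triangle (NT f S x y) (NT f S y z) (NT f S z w)
    simp only [av_add, av_const] at h3
    linarith
  obtain ⟨x0, hx0⟩ := exists_le_av (fun x => av fun y => av fun z => av fun w =>
      (dd (NT f S x y) (NT f S z w) : ℝ))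
  obtain ⟨y0, hy0⟩ := exists_le_av (fun y => av fun z => av fun w =>
      (dd (NT f S x0 y) (NT f S z w) : ℝ))
  have h4 : av (fun z => av fun w => (dd (NT f S x0 y0) (NT f S z w) : ℝ)) ≤
      6 * ((r : ℝ) / k) := (hy0.trans hx0).trans h2
  -- the projection
  obtain ⟨g, hg⟩ := LinearMap.exists_leftInverse_of_injective (NT f S x0 y0).subtype
    (Submodule.ker_subtype _)
  have hπ1 : ∀ n ∈ NT f S x0 y0, ((NT f S x0 y0).subtype ∘ₗ g) n = n := by
    intro n hn
    have h5 := LinearMap.congr_fun hg ⟨n, hn⟩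
    exact congrArg Subtype.val h5
  have hπ2 : LinearMap.range ((NT f S x0 y0).subtype ∘ₗ g) = NT f S x0 y0 := by
    apply le_antisymm
    · rintro _ ⟨a, rfl⟩
      exact (g a).2
    · intro n hn
      exact ⟨n, hπ1 n hn⟩
  set π : A →ₗ[K] A := (NT f S x0 y0).subtype ∘ₗ g with hπ
  have hcod : finrank K A ≤ r + finrank K ↥(NT f S x0 y0) := by
    have h5 := rkm_add_finrank_comap (Df f x0 y0) (PT f S x0 y0)
    have h6 := rkm_le_rk (Df f x0 y0) (PT f S x0 y0)
    have h7 := hf x0 y0
    unfold NT
    omega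
  have hrk : rk (LinearMap.id - π) ≤ r := by
    have h5 := LinearMap.finrank_range_add_finrank_ker (LinearMap.id - π)
    have h6 : NT f S x0 y0 ≤ LinearMap.ker (LinearMap.id - π) := by
      intro n hn
      rw [LinearMap.mem_ker, LinearMap.sub_apply, LinearMap.id_apply, hπ1 n hn, sub_self]
    have h7 := Submodule.finrank_mono h6
    unfold rk
    omega
  refine ⟨fun x => f x ∘ₗ π, ?_, ?_, ?_⟩
  · intro x
    have h5 : f x - f x ∘ₗ π = f x ∘ₗ (LinearMap.id - π) := by
      rw [LinearMap.comp_sub, LinearMap.comp_id]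
    change rk (f x - f x ∘ₗ π) ≤ r
    rw [h5]
    exact (rk_comp_le_right _ _).trans hrk
  · intro b
    have h5 : f b ∘ₗ π + f (-b) ∘ₗ π = (f b + f (-b)) ∘ₗ π := by
      rw [LinearMap.add_comp]
    change LinearMap.range (f b ∘ₗ π + f (-b) ∘ₗ π) ≤ _
    rw [h5]
    exact (LinearMap.range_comp_le_range _ _).trans (range_add_neg_le f hS b)
  · refine le_trans (av_mono fun x => av_mono fun y => ?_) h4
    have h5 : Df (fun x => f x ∘ₗ π) x y = Df f x y ∘ₗ π := by
      unfold Df
      rw [LinearMap.sub_comp, LinearMap.sub_comp]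
    have h6 : rkm (Df (fun x => f x ∘ₗ π) x y) (PT f S x y) ≤
        dd (NT f S x0 y0) (NT f S x y) := by
      unfold rkm
      rw [h5, LinearMap.range_comp, hπ2]
      exact cf_map_dd _ _ _
    exact_mod_cast h6

end AHC
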