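import Pool.Agent.Helper35.AHC.ColPt
import Pool.Agent.Helper35.AHC.ColDefs

/-!
# Project AHC, module AHC-09 (ColIncl): the pointwise inequality of Part I with the moduli replaced.

PROOF.  P7 = sum of PP f (ex S w), w in {x, y, x+y, z, x+z, y+z, x+y+z}.  D1 = Df f x y,
D2 = Df f (x+y) z, D3 = Df f y z, D4 = Df f x (y+z); D1 + D2 = D3 + D4 (Df_cocycle).
col_pointwise (P = P7):  dd N1 N3 + dd D1 (P7+D2+D3) + dd D2 (P7+D3) <= dd D4 P7 + dd D2 P7, N_i = P7.comap D_i.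
Inclusions (each by PP_mono and ex_add, ex_sub, ex_sub', ex_comm, subset_ex; le_PP, self_mem_ex for the ranges):
 (1) PT f S x (y+z) ≤ P7;  (2) PT f S (x+y) z ≤ P7;  (3) PT f S x y ≤ P7, PT f S y z ≤ P7;
 (4) P7 ⊔ range D2 ⊔ range D3 ≤ PT f (ex S z) x y:
     PT f (ex S z) x y = P(S[z][x]) + P(S[z][y]) + P(S[z][x+y]); S[z] ⊂ S[z][x] (subset_ex), S[x] ⊂ S[z][x]
     (ex_mono), S[x+z] ⊂ S[x][z] = S[z][x], S[y+z] ⊂ S[z][y], S[x+y+z] ⊂ S[x+y][z] = S[z][x+y];
     range D(x+y,z) ≤ P(S[z][x+y]) (x+y, z, x+y+z are in S[z][x+y]), range D(y,z) ≤ P(S[z][y]).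
 (5) P7 ⊔ range D3 ≤ PT f (ex S y) (x+y) z = P(S[y][x+y]) + P(S[y][z]) + P(S[y][x+y+z]):
     S[x] ⊂ S[y][x+y] (x = (x+y)-y), S[y], S[x+y] clear, S[z] ⊂ S[y][z], S[y+z] ⊂ S[y][z],
     S[x+z] ⊂ S[y][x+y+z] (x+z = (x+y+z)-y), S[x+y+z] ⊂ S[y][x+y+z]; range D(y,z) ≤ P(S[y][z]).
 (6) P7 ≤ PT f (ex S x) y z = P(S[x][y]) + P(S[x][z]) + P(S[x][y+z]): same way.
Then NT f S x y ≤ N1 (comap_mono), and dd (NT x y) (NT y z) <= dd N1 (NT y z) <= dd N1 N3 + dd N3 (NT y z)
(dd_mono, dd_triangle), dd N3 (NT y z) = dim N3 - dim NT y z (NT y z ≤ N3) = rkm D3 (PT f S y z) - rkm D3 P7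
(rkm_add_finrank_comap twice, dd_inf) <= rkm D3 (PT f S y z) - rkm D3 (PT f (ex S x) y z) (rkm_anti, (6)).
Combine with dd D1 (P7+D2+D3) >= rkm D1 (PT f (ex S z) x y), dd D2 (P7+D3) >= rkm D2 (PT f (ex S y) (x+y) z),
dd D4 P7 <= rkm D4 (PT f S x (y+z)), dd D2 P7 <= rkm D2 (PT f S (x+y) z) (dd_mono; rkm unfolds to dd).
-/

namespace AHC

open Module Submodule

variable {K : Type*} [Field K] {A B : Type*} [AddCommGroup A] [Module K A]
  [FiniteDimensional K A] [AddCommGroup B] [Module K B] [FiniteDimensional K B]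
  {V : Type*} [AddCommGroup V]

theorem col_incl (f : V → A →ₗ[K] B) (S : Finset V) (hS : Good S) (x y z : V) :
    dd (NT f S x y) (NT f S y z) + rkm (Df f x y) (PT f (ex S z) x y)
      + rkm (Df f (x + y) z) (PT f (ex S y) (x + y) z) + rkm (Df f y z) (PT f (ex S x) y z)
      ≤ rkm (Df f x (y + z)) (PT f S x (y + z)) + rkm (Df f (x + y) z) (PT f S (x + y) z)
        + rkm (Df f y z) (PT f S y z) := by
  obtain ⟨P, hP⟩ : ∃ P : Submodule K B, P = PP f (ex S x) ⊔ PP f (ex S y) ⊔ PP f (ex S (x + y)) ⊔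
    PP f (ex S z) ⊔ PP f (ex S (x + z)) ⊔ PP f (ex S (y + z)) ⊔ PP f (ex S (x + y + z)) := ⟨_, rfl⟩
  have p1 : PP f (ex S x) ≤ P := by rw [hP]; simp only [sup_assoc]; exact le_sup_left
  have p2 : PP f (ex S y) ≤ P := by
    rw [hP]; simp only [sup_assoc]; exact le_sup_of_le_right le_sup_left
  have p3 : PP f (ex S (x + y)) ≤ P := by
    rw [hP]; simp only [sup_assoc]; exact le_sup_of_le_right (le_sup_of_le_right le_sup_left)
  have p4 : PP f (ex S z) ≤ P := by
    rw [hP]; simp only [sup_assoc]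
    exact le_sup_of_le_right (le_sup_of_le_right (le_sup_of_le_right le_sup_left))
  have p5 : PP f (ex S (x + z)) ≤ P := by
    rw [hP]; simp only [sup_assoc]
    exact le_sup_of_le_right (le_sup_of_le_right (le_sup_of_le_right (le_sup_of_le_right le_sup_left)))
  have p6 : PP f (ex S (y + z)) ≤ P := by
    rw [hP]; exact le_sup_of_le_left le_sup_right
  have p7 : PP f (ex S (x + y + z)) ≤ P := by
    rw [hP]; exact le_sup_right
  have hle : ∀ Q : Submodule K B, PP f (ex S x) ≤ Q → PP f (ex S y) ≤ Q → PP f (ex S (x + y)) ≤ Q →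
      PP f (ex S z) ≤ Q → PP f (ex S (x + z)) ≤ Q → PP f (ex S (y + z)) ≤ Q →
      PP f (ex S (x + y + z)) ≤ Q → P ≤ Q := by
    intro Q q1 q2 q3 q4 q5 q6 q7
    rw [hP]
    exact sup_le (sup_le (sup_le (sup_le (sup_le (sup_le q1 q2) q3) q4) q5) q6) q7
  -- the three summands of `PT`
  have t1 : ∀ (T : Finset V) (a b : V), PP f (ex T a) ≤ PT f T a b := fun T a b =>
    le_sup_of_le_left le_sup_left
  have t2 : ∀ (T : Finset V) (a b : V), PP f (ex T b) ≤ PT f T a b := fun T a b =>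
    le_sup_of_le_left le_sup_right
  have t3 : ∀ (T : Finset V) (a b : V), PP f (ex T (a + b)) ≤ PT f T a b := fun T a b =>
    le_sup_right
  have h1 : PT f S x (y + z) ≤ P := by
    refine sup_le (sup_le p1 p6) ?_
    rw [← add_assoc]
    exact p7
  have h2 : PT f S (x + y) z ≤ P := sup_le (sup_le p3 p4) p7
  have h3 : PT f S x y ≤ P := sup_le (sup_le p1 p2) p3
  have h3' : PT f S y z ≤ P := sup_le (sup_le p2 p4) p6
  have hr : ∀ a b : V, LinearMap.range (Df f a b) ≤ PP f (ex (ex S b) a) := by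
    intro a b
    refine le_PP f (self_mem_ex (good_ex hS b) a) (subset_ex _ a (self_mem_ex hS b)) ?_
    exact mem_ex.mpr (Or.inr (Or.inl (by rw [add_sub_cancel_left]; exact self_mem_ex hS b)))
  have hr' : ∀ a b : V, LinearMap.range (Df f a b) ≤ PP f (ex (ex S a) b) := by
    intro a b
    rw [Df_comm]
    exact hr b a
  have i1 : ∀ u w : V, PP f (ex S u) ≤ PP f (ex (ex S w) u) := fun u w =>
    PP_mono f (ex_mono (subset_ex S w) u)
  have i2 : ∀ u w : V, PP f (ex S w) ≤ PP f (ex (ex S w) u) := fun u w =>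
    PP_mono f (subset_ex _ u)
  have i3 : ∀ u w : V, PP f (ex S (w + u)) ≤ PP f (ex (ex S w) u) := fun u w =>
    PP_mono f (ex_add S w u)
  have i3' : ∀ u w : V, PP f (ex S (u + w)) ≤ PP f (ex (ex S w) u) := fun u w => by
    rw [add_comm u w]
    exact i3 u w
  have i4 : ∀ u w : V, PP f (ex S (u - w)) ≤ PP f (ex (ex S w) u) := fun u w =>
    PP_mono f (ex_sub' S u w)
  have h4 : P ⊔ LinearMap.range (Df f (x + y) z) ⊔ LinearMap.range (Df f y z) ≤
      PT f (ex S z) x y := by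
    refine sup_le (sup_le (hle _ ?_ ?_ ?_ ?_ ?_ ?_ ?_) ?_) ?_
    · exact (i1 x z).trans (t1 _ _ _)
    · exact (i1 y z).trans (t2 _ _ _)
    · exact (i1 (x + y) z).trans (t3 _ _ _)
    · exact (i2 x z).trans (t1 _ _ _)
    · exact (i3' x z).trans (t1 _ _ _)
    · exact (i3' y z).trans (t2 _ _ _)
    · exact (i3' (x + y) z).trans (t3 _ _ _)
    · exact (hr (x + y) z).trans (t3 _ _ _)
    · exact (hr y z).trans (t2 _ _ _)
  have h5 : P ⊔ LinearMap.range (Df f y z) ≤ PT f (ex S y) (x + y) z := by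
    have e1 : x + y - y = x := add_sub_cancel_right x y
    have e2 : x + y + z - y = x + z := by abel
    refine sup_le (hle _ ?_ ?_ ?_ ?_ ?_ ?_ ?_) ?_
    · have h := i4 (x + y) y
      rw [e1] at h
      exact h.trans (t1 _ _ _)
    · exact (i2 (x + y) y).trans (t1 _ _ _)
    · exact (i1 (x + y) y).trans (t1 _ _ _)
    · exact (i1 z y).trans (t2 _ _ _)
    · have h := i4 (x + y + z) y
      rw [e2] at h
      exact h.trans (t3 _ _ _)
    · exact (i3 z y).trans (t2 _ _ _)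
    · exact (i1 (x + y + z) y).trans (t3 _ _ _)
    · exact (hr' y z).trans (t2 _ _ _)
  have h6 : P ≤ PT f (ex S x) y z := by
    refine hle _ ?_ ?_ ?_ ?_ ?_ ?_ ?_
    · exact (i2 y x).trans (t1 _ _ _)
    · exact (i1 y x).trans (t1 _ _ _)
    · exact (i3 y x).trans (t1 _ _ _)
    · exact (i1 z x).trans (t2 _ _ _)
    · exact (i3 z x).trans (t2 _ _ _)
    · exact (i1 (y + z) x).trans (t3 _ _ _)
    · have h := i3 (y + z) x
      rw [← add_assoc] at h
      exact h.trans (t3 _ _ _)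
  have hc := col_pointwise (Df f x y) (Df f (x + y) z) (Df f y z) (Df f x (y + z))
    (Df_cocycle f x y z) P
  have hN1 : NT f S x y ≤ P.comap (Df f x y) := Submodule.comap_mono h3
  have hN3 : NT f S y z ≤ P.comap (Df f y z) := Submodule.comap_mono h3'
  have a1 : dd (NT f S x y) (NT f S y z) ≤ dd (P.comap (Df f x y)) (NT f S y z) :=
    dd_mono hN1 le_rfl
  have a2 := dd_triangle (P.comap (Df f x y)) (P.comap (Df f y z)) (NT f S y z)
  have a3 := dd_inf (P.comap (Df f y z)) (NT f S y z)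
  rw [inf_eq_right.mpr hN3] at a3
  have a4 := rkm_add_finrank_comap (Df f y z) P
  have a5 := rkm_add_finrank_comap (Df f y z) (PT f S y z)
  change rkm (Df f y z) (PT f S y z) + finrank K ↥(NT f S y z) = finrank K A at a5
  have a6 := rkm_anti (Df f y z) h6
  have a7 : rkm (Df f x y) (PT f (ex S z) x y) ≤ dd (LinearMap.range (Df f x y))
      (P ⊔ LinearMap.range (Df f (x + y) z) ⊔ LinearMap.range (Df f y z)) := dd_mono le_rfl h4
  have a8 : rkm (Df f (x + y) z) (PT f (ex S y) (x + y) z) ≤ dd (LinearMap.range (Df f (x + y) z))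
      (P ⊔ LinearMap.range (Df f y z)) := dd_mono le_rfl h5
  have a9 : dd (LinearMap.range (Df f x (y + z))) P ≤ rkm (Df f x (y + z)) (PT f S x (y + z)) :=
    dd_mono le_rfl h1
  have a10 : dd (LinearMap.range (Df f (x + y) z)) P ≤ rkm (Df f (x + y) z) (PT f S (x + y) z) :=
    dd_mono le_rfl h2
  omega

end AHC
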