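import Pool.Agent.Helper35.AHC.Dim

/-!
# Project AHC, module AHC-07 (ColPt): the pointwise inequality of Part I.

PROOF.  Write N_i = P.comap M_i.  All dimensions relative to P:
(a) rkm_add_finrank_comap: dd (range M_i) P + dim N_i = dim A.
(b) dd N1 N4 = dim N1 - dim (N1 ∩ N4) (dd_inf).  For the subspace N4: M1 maps N4 into
  (range M1) and, since M1 = M3 + M4 - M2, into range M3 + range M2 + P.  Let Q = P + range M2 + range M3.
  dim N4 - dim (N4 ∩ N1) = dd N4 N1 <= dd ((range M1) ∩ Q) P  by dd_comap_le (u = M1, X = N4,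
  Y = range M1 ⊓ Q, Y' = P).  And dd ((range M1) ∩ Q) P = dd (range M1) P - dd (range M1) Q:
  indeed dd_modular (X = range M1, Q = P, Q' = Q) gives dd ((range M1 ⊔ P) ⊓ Q) P + dd (range M1) Q
  = dd (range M1) P, and (range M1) ⊓ Q ≤ (range M1 ⊔ P) ⊓ Q (dd_mono).
  Hence dd N1 N4 = dim N1 - dim (N1∩N4) = dim N1 - dim N4 + dd N4 N1
       <= (dim A - dd (range M1) P) - (dim A - dd (range M4) P) + dd (range M1) P - dd (range M1) Q
       = dd (range M4) P - dd (range M1) Q.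
(c) on N1 ∩ N4 we have M3 = M1 + M2 - M4, so M3 maps N1 ∩ N4 into (range M3) ∩ (range M2 + P):
  dd (N1 ∩ N4) N3 <= dd (range M3 ⊓ (range M2 ⊔ P)) P (dd_comap_le) ; and
  dd (range M3 ⊓ (range M2 ⊔ P)) P <= dd (range M2) P - dd (range M2) (P ⊔ range M3):
  by dd_inf-type counting modulo P (symmetric in M2, M3): dd (range M2) P + dd (range M3) P
  - dd (range M2 ⊔ range M3) P >= dd ((range M2 ⊔ P) ⊓ (range M3 ⊔ P)) P and
  dd (range M2 ⊔ range M3) P = dd (range M2) (P ⊔ range M3) + dd (range M3) P.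
(d) dd N1 N3 <= dd N1 (N4 ⊓ N3) = dd N1 N4 + dd (N1 ⊓ N4) N3 (dd_inf three times). Sum (b), (c).
-/

namespace AHC

open Module Submodule

variable {K : Type*} [Field K] {A B : Type*} [AddCommGroup A] [Module K A]
  [FiniteDimensional K A] [AddCommGroup B] [Module K B] [FiniteDimensional K B]

theorem col_pointwise (M1 M2 M3 M4 : A →ₗ[K] B) (h : M1 + M2 = M3 + M4) (P : Submodule K B) :
    dd (P.comap M1) (P.comap M3)
      + dd (LinearMap.range M1) (P ⊔ LinearMap.range M2 ⊔ LinearMap.range M3)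
      + dd (LinearMap.range M2) (P ⊔ LinearMap.range M3)
      ≤ dd (LinearMap.range M4) P + dd (LinearMap.range M2) P := by
  have hpt : ∀ a, M1 a + M2 a = M3 a + M4 a := fun a => by
    have := congrArg (fun f : A →ₗ[K] B => f a) h
    simpa using this
  have a1 := rkm_add_finrank_comap M1 P
  have a4 := rkm_add_finrank_comap M4 P
  unfold rkm at a1 a4
  -- (b)
  have b1 := dd_inf (P.comap M1) (P.comap M4)
  have b2 := dd_inf (P.comap M4) (P.comap M1)
  rw [inf_comm] at b2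
  have b3 : dd (P.comap M4) (P.comap M1) ≤
      dd (LinearMap.range M1 ⊓ (P ⊔ LinearMap.range M2 ⊔ LinearMap.range M3)) P := by
    apply dd_comap_le
    rintro _ ⟨a, ha, rfl⟩
    refine ⟨⟨a, rfl⟩, ?_⟩
    have e : M1 a = M4 a + (- M2 a) + M3 a := by
      have := hpt a
      rw [← sub_eq_zero] at this ⊢
      rw [← this]
      abel
    rw [e]
    refine Submodule.add_mem_sup (Submodule.add_mem_sup ha ?_) ⟨a, rfl⟩
    exact Submodule.neg_mem _ ⟨a, rfl⟩
  have hPQ : P ≤ P ⊔ LinearMap.range M2 ⊔ LinearMap.range M3 := le_sup_left.trans le_sup_left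
  have b4 := dd_modular (LinearMap.range M1) P (P ⊔ LinearMap.range M2 ⊔ LinearMap.range M3) hPQ
  have b5 : dd (LinearMap.range M1 ⊓ (P ⊔ LinearMap.range M2 ⊔ LinearMap.range M3)) P ≤
      dd ((LinearMap.range M1 ⊔ P) ⊓ (P ⊔ LinearMap.range M2 ⊔ LinearMap.range M3)) P :=
    dd_mono (inf_le_inf_right _ le_sup_left) le_rfl
  -- (c)
  have c1 : dd (P.comap M1 ⊓ P.comap M4) (P.comap M3) ≤
      dd (LinearMap.range M3 ⊓ (LinearMap.range M2 ⊔ P)) P := by
    apply dd_comap_le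
    rintro _ ⟨a, ⟨ha1, ha4⟩, rfl⟩
    refine ⟨⟨a, rfl⟩, ?_⟩
    have e : M3 a = M2 a + (M1 a - M4 a) := by
      have := hpt a
      rw [← sub_eq_zero] at this ⊢
      rw [← neg_eq_zero, ← this]
      abel
    rw [e]
    exact Submodule.add_mem_sup ⟨a, rfl⟩ (Submodule.sub_mem _ ha1 ha4)
  have c2 := dd_modular (LinearMap.range M2) P (P ⊔ LinearMap.range M3) le_sup_left
  have c3 : dd (LinearMap.range M3 ⊓ (LinearMap.range M2 ⊔ P)) P ≤
      dd ((LinearMap.range M2 ⊔ P) ⊓ (P ⊔ LinearMap.range M3)) P := by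
    refine dd_mono (le_inf inf_le_right ?_) le_rfl
    exact inf_le_left.trans le_sup_right
  -- (d)
  have d1 := dd_inf (P.comap M1) (P.comap M3)
  have d2 := dd_inf (P.comap M1 ⊓ P.comap M4) (P.comap M3)
  have d3 : finrank K ↥(P.comap M1 ⊓ P.comap M4 ⊓ P.comap M3) ≤
      finrank K ↥(P.comap M1 ⊓ P.comap M3) :=
    Submodule.finrank_mono (inf_le_inf_right _ inf_le_left)
  omega

end AHC
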