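import Mathlib

/-!
# Project AHC (MP_d3b2ec_co): approximate homomorphisms into matrices modulo low rank.
Definitions.  Paper proof: team-store memo_MP_d3b2ec_co_AHC_helper35.md
-/

namespace AHC

open Module Submodule

section Lin

variable {K : Type*} [Field K] {A B : Type*} [AddCommGroup A] [Module K A]
  [AddCommGroup B] [Module K B]

/-- the dimension of `X` modulo `Y` (paper: `d(X|Y)`). -/
noncomputable def dd (X Y : Submodule K B) : ℕ := finrank K ↥(X ⊔ Y) - finrank K ↥Y

/-- the rank of a linear map. -/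
noncomputable def rk (M : A →ₗ[K] B) : ℕ := finrank K ↥(LinearMap.range M)

/-- the rank of a linear map modulo a subspace (paper: `rk(M|X)`). -/
noncomputable def rkm (M : A →ₗ[K] B) (X : Submodule K B) : ℕ := dd (LinearMap.range M) X

end Lin

section Av

variable {V : Type*} [Fintype V]

/-- the average of a real function on a finite type. -/
noncomputable def av (g : V → ℝ) : ℝ := (Fintype.card V : ℝ)⁻¹ * ∑ x, g x

end Av

section Good

variable {V : Type*} [AddCommGroup V]

/-- good sets: symmetric finite sets containing `0`. -/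
def Good (S : Finset V) : Prop := (0 : V) ∈ S ∧ ∀ x ∈ S, -x ∈ S

open Classical in
/-- `S[x] = S + {0, x, -x}`. -/
noncomputable def ex (S : Finset V) (x : V) : Finset V :=
  S ∪ (S.image (fun s => s + x) ∪ S.image (fun s => s - x))

end Good

section Defect

variable {K : Type*} [Field K] {A B : Type*} [AddCommGroup A] [Module K A]
  [AddCommGroup B] [Module K B] {V : Type*} [AddCommGroup V]

/-- the defect `D_f(x,y) = f(x+y) - f(x) - f(y)`. -/
def Df (f : V → A →ₗ[K] B) (x y : V) : A →ₗ[K] B := f (x + y) - f x - f y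

open Classical in
/-- `P(S)`: the sum of the images of `D_f(a,b)`, `a, b, a+b ∈ S`. -/
noncomputable def PP (f : V → A →ₗ[K] B) (S : Finset V) : Submodule K B :=
  (S ×ˢ S).sup fun q => if q.1 + q.2 ∈ S then LinearMap.range (Df f q.1 q.2) else ⊥

end Defect

section Sel

variable {K : Type*} [Field K] {B : Type*} [AddCommGroup B] [Module K B]
  {V : Type*} [AddCommGroup V]

/-- paper: `K^i_a(b) = P^i_a ∩ (P^{i+1}_b + P^{i+1}_{a+b})`, with `P = P^i`, `P' = P^{i+1}`. -/
def Kc (P P' : V → Submodule K B) (a b : V) : Submodule K B := P a ⊓ (P' b ⊔ P' (a + b))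

variable [Fintype V]

/-- The output of the selection (working in the quotient `B/W`).  `P0, ..., P4` are the
families `P^i_x`, `R s b = R^1(s,b)`; `η` is the error (paper: `η r`). -/
structure Sel (P0 P1 P2 P3 P4 : V → Submodule K B) (R : V → V → Submodule K B) (η : ℝ) : Prop where
  neg1 : ∀ x, P1 (-x) = P1 x
  neg4 : ∀ x, P4 (-x) = P4 x
  le01 : ∀ x, P0 x ≤ P1 x
  le12 : ∀ x, P1 x ≤ P2 x
  le23 : ∀ x, P2 x ≤ P3 x
  le34 : ∀ x, P3 x ≤ P4 x
  rs : ∀ s b, P1 s ≤ R s b
  rb : ∀ s b, P1 b ≤ R s b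
  rsub : ∀ s b, P1 (b - s) ≤ R s b
  c0 : av (fun a => av fun b => av fun s =>
    ((dd (P0 a) (P1 b ⊔ P1 (a + b)) : ℝ) - dd (P0 a) (R s b ⊔ R s (a + b)))) ≤ η
  c1 : av (fun a : V => av fun b : V => av fun b' : V =>
    (dd (Kc P1 P2 a b') (Kc P1 P2 a b) : ℝ)) ≤ η
  c2 : av (fun a : V => av fun b : V => av fun b' : V =>
    (dd (Kc P2 P3 a b') (Kc P2 P3 a b) : ℝ)) ≤ η
  c3 : av (fun a : V => av fun b : V => av fun b' : V =>
    (dd (Kc P3 P4 a b') (Kc P3 P4 a b) : ℝ)) ≤ η
  j : av (fun x : V => av fun y : V => av fun z : V =>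
    (finrank K ↥(P4 x ⊓ (P4 y ⊔ P4 z)) : ℝ)) ≤ η

end Sel

end AHC
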