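import Pool.Agent.Helper35.AHC.Defs

/-!
# Project AHC, module 01 (Dim): linear algebra of `dd`, `rk`, `rkm`.
-/

namespace AHC

open Module Submodule

section Lin

variable {K : Type*} [Field K] {A B C : Type*} [AddCommGroup A] [Module K A]
  [AddCommGroup B] [Module K B] [FiniteDimensional K B] [AddCommGroup C] [Module K C]

theorem dd_add (X Y : Submodule K B) : dd X Y + finrank K ↥Y = finrank K ↥(X ⊔ Y) := by
  unfold dd
  have := Submodule.finrank_mono (le_sup_right : Y ≤ X ⊔ Y)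
  omega

theorem dd_inf (X Y : Submodule K B) : dd X Y + finrank K ↥(X ⊓ Y) = finrank K ↥X := by
  have h1 := dd_add X Y
  have h2 := Submodule.finrank_sup_add_finrank_inf_eq X Y
  omega

theorem dd_mono {X X' Y Y' : Submodule K B} (h : X ≤ X') (h' : Y' ≤ Y) : dd X Y ≤ dd X' Y' := by
  have h1 := dd_inf X Y
  have h2 := dd_inf X Y'
  have h3 : finrank K ↥(X ⊓ Y') ≤ finrank K ↥(X ⊓ Y) :=
    Submodule.finrank_mono (inf_le_inf_left X h')
  have h4 := dd_add X Y'
  have h5 := dd_add X' Y'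
  have h6 : finrank K ↥(X ⊔ Y') ≤ finrank K ↥(X' ⊔ Y') :=
    Submodule.finrank_mono (sup_le_sup_right h Y')
  omega

theorem dd_le (X Y : Submodule K B) : dd X Y ≤ finrank K ↥X := by
  have := dd_inf X Y
  omega

theorem dd_bot (X : Submodule K B) : dd X ⊥ = finrank K ↥X := by
  have := dd_inf X ⊥
  rwa [inf_bot_eq, finrank_bot, add_zero] at this

theorem dd_of_le {X Y : Submodule K B} (h : X ≤ Y) : dd X Y = 0 := by
  have := dd_inf X Y
  rw [inf_eq_left.mpr h] at this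
  omega

omit [FiniteDimensional K B] in
theorem dd_sup_right (X Y : Submodule K B) : dd (X ⊔ Y) Y = dd X Y := by
  unfold dd
  rw [sup_assoc, sup_idem]

theorem dd_triangle (X Y Z : Submodule K B) : dd X Z ≤ dd X Y + dd Y Z := by
  have h1 := dd_add X (Y ⊔ Z)
  have h2 := dd_add Y Z
  have h3 := dd_add X Z
  have h4 : finrank K ↥(X ⊔ Z) ≤ finrank K ↥(X ⊔ (Y ⊔ Z)) :=
    Submodule.finrank_mono (sup_le_sup_left le_sup_right X)
  have h5 : dd X (Y ⊔ Z) ≤ dd X Y := dd_mono le_rfl le_sup_left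
  omega

theorem dd_sup_left (X X' Y : Submodule K B) : dd (X ⊔ X') Y ≤ dd X Y + dd X' Y := by
  have h1 := dd_add (X ⊔ X') Y
  have h2 := dd_add X (X' ⊔ Y)
  have h3 := dd_add X' Y
  rw [← sup_assoc] at h2
  have h5 : dd X (X' ⊔ Y) ≤ dd X Y := dd_mono le_rfl le_sup_right
  omega

theorem dd_sup_sup (X X' Y Y' : Submodule K B) :
    dd (X ⊔ X') (Y ⊔ Y') ≤ dd X Y + dd X' Y' :=
  (dd_sup_left X X' (Y ⊔ Y')).trans
    (add_le_add (dd_mono le_rfl le_sup_left) (dd_mono le_rfl le_sup_right))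

theorem dd_inf_right (X Y Z : Submodule K B) : dd X (Y ⊓ Z) ≤ dd X Y + dd X Z := by
  have h1 := dd_inf X (Y ⊓ Z)
  have h2 := dd_inf X Y
  have h3 := dd_inf (X ⊓ Y) Z
  have h4 : dd (X ⊓ Y) Z ≤ dd X Z := dd_mono inf_le_left le_rfl
  rw [← inf_assoc] at h1
  omega

/-- modular law: `d((X+Q) ∩ Q⁺ | Q) = d(X|Q) - d(X|Q⁺)` for `Q ≤ Q⁺`. -/
theorem dd_modular (X Q Q' : Submodule K B) (h : Q ≤ Q') :
    dd ((X ⊔ Q) ⊓ Q') Q + dd X Q' = dd X Q := by
  have e : (X ⊔ Q) ⊓ Q' = (X ⊓ Q') ⊔ Q := by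
    rw [sup_comm X Q, sup_inf_assoc_of_le X h, sup_comm]
  rw [e, dd_sup_right]
  have h1 := dd_inf (X ⊓ Q') Q
  have h2 := dd_inf X Q'
  have h3 := dd_inf X Q
  have h4 : X ⊓ Q' ⊓ Q = X ⊓ Q := by
    rw [inf_assoc, inf_eq_right.mpr h]
  rw [h4] at h1
  omega

theorem dd_map_le [FiniteDimensional K C] (u : B →ₗ[K] C) (X Y : Submodule K B) :
    dd (X.map u) (Y.map u) ≤ dd X Y := by
  obtain ⟨Z, hZ⟩ := Submodule.exists_isCompl (X ⊓ Y)
  -- a complement of `X ⊓ Y` in `X`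
  have e : X = (X ⊓ Y) ⊔ (X ⊓ Z) := by
    have h1 : (X ⊓ Y) ⊔ (Z ⊓ X) = ((X ⊓ Y) ⊔ Z) ⊓ X := (sup_inf_assoc_of_le Z inf_le_left).symm
    rw [inf_comm X Z, h1, hZ.sup_eq_top, top_inf_eq]
  have h2 : X.map u = ((X ⊓ Y).map u) ⊔ ((X ⊓ Z).map u) := by
    rw [← Submodule.map_sup, ← e]
  rw [h2]
  have h3 := dd_sup_left ((X ⊓ Y).map u) ((X ⊓ Z).map u) (Y.map u)
  have h4 : dd ((X ⊓ Y).map u) (Y.map u) = 0 := dd_of_le (Submodule.map_mono inf_le_right)
  have h5 : dd ((X ⊓ Z).map u) (Y.map u) ≤ finrank K ↥((X ⊓ Z).map u) := dd_le _ _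
  have h6 : finrank K ↥((X ⊓ Z).map u) ≤ finrank K ↥(X ⊓ Z) := Submodule.finrank_map_le u _
  have h7 : finrank K ↥(X ⊓ Z) ≤ dd X Y := by
    have a1 := Submodule.finrank_sup_add_finrank_inf_eq (X ⊓ Y) (X ⊓ Z)
    rw [← e] at a1
    have a2 : (X ⊓ Y) ⊓ (X ⊓ Z) = ⊥ := by
      apply le_bot_iff.mp
      rw [← hZ.inf_eq_bot]
      exact inf_le_inf_left _ inf_le_right
    rw [a2] at a1
    have a3 := dd_inf X Y
    simp only [finrank_bot, add_zero] at a1
    omega
  omega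

theorem finrank_map_add (u : B →ₗ[K] C) (Z : Submodule K B) : finrank K ↥(Z.map u) +
    finrank K ↥(Z ⊓ LinearMap.ker u) = finrank K ↥Z := by
  have := LinearMap.finrank_range_add_finrank_ker (u.domRestrict Z)
  rw [LinearMap.range_domRestrict] at this
  have e2 : finrank K ↥(LinearMap.ker (u.domRestrict Z)) = finrank K ↥(Z ⊓ LinearMap.ker u) := by
    have e3 : (LinearMap.ker (u.domRestrict Z)).map Z.subtype = Z ⊓ LinearMap.ker u := by
      ext x
      simp only [Submodule.mem_map, LinearMap.mem_ker, Submodule.mem_inf]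
      constructor
      · rintro ⟨y, hy, rfl⟩
        exact ⟨y.2, hy⟩
      · rintro ⟨hx, hx'⟩
        exact ⟨⟨x, hx⟩, hx', rfl⟩
    rw [← e3]
    exact (LinearEquiv.finrank_eq (Submodule.equivMapOfInjective _
      Z.injective_subtype _))
  omega

/-- the codimension in `X` of the elements of `X` mapped into `Y'`. -/
theorem dd_comap_le [FiniteDimensional K C] (u : B →ₗ[K] C) (X : Submodule K B)
    (Y Y' : Submodule K C) (h : X.map u ≤ Y) : dd X (Y'.comap u) ≤ dd Y Y' := by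
  have h1 : dd X (Y'.comap u) ≤ dd (X.map u) Y' := by
    have a1 := dd_inf X (Y'.comap u)
    have a2 := dd_inf (X.map u) Y'
    have a3 : (X ⊓ Y'.comap u).map u = X.map u ⊓ Y' := by
      ext y
      simp only [Submodule.mem_map, Submodule.mem_inf, Submodule.mem_comap]
      constructor
      · rintro ⟨x, ⟨hx, hx'⟩, rfl⟩
        exact ⟨⟨x, hx, rfl⟩, hx'⟩
      · rintro ⟨⟨x, hx, rfl⟩, hx'⟩
        exact ⟨x, ⟨hx, hx'⟩, rfl⟩
    have k1 := finrank_map_add u X
    have k2 := finrank_map_add u (X ⊓ Y'.comap u)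
    rw [a3] at k2
    have k3 : X ⊓ Y'.comap u ⊓ LinearMap.ker u = X ⊓ LinearMap.ker u := by
      apply le_antisymm
      · exact inf_le_inf_right _ inf_le_left
      · refine le_inf (le_inf inf_le_left ?_) inf_le_right
        intro x hx
        have : u x = 0 := hx.2
        simp [this]
    rw [k3] at k2
    omega
  exact h1.trans (dd_mono h le_rfl)

/-- the dimension in terms of a map and a subspace of small codimension. -/
theorem finrank_le_dd_add (X Y : Submodule K B) :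
    finrank K ↥X ≤ dd X Y + finrank K ↥(X ⊓ Y) := (dd_inf X Y).ge

/-- `dim ((Y + E) ∩ (X + E')) ≤ dim (X ∩ Y) + dim E + dim E'`. -/
theorem finrank_inf_sup_le (X Y E E' : Submodule K B) :
    finrank K ↥((Y ⊔ E) ⊓ (X ⊔ E')) ≤
      finrank K ↥(X ⊓ Y) + finrank K ↥E + finrank K ↥E' := by
  have h1 := dd_inf ((Y ⊔ E) ⊓ (X ⊔ E')) Y
  have h2 : dd ((Y ⊔ E) ⊓ (X ⊔ E')) Y ≤ dd (Y ⊔ E) Y := dd_mono inf_le_left le_rfl
  have h3 : dd (Y ⊔ E) Y ≤ dd Y Y + dd E Y := dd_sup_left _ _ _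
  have h4 : dd Y Y = 0 := dd_of_le le_rfl
  have h5 := dd_le E Y
  have h6 := dd_inf ((Y ⊔ E) ⊓ (X ⊔ E') ⊓ Y) X
  have h7 : dd ((Y ⊔ E) ⊓ (X ⊔ E') ⊓ Y) X ≤ dd (X ⊔ E') X :=
    dd_mono (inf_le_left.trans inf_le_right) le_rfl
  have h8 : dd (X ⊔ E') X ≤ dd X X + dd E' X := dd_sup_left _ _ _
  have h9 : dd X X = 0 := dd_of_le le_rfl
  have h10 := dd_le E' X
  have h11 : finrank K ↥((Y ⊔ E) ⊓ (X ⊔ E') ⊓ Y ⊓ X) ≤ finrank K ↥(X ⊓ Y) :=
    Submodule.finrank_mono (le_inf inf_le_right (inf_le_left.trans inf_le_right))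
  omega

theorem rkm_bot (M : A →ₗ[K] B) : rkm M ⊥ = rk M := dd_bot _

theorem rkm_le_rk (M : A →ₗ[K] B) (X : Submodule K B) : rkm M X ≤ rk M := dd_le _ _

theorem rkm_anti (M : A →ₗ[K] B) {X Y : Submodule K B} (h : X ≤ Y) : rkm M Y ≤ rkm M X :=
  dd_mono le_rfl h

theorem rkm_triangle (M : A →ₗ[K] B) (X Y : Submodule K B) : rkm M X ≤ rkm M Y + dd Y X :=
  dd_triangle _ _ _

theorem rkm_inf (M : A →ₗ[K] B) (X Y : Submodule K B) : rkm M (X ⊓ Y) ≤ rkm M X + rkm M Y :=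
  dd_inf_right _ _ _

theorem rkm_add (M N : A →ₗ[K] B) (X : Submodule K B) : rkm (M + N) X ≤ rkm M X + rkm N X := by
  refine le_trans (dd_mono ?_ le_rfl) (dd_sup_left (LinearMap.range M) (LinearMap.range N) X)
  rintro _ ⟨a, rfl⟩
  exact Submodule.add_mem_sup ⟨a, rfl⟩ ⟨a, rfl⟩

omit [FiniteDimensional K B] in
theorem rkm_neg (M : A →ₗ[K] B) (X : Submodule K B) : rkm (-M) X = rkm M X := by
  unfold rkm
  rw [LinearMap.range_neg]

theorem rkm_sub (M N : A →ₗ[K] B) (X : Submodule K B) : rkm (M - N) X ≤ rkm M X + rkm N X := by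
  rw [sub_eq_add_neg]
  exact (rkm_add _ _ _).trans (by rw [rkm_neg])

theorem rkm_eq_zero {M : A →ₗ[K] B} {X : Submodule K B} (h : LinearMap.range M ≤ X) :
    rkm M X = 0 := dd_of_le h

theorem rkm_add_of_le (M : A →ₗ[K] B) {N : A →ₗ[K] B} {X : Submodule K B}
    (h : LinearMap.range N ≤ X) : rkm (M + N) X = rkm M X := by
  apply le_antisymm
  · have := rkm_add M N X
    rw [rkm_eq_zero h] at this
    exact this
  · have := rkm_sub (M + N) N X
    rw [rkm_eq_zero h, add_sub_cancel_right] at this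
    exact this

theorem rkm_sub_of_le (M : A →ₗ[K] B) {N : A →ₗ[K] B} {X : Submodule K B}
    (h : LinearMap.range N ≤ X) : rkm (M - N) X = rkm M X := by
  rw [sub_eq_add_neg]
  exact rkm_add_of_le M (by rw [LinearMap.range_neg]; exact h)

/-- if `T` maps `X` into `Y` then `rk(T M | Y) ≤ rk(M | X)`. -/
theorem rkm_comp_le [FiniteDimensional K C] (M : A →ₗ[K] B) (T : B →ₗ[K] C) (X : Submodule K B) (Y : Submodule K C)
    (h : X.map T ≤ Y) : rkm (T ∘ₗ M) Y ≤ rkm M X := by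
  unfold rkm
  rw [LinearMap.range_comp]
  exact (dd_mono le_rfl h).trans (dd_map_le T _ _)

theorem rk_add (M N : A →ₗ[K] B) : rk (M + N) ≤ rk M + rk N := by
  have := rkm_add M N ⊥
  simpa only [rkm_bot] using this

theorem rk_sub (M N : A →ₗ[K] B) : rk (M - N) ≤ rk M + rk N := by
  have := rkm_sub M N ⊥
  simpa only [rkm_bot] using this

theorem rk_neg (M : A →ₗ[K] B) : rk (-M) = rk M := by
  have := rkm_neg M ⊥
  simpa only [rkm_bot] using this

omit [FiniteDimensional K B] in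
theorem rk_zero : rk (0 : A →ₗ[K] B) = 0 := by
  unfold rk
  rw [LinearMap.range_zero, finrank_bot]

theorem rk_comp_le_right (M : A →ₗ[K] B) (T : B →ₗ[K] C) : rk (T ∘ₗ M) ≤ rk M := by
  unfold rk
  rw [LinearMap.range_comp]
  exact Submodule.finrank_map_le _ _

theorem rk_comp_le_left [FiniteDimensional K C] (M : A →ₗ[K] B) (T : B →ₗ[K] C) : rk (T ∘ₗ M) ≤ rk T := by
  unfold rk
  exact Submodule.finrank_mono (LinearMap.range_comp_le_range M T)

/-- the rank modulo `X` is the codimension of the preimage of `X`. -/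
theorem rkm_add_finrank_comap [FiniteDimensional K A] (M : A →ₗ[K] B) (X : Submodule K B) :
    rkm M X + finrank K ↥(X.comap M) = finrank K A := by
  have h1 := dd_inf (LinearMap.range M) X
  have h2 := finrank_map_add M (X.comap M)
  rw [Submodule.map_comap_eq] at h2
  have h3 : X.comap M ⊓ LinearMap.ker M = LinearMap.ker M := by
    apply inf_eq_right.mpr
    intro x hx
    have : M x = 0 := hx
    simp [this]
  rw [h3] at h2
  have h4 := LinearMap.finrank_range_add_finrank_ker M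
  unfold rkm
  omega

end Lin

end AHC
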