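import Pool.Agent.Helper35.AHC.SelfCor

/-!
# Project AHC, module AHC-05 (Iterate): from the MAIN step to the theorem.

PROOF.  Claim: for every r, every f with all rk (Df f x y) <= r there is an additive L with
av_x rk (f x - L x) <= 2 (C+1) r.  Strong induction on r (Nat.strong_induction_on, generalizing f).
r = 0: rk (Df f x y) = 0 so Df f x y = 0 (rk M = 0 -> M = 0: LinearMap.range_eq_bot and
Submodule.finrank_eq_zero), L = f.  r > 0: h from hmain; self_correct with delta = r/12 gives f' with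
rk (Df f' x y) <= 6 * (r/12) = r/2, so (natural numbers) rk (Df f' x y) <= r/2 (Nat.le_div_iff_mul_le,
exact_mod_cast), av rk (h - f') <= 3 * (r/12) = r/4.  Induction for r/2 < r: L with
av rk (f' - L) <= 2 (C+1) (r/2) <= (C+1) r.  f - L = (f - h) + (h - f') + (f' - L), so
av rk (f - L) <= C r + r/4 + (C+1) r <= 2 (C+1) r.
Then for all x: g = f - L satisfies g x = g (x+y) - g y - Df f x y (L additive), so averaging over y
(av_const, av_shift') rk (g x) <= 2(C+1)r + 2(C+1)r + r = (4C+5) r, and cast back to Nat.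
-/

namespace AHC

open Module Submodule

variable {K : Type*} [Field K] {A B : Type*} [AddCommGroup A] [Module K A]
  [AddCommGroup B] [Module K B] [FiniteDimensional K B] {V : Type*} [AddCommGroup V] [Fintype V]

omit [Fintype V] [AddCommGroup V] in
private theorem iter_eq_zero {M : A →ₗ[K] B} (h : rk M = 0) : M = 0 := by
  unfold rk at h
  rw [Submodule.finrank_eq_zero, LinearMap.range_eq_bot] at h
  exact h

private theorem iter_av (C : ℕ)
    (hmain : ∀ (r : ℕ) (f : V → A →ₗ[K] B), (∀ x y, rk (Df f x y) ≤ r) →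
      ∃ h : V → A →ₗ[K] B, (∀ x, rk (f x - h x) ≤ C * r) ∧
        av (fun x => av fun y => (rk (Df h x y) : ℝ)) ≤ (r : ℝ) / 12) (r : ℕ) :
    ∀ f : V → A →ₗ[K] B, (∀ x y, rk (Df f x y) ≤ r) →
      ∃ L : V → A →ₗ[K] B, (∀ x y, L (x + y) = L x + L y) ∧
        av (fun x => (rk (f x - L x) : ℝ)) ≤ 2 * ((C : ℝ) + 1) * r := by
  induction r using Nat.strong_induction_on with
  | _ r ih =>
    intro f hf
    rcases Nat.eq_zero_or_pos r with h0 | h0
    · subst h0
      refine ⟨f, ?_, ?_⟩
      · intro x y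
        have h2 : Df f x y = 0 := iter_eq_zero (Nat.le_zero.mp (hf x y))
        unfold Df at h2
        rw [sub_sub, sub_eq_zero] at h2
        exact h2
      · have e : (fun x => (rk (f x - f x) : ℝ)) = fun _ => (0 : ℝ) := by
          funext x
          rw [sub_self, rk_zero, Nat.cast_zero]
        rw [e, av_const]
        simp
    · obtain ⟨h, h1, h2⟩ := hmain r f hf
      obtain ⟨f', h3, h4⟩ := self_correct h ((r : ℝ) / 12) h2
      have h5 : ∀ x y, rk (Df f' x y) ≤ r / 2 := by
        intro x y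
        have h6 : (rk (Df f' x y) : ℝ) * 2 ≤ r := by
          have := h3 x y
          linarith
        have h7 : rk (Df f' x y) * 2 ≤ r := by exact_mod_cast h6
        omega
      obtain ⟨L, h6, h7⟩ := ih (r / 2) (by omega) f' h5
      refine ⟨L, h6, ?_⟩
      have h8 : ((r / 2 : ℕ) : ℝ) ≤ (r : ℝ) / 2 := Nat.cast_div_le
      have h9 : ∀ x, (rk (f x - L x) : ℝ) ≤
          (C : ℝ) * r + (rk (h x - f' x) : ℝ) + (rk (f' x - L x) : ℝ) := by
        intro x
        have e : f x - L x = (f x - h x) + (h x - f' x) + (f' x - L x) := by abel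
        have a1 := rk_add (f x - h x + (h x - f' x)) (f' x - L x)
        have a2 := rk_add (f x - h x) (h x - f' x)
        have a3 := h1 x
        rw [← e] at a1
        have a4 : rk (f x - L x) ≤ C * r + rk (h x - f' x) + rk (f' x - L x) := by omega
        exact_mod_cast a4
      have h10 := av_mono h9
      rw [av_add, av_add, av_const] at h10
      have hC : (0 : ℝ) ≤ (C : ℝ) := Nat.cast_nonneg C
      have hr : (0 : ℝ) ≤ (r : ℝ) := Nat.cast_nonneg r
      have h11 : 2 * ((C : ℝ) + 1) * ((r / 2 : ℕ) : ℝ) ≤ ((C : ℝ) + 1) * r := by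
        have := mul_le_mul_of_nonneg_left h8 (by positivity : (0 : ℝ) ≤ 2 * ((C : ℝ) + 1))
        linarith
      linarith

theorem iterate_main (C : ℕ)
    (hmain : ∀ (r : ℕ) (f : V → A →ₗ[K] B), (∀ x y, rk (Df f x y) ≤ r) →
      ∃ h : V → A →ₗ[K] B, (∀ x, rk (f x - h x) ≤ C * r) ∧
        av (fun x => av fun y => (rk (Df h x y) : ℝ)) ≤ (r : ℝ) / 12)
    (r : ℕ) (f : V → A →ₗ[K] B) (hf : ∀ x y, rk (Df f x y) ≤ r) :
    ∃ L : V → A →ₗ[K] B, (∀ x y, L (x + y) = L x + L y) ∧
      ∀ x, rk (f x - L x) ≤ (4 * C + 5) * r := by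
  obtain ⟨L, hL, hav⟩ := iter_av C hmain r f hf
  refine ⟨L, hL, fun x => ?_⟩
  have h1 : ∀ y, (rk (f x - L x) : ℝ) ≤
      (rk (f (x + y) - L (x + y)) : ℝ) + (rk (f y - L y) : ℝ) + (r : ℝ) := by
    intro y
    have e : f x - L x = (f (x + y) - L (x + y)) - (f y - L y) - Df f x y := by
      unfold Df
      rw [hL]
      abel
    have a1 := rk_sub (f (x + y) - L (x + y) - (f y - L y)) (Df f x y)
    have a2 := rk_sub (f (x + y) - L (x + y)) (f y - L y)
    have a3 := hf x y
    rw [← e] at a1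
    have a4 : rk (f x - L x) ≤ rk (f (x + y) - L (x + y)) + rk (f y - L y) + r := by omega
    exact_mod_cast a4
  have h2 := av_mono h1
  rw [av_const, av_add, av_add, av_const,
    av_shift' (fun y => (rk (f y - L y) : ℝ)) x] at h2
  have h3 : (rk (f x - L x) : ℝ) ≤ ((4 * C + 5) * r : ℕ) := by
    push_cast
    linarith
  exact_mod_cast h3

end AHC
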