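import Pool.Agent.Helper35.AHC.MainStep
import Pool.Agent.Helper35.AHC.Iterate

/-!
# Project AHC, module AHC-31 (Final): the theorem, general form and matrix form.

PROOF of ahc_general: iterate_main with C = cst 11400 and hmain = main_step 11400 (950 * (r / 11400) = r / 12).
PROOF of ahc_matrix: f' x = Matrix.toLin' (f x) (or mulVecLin); rk (Df f' x y) = (f (x+y) - f x - f y).rank
(Matrix.rank is finrank of the range of mulVecLin; Matrix.toLin'_apply'; map_sub).  ahc_general gives L additive with values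
in (Fin n → ZMod p) →ₗ (Fin n → ZMod p); L' x = LinearMap.toMatrix' (L x) is additive, hence ZMod p-linear
(AddMonoidHom.toZModLinearMap); rank (f x - L' x) = rk (f' x - L x).
-/

namespace AHC

open Module Submodule

theorem ahc_general {K : Type*} [Field K] {A B : Type*} [AddCommGroup A] [Module K A]
    [FiniteDimensional K A] [AddCommGroup B] [Module K B] [FiniteDimensional K B]
    {V : Type*} [AddCommGroup V] [Fintype V] (r : ℕ) (f : V → A →ₗ[K] B)
    (hf : ∀ x y, rk (Df f x y) ≤ r) :
    ∃ L : V → A →ₗ[K] B, (∀ x y, L (x + y) = L x + L y) ∧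
      ∀ x, rk (f x - L x) ≤ (4 * cst 11400 + 5) * r := by
  generalize hC : cst 11400 = C
  refine iterate_main C ?_ r f hf
  intro r f hf
  obtain ⟨h, h1, h2⟩ := main_step 11400 (by norm_num) r f hf
  rw [hC] at h1
  refine ⟨h, h1, h2.trans (le_of_eq ?_)⟩
  push_cast
  ring

private theorem rk_toLin' {p : ℕ} [Fact p.Prime] {n : ℕ} (M : Matrix (Fin n) (Fin n) (ZMod p)) :
    rk (Matrix.toLin' M) = M.rank := by
  unfold rk Matrix.rank
  rw [Matrix.toLin'_apply']

theorem ahc_matrix (p : ℕ) [Fact p.Prime] (n r : ℕ)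
    (f : (Fin n → ZMod p) → Matrix (Fin n) (Fin n) (ZMod p))
    (hf : ∀ x y, (f (x + y) - f x - f y).rank ≤ r) :
    ∃ L : (Fin n → ZMod p) →ₗ[ZMod p] Matrix (Fin n) (Fin n) (ZMod p),
      ∀ x, (f x - L x).rank ≤ (4 * cst 11400 + 5) * r := by
  generalize hC : cst 11400 = C
  obtain ⟨L, hL, hb⟩ := ahc_general (K := ZMod p) r (fun x => Matrix.toLin' (f x)) (by
    intro x y
    have e : Df (fun x => Matrix.toLin' (f x)) x y = Matrix.toLin' (f (x + y) - f x - f y) := by
      unfold Df
      rw [map_sub, map_sub]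
    rw [e, rk_toLin']
    exact hf x y)
  rw [hC] at hb
  let L0 : (Fin n → ZMod p) →+ Matrix (Fin n) (Fin n) (ZMod p) :=
    AddMonoidHom.mk' (fun x => LinearMap.toMatrix' (L x)) (by
      intro x y
      rw [hL, map_add])
  refine ⟨AddMonoidHom.toZModLinearMap p L0, fun x => ?_⟩
  have e : f x - AddMonoidHom.toZModLinearMap p L0 x
      = f x - LinearMap.toMatrix' (L x) := rfl
  rw [e, ← rk_toLin']
  have e2 : Matrix.toLin' (f x - LinearMap.toMatrix' (L x)) = Matrix.toLin' (f x) - L x := by
    rw [map_sub, Matrix.toLin'_toMatrix']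
  rw [e2]
  exact hb x

end AHC
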