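import Pool.Agent.Helper35.AHC.GaugePt
import Pool.Agent.Helper35.AHC.Av

/-!
# Project AHC, module AHC-20 (GaugeAv): choice of the first gauge `φ`.

PROOF.  For b0 let φ_{b0}(a) = pr (P0 a) (P0 b0 ⊔ P0 (a+b0)) ∘ₗ Df f a b0 and
T(b0) = av_a av_b rkm (Df f a b - φ_{b0} a) (P1 b ⊔ P1 (a+b)).  By gauge_pt (cast to ℝ) T(b0) <= av_a av_b of
  eT a b + eT a b0 + eT (a+b0) (b-b0) + eT b0 (b-b0) + [dd (P0 a) (P1 b ⊔ P1 (a+b)) - dd (P0 a) (R (b-b0) b ⊔ R (b-b0) (a+b))].
Average over b0 (av_comm, av_shift, av_shift_sub, av_sub_left):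
 av_{b0} av_a av_b eT a b <= e1 (av_const);  av_{b0} av_a av_b eT a b0 : = av_a av_{b0} eT a b0 <= e1;
 av_{b0} av_a av_b eT (a+b0) (b-b0): for fixed b0 shift a by b0 and b by -b0: <= e1;
 av_{b0} av_a av_b eT b0 (b-b0): shift b: = av_{b0} av_b eT b0 b <= e1;
 bracket: av_a av_b av_{b0}, substitution s = b - b0 (av_sub_left): <= η (hc0).
So av_{b0} T(b0) <= 4 e1 + η; exists_le_av gives b0.  range (φ a) ≤ P0 a by pr_mem.
-/

namespace AHC

open Module Submodule

variable {K : Type*} [Field K] {A B : Type*} [AddCommGroup A] [Module K A]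
  [AddCommGroup B] [Module K B] [FiniteDimensional K B] {V : Type*} [AddCommGroup V] [Fintype V]

theorem gauge_av (P0 P1 : V → Submodule K B) (R : V → V → Submodule K B)
    (le01 : ∀ x, P0 x ≤ P1 x) (rs : ∀ s b, P1 s ≤ R s b) (rb : ∀ s b, P1 b ≤ R s b)
    (rsub : ∀ s b, P1 (b - s) ≤ R s b) (η : ℝ)
    (hc0 : av (fun a => av fun b => av fun s =>
      ((dd (P0 a) (P1 b ⊔ P1 (a + b)) : ℝ) - dd (P0 a) (R s b ⊔ R s (a + b)))) ≤ η)
    (f : V → A →ₗ[K] B) (e1 : ℝ)
    (he : av (fun a => av fun b => (eT P0 f a b : ℝ)) ≤ e1) :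
    ∃ φ : V → A →ₗ[K] B, (∀ a, LinearMap.range (φ a) ≤ P0 a) ∧
      av (fun a => av fun b => (rkm (Df f a b - φ a) (P1 b ⊔ P1 (a + b)) : ℝ)) ≤ 4 * e1 + η := by
  -- the five averages, for abstract functions
  have key : ∀ (E : V → V → ℝ) (g : V → V → V → ℝ),
      av (fun a => av fun b => E a b) ≤ e1 →
      av (fun a => av fun b => av fun s => g a b s) ≤ η →
      av (fun b0 => av fun a => av fun b =>
        (E a b + E a b0 + E (a + b0) (b - b0) + E b0 (b - b0) + g a b (b - b0))) ≤
        4 * e1 + η := by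
    intro E g hE hg
    have h1 : av (fun _b0 : V => av fun a => av fun b => E a b) ≤ e1 := by
      rw [av_const]; exact hE
    have h2 : av (fun b0 => av fun a => av fun _b : V => E a b0) ≤ e1 := by
      have e : (fun b0 => av fun a => av fun _b : V => E a b0) =
          fun b0 => av fun a => E a b0 := by
        funext b0
        congr 1
        funext a
        rw [av_const]
      rw [e, av_comm]
      exact hE
    have h3 : av (fun b0 => av fun a => av fun b => E (a + b0) (b - b0)) ≤ e1 := by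
      have e : (fun b0 => av fun a => av fun b => E (a + b0) (b - b0)) =
          fun _ => av fun a => av fun b => E a b := by
        funext b0
        have e1 : (fun a => av fun b => E (a + b0) (b - b0)) =
            fun a => av fun b => E (a + b0) b := by
          funext a
          exact av_shift_sub (fun b => E (a + b0) b) b0
        rw [e1]
        exact av_shift (fun a => av fun b => E a b) b0
      rw [e, av_const]
      exact hE
    have h4 : av (fun b0 => av fun _a : V => av fun b => E b0 (b - b0)) ≤ e1 := by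
      have e : (fun b0 => av fun _a : V => av fun b => E b0 (b - b0)) =
          fun b0 => av fun b => E b0 b := by
        funext b0
        rw [av_const]
        exact av_shift_sub (fun b => E b0 b) b0
      rw [e]
      exact hE
    have h5 : av (fun b0 => av fun a => av fun b => g a b (b - b0)) ≤ η := by
      rw [av_comm]
      have e : (fun a => av fun b0 => av fun b => g a b (b - b0)) =
          fun a => av fun b => av fun s => g a b s := by
        funext a
        rw [av_comm]
        congr 1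
        funext b
        exact av_sub_left (fun s => g a b s) b
      rw [e]
      exact hg
    have h6 : av (fun b0 => av fun a => av fun b =>
        (E a b + E a b0 + E (a + b0) (b - b0) + E b0 (b - b0) + g a b (b - b0))) =
        av (fun _b0 : V => av fun a => av fun b => E a b) +
        av (fun b0 => av fun a => av fun _b : V => E a b0) +
        av (fun b0 => av fun a => av fun b => E (a + b0) (b - b0)) +
        av (fun b0 => av fun _a : V => av fun b => E b0 (b - b0)) +
        av (fun b0 => av fun a => av fun b => g a b (b - b0)) := by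
      simp only [av_add]
    rw [h6]
    linarith
  have hpt : ∀ b0 a b : V,
      (rkm (Df f a b - pr (P0 a) (P0 b0 ⊔ P0 (a + b0)) ∘ₗ Df f a b0)
        (P1 b ⊔ P1 (a + b)) : ℝ) ≤
      (eT P0 f a b : ℝ) + (eT P0 f a b0 : ℝ) + (eT P0 f (a + b0) (b - b0) : ℝ)
        + (eT P0 f b0 (b - b0) : ℝ) + ((dd (P0 a) (P1 b ⊔ P1 (a + b)) : ℝ)
          - dd (P0 a) (R (b - b0) b ⊔ R (b - b0) (a + b))) := by
    intro b0 a b
    have h := gauge_pt P0 P1 R le01 rs rb rsub f a b b0
    have h' : (rkm (Df f a b - pr (P0 a) (P0 b0 ⊔ P0 (a + b0)) ∘ₗ Df f a b0)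
        (P1 b ⊔ P1 (a + b)) : ℝ) + (dd (P0 a) (R (b - b0) b ⊔ R (b - b0) (a + b)) : ℝ) ≤
        (eT P0 f a b : ℝ) + (eT P0 f a b0 : ℝ) + (eT P0 f (a + b0) (b - b0) : ℝ)
        + (eT P0 f b0 (b - b0) : ℝ) + (dd (P0 a) (P1 b ⊔ P1 (a + b)) : ℝ) := by
      exact_mod_cast h
    linarith
  have hT := key (fun a b => (eT P0 f a b : ℝ))
    (fun a b s => (dd (P0 a) (P1 b ⊔ P1 (a + b)) : ℝ) - dd (P0 a) (R s b ⊔ R s (a + b)))
    he hc0
  have hT2 := (av_mono fun b0 => av_mono fun a => av_mono fun b => hpt b0 a b).trans hT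
  obtain ⟨b0, hb0⟩ := exists_le_av (fun b0 : V => av fun a => av fun b =>
    (rkm (Df f a b - pr (P0 a) (P0 b0 ⊔ P0 (a + b0)) ∘ₗ Df f a b0)
        (P1 b ⊔ P1 (a + b)) : ℝ))
  refine ⟨fun a => pr (P0 a) (P0 b0 ⊔ P0 (a + b0)) ∘ₗ Df f a b0, ?_, hb0.trans hT2⟩
  rintro a _ ⟨x, rfl⟩
  exact pr_mem _ _ _

end AHC
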