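import Pool.Agent.Helper35.AHC.GoodSets
import Pool.Agent.Helper35.AHC.Av

/-!
# Project AHC, module AHC-21 (GaugeFin): the three moduli.

PROOF.  g(a,b) := rkm (Df f a b - φ a) (P1 b ⊔ P1 (a+b)); h t = f t + φ t; all φ t have range in P0 t ≤ P1 t.
Pointwise: rkm (Df h a b) (Kc P1 P2 a b ⊔ Kc P1 P2 b a) <= g a b + g b a + g (a+b) (-b):
 (i) Df h a b = (Df f a b - φ a) + (φ (a+b) - φ b): rkm (Df h a b) (P1 b ⊔ P1 (a+b)) = g a b (rkm_add_of_le);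
 (ii) Df h a b = Df h b a (Df_comm): rkm (Df h a b) (P1 a ⊔ P1 (b+a)) = g b a;
 (iii) Df f a b = - Df f (a+b) (-b) - (f b + f (-b)) (unfold Df; a+b+-b = a; abel), so
    Df h a b = -(Df f (a+b) (-b) - φ (a+b)) - (f b + f (-b)) - φ a - φ b and
    rkm (Df h a b) (P1 a ⊔ P1 b) = g (a+b) (-b) (rkm_neg, rkm_sub_of_le; P1 (-b) = P1 b by neg1,
    a + b + -b = a; hneg);
 (iv) (P1 b ⊔ P1 (a+b)) ⊓ (P1 a ⊔ P1 (b+a)) ⊓ (P1 a ⊔ P1 b) ≤ Kc P1 P2 a b ⊔ Kc P1 P2 b a: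
    k = α + β (α ∈ P1 a, β ∈ P1 b; Submodule.mem_sup); α = k - β ∈ P1 b ⊔ P1 (a+b) ≤ P2 b ⊔ P2 (a+b),
    β = k - α ∈ P1 a ⊔ P1 (b+a) ≤ P2 a ⊔ P2 (b+a) (le12).
    rkm_anti and rkm_inf twice.
Average: av_a av_b g b a = av av g (av_comm), av_a av_b g (a+b) (-b) = av av g (for fixed b shift a; then
av_neg in b).  Each <= e2.
-/

namespace AHC

open Module Submodule

variable {K : Type*} [Field K] {A B : Type*} [AddCommGroup A] [Module K A]
  [AddCommGroup B] [Module K B] [FiniteDimensional K B] {V : Type*} [AddCommGroup V] [Fintype V]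

omit [FiniteDimensional K B] in
private theorem gf_range_le {M N : A →ₗ[K] B} {X : Submodule K B} (hM : LinearMap.range M ≤ X)
    (hN : LinearMap.range N ≤ X) : LinearMap.range (M + N) ≤ X := by
  rintro _ ⟨x, rfl⟩
  rw [LinearMap.add_apply]
  exact X.add_mem (hM ⟨x, rfl⟩) (hN ⟨x, rfl⟩)

omit [FiniteDimensional K B] in
private theorem gf_range_sub_le {M N : A →ₗ[K] B} {X : Submodule K B}
    (hM : LinearMap.range M ≤ X) (hN : LinearMap.range N ≤ X) : LinearMap.range (M - N) ≤ X := by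
  rintro _ ⟨x, rfl⟩
  rw [LinearMap.sub_apply]
  exact X.sub_mem (hM ⟨x, rfl⟩) (hN ⟨x, rfl⟩)

omit [FiniteDimensional K B] [Fintype V] in
private theorem gf_inf_le (P1 P2 : V → Submodule K B) (le12 : ∀ x, P1 x ≤ P2 x) (a b : V) :
    (P1 b ⊔ P1 (a + b)) ⊓ (P1 a ⊔ P1 (b + a)) ⊓ (P1 a ⊔ P1 b) ≤
      Kc P1 P2 a b ⊔ Kc P1 P2 b a := by
  rintro k ⟨⟨h1, h2⟩, h3⟩
  obtain ⟨α, hα, β, hβ, rfl⟩ := Submodule.mem_sup.1 h3
  have hα' : α ∈ P2 b ⊔ P2 (a + b) := by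
    have e : α = (α + β) - β := by abel
    rw [e]
    exact Submodule.sub_mem _ (sup_le_sup (le12 _) (le12 _) h1)
      (Submodule.mem_sup_left (le12 _ hβ))
  have hβ' : β ∈ P2 a ⊔ P2 (b + a) := by
    have e : β = (α + β) - α := by abel
    rw [e]
    exact Submodule.sub_mem _ (sup_le_sup (le12 _) (le12 _) h2)
      (Submodule.mem_sup_left (le12 _ hα))
  exact Submodule.add_mem_sup ⟨hα, hα'⟩ ⟨hβ, hβ'⟩

omit [Fintype V] in
private theorem gf_point (P0 P1 P2 : V → Submodule K B) (neg1 : ∀ x, P1 (-x) = P1 x)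
    (le01 : ∀ x, P0 x ≤ P1 x) (le12 : ∀ x, P1 x ≤ P2 x) (f φ : V → A →ₗ[K] B)
    (hφ : ∀ a, LinearMap.range (φ a) ≤ P0 a)
    (hneg : ∀ b, LinearMap.range (f b + f (-b)) ≤ P0 b) (a b : V) :
    rkm (Df (fun t => f t + φ t) a b) (Kc P1 P2 a b ⊔ Kc P1 P2 b a) ≤
      rkm (Df f a b - φ a) (P1 b ⊔ P1 (a + b)) + rkm (Df f b a - φ b) (P1 a ⊔ P1 (b + a)) +
        rkm (Df f (a + b) (-b) - φ (a + b)) (P1 (-b) ⊔ P1 (a + b + -b)) := by
  have hφ1 : ∀ a, LinearMap.range (φ a) ≤ P1 a := fun a => (hφ a).trans (le01 a)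
  have key : ∀ a b, rkm (Df (fun t => f t + φ t) a b) (P1 b ⊔ P1 (a + b)) =
      rkm (Df f a b - φ a) (P1 b ⊔ P1 (a + b)) := by
    intro a b
    have e : Df (fun t => f t + φ t) a b = (Df f a b - φ a) + (φ (a + b) - φ b) := by
      simp only [Df]
      abel
    rw [e]
    exact rkm_add_of_le _ (gf_range_sub_le ((hφ1 _).trans le_sup_right)
      ((hφ1 _).trans le_sup_left))
  have h2 : rkm (Df (fun t => f t + φ t) a b) (P1 a ⊔ P1 (b + a)) =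
      rkm (Df f b a - φ b) (P1 a ⊔ P1 (b + a)) := by
    rw [Df_comm]
    exact key b a
  have h3 : rkm (Df (fun t => f t + φ t) a b) (P1 a ⊔ P1 b) =
      rkm (Df f (a + b) (-b) - φ (a + b)) (P1 (-b) ⊔ P1 (a + b + -b)) := by
    have e0 : a + b + -b = a := by abel
    have e : Df (fun t => f t + φ t) a b =
        -(Df f (a + b) (-b) - φ (a + b)) - ((f b + f (-b)) + (φ a + φ b)) := by
      simp only [Df]
      rw [e0]
      abel
    rw [e, e0, neg1, sup_comm (P1 b) (P1 a), ← rkm_neg (Df f (a + b) (-b) - φ (a + b))]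
    exact rkm_sub_of_le _ (gf_range_le (((hneg b).trans (le01 b)).trans le_sup_right)
      (gf_range_le ((hφ1 _).trans le_sup_left) ((hφ1 _).trans le_sup_right)))
  refine (rkm_anti _ (gf_inf_le P1 P2 le12 a b)).trans ?_
  refine (rkm_inf _ _ _).trans ?_
  rw [h3]
  refine add_le_add ?_ le_rfl
  refine (rkm_inf _ _ _).trans ?_
  rw [key a b, h2]

theorem gauge_fin (P0 P1 P2 : V → Submodule K B) (neg1 : ∀ x, P1 (-x) = P1 x)
    (le01 : ∀ x, P0 x ≤ P1 x) (le12 : ∀ x, P1 x ≤ P2 x) (f φ : V → A →ₗ[K] B)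
    (hφ : ∀ a, LinearMap.range (φ a) ≤ P0 a)
    (hneg : ∀ b, LinearMap.range (f b + f (-b)) ≤ P0 b) (e2 : ℝ)
    (h : av (fun a => av fun b => (rkm (Df f a b - φ a) (P1 b ⊔ P1 (a + b)) : ℝ)) ≤ e2) :
    av (fun a => av fun b =>
      (rkm (Df (fun t => f t + φ t) a b) (Kc P1 P2 a b ⊔ Kc P1 P2 b a) : ℝ)) ≤ 3 * e2 := by
  have hpt : ∀ a b, (rkm (Df (fun t => f t + φ t) a b) (Kc P1 P2 a b ⊔ Kc P1 P2 b a) : ℝ) ≤
      (rkm (Df f a b - φ a) (P1 b ⊔ P1 (a + b)) : ℝ) +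
        (rkm (Df f b a - φ b) (P1 a ⊔ P1 (b + a)) : ℝ) +
        (rkm (Df f (a + b) (-b) - φ (a + b)) (P1 (-b) ⊔ P1 (a + b + -b)) : ℝ) := by
    intro a b
    exact_mod_cast gf_point P0 P1 P2 neg1 le01 le12 f φ hφ hneg a b
  have h1 := av_mono fun a => av_mono fun b => hpt a b
  have h2 : av (fun a => av fun b => (rkm (Df f b a - φ b) (P1 a ⊔ P1 (b + a)) : ℝ)) ≤ e2 := by
    rw [av_comm]
    exact h
  have h3 : av (fun a => av fun b =>
      (rkm (Df f (a + b) (-b) - φ (a + b)) (P1 (-b) ⊔ P1 (a + b + -b)) : ℝ)) ≤ e2 := by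
    have e : av (fun a => av fun b =>
        (rkm (Df f (a + b) (-b) - φ (a + b)) (P1 (-b) ⊔ P1 (a + b + -b)) : ℝ)) =
        av (fun a => av fun b => (rkm (Df f a b - φ a) (P1 b ⊔ P1 (a + b)) : ℝ)) := by
      have e2 : av (fun a => av fun b =>
          (rkm (Df f (a + b) (-b) - φ (a + b)) (P1 (-b) ⊔ P1 (a + b + -b)) : ℝ)) =
          av (fun b => av fun a =>
          (rkm (Df f (a + b) (-b) - φ (a + b)) (P1 (-b) ⊔ P1 (a + b + -b)) : ℝ)) :=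
        av_comm _
      have e3 : ∀ b : V, av (fun a =>
          (rkm (Df f (a + b) (-b) - φ (a + b)) (P1 (-b) ⊔ P1 (a + b + -b)) : ℝ)) =
          av (fun a => (rkm (Df f a (-b) - φ a) (P1 (-b) ⊔ P1 (a + -b)) : ℝ)) := fun b =>
        av_shift (fun a => (rkm (Df f a (-b) - φ a) (P1 (-b) ⊔ P1 (a + -b)) : ℝ)) b
      have e4 : av (fun b : V => av (fun a =>
          (rkm (Df f a (-b) - φ a) (P1 (-b) ⊔ P1 (a + -b)) : ℝ))) =
          av (fun b : V => av (fun a =>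
          (rkm (Df f a b - φ a) (P1 b ⊔ P1 (a + b)) : ℝ))) :=
        av_neg (fun b : V => av (fun a => (rkm (Df f a b - φ a) (P1 b ⊔ P1 (a + b)) : ℝ)))
      rw [e2]
      simp_rw [e3]
      rw [e4]
      exact av_comm _
    rw [e]
    exact h
  have h4 : av (fun a => av fun b => ((rkm (Df f a b - φ a) (P1 b ⊔ P1 (a + b)) : ℝ) +
        (rkm (Df f b a - φ b) (P1 a ⊔ P1 (b + a)) : ℝ) +
        (rkm (Df f (a + b) (-b) - φ (a + b)) (P1 (-b) ⊔ P1 (a + b + -b)) : ℝ))) =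
      av (fun a => av fun b => (rkm (Df f a b - φ a) (P1 b ⊔ P1 (a + b)) : ℝ)) +
        av (fun a => av fun b => (rkm (Df f b a - φ b) (P1 a ⊔ P1 (b + a)) : ℝ)) +
        av (fun a => av fun b =>
          (rkm (Df f (a + b) (-b) - φ (a + b)) (P1 (-b) ⊔ P1 (a + b + -b)) : ℝ)) := by
    simp_rw [av_add]
  rw [h4] at h1
  linarith

end AHC
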