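import Pool.Agent.Helper35.AHC.Dim

/-!
# Project AHC, module 03 (GoodSets): good sets and the subspaces `PP f S`.
-/

namespace AHC

open Module Submodule

section Sets

variable {V : Type*} [AddCommGroup V]

theorem mem_ex {S : Finset V} {x y : V} : y ∈ ex S x ↔ y ∈ S ∨ y - x ∈ S ∨ y + x ∈ S := by
  classical
  unfold ex
  simp only [Finset.mem_union, Finset.mem_image]
  constructor
  · rintro (h | ⟨s, hs, rfl⟩ | ⟨s, hs, rfl⟩)
    · exact Or.inl h
    · exact Or.inr (Or.inl (by simpa using hs))
    · exact Or.inr (Or.inr (by simpa using hs))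
  · rintro (h | h | h)
    · exact Or.inl h
    · exact Or.inr (Or.inl ⟨_, h, by simp⟩)
    · exact Or.inr (Or.inr ⟨_, h, by simp⟩)

theorem subset_ex (S : Finset V) (x : V) : S ⊆ ex S x := fun _ h => mem_ex.mpr (Or.inl h)

theorem good_ex {S : Finset V} (h : Good S) (x : V) : Good (ex S x) := by
  refine ⟨mem_ex.mpr (Or.inl h.1), ?_⟩
  intro y hy
  rw [mem_ex] at hy ⊢
  rcases hy with h1 | h1 | h1
  · exact Or.inl (h.2 _ h1)
  · refine Or.inr (Or.inr ?_)
    have := h.2 _ h1
    rwa [neg_sub', sub_neg_eq_add] at this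
  · refine Or.inr (Or.inl ?_)
    have := h.2 _ h1
    rwa [neg_add, ← sub_eq_add_neg] at this

theorem self_mem_ex {S : Finset V} (h : Good S) (x : V) : x ∈ ex S x :=
  mem_ex.mpr (Or.inr (Or.inl (by simpa using h.1)))

theorem neg_mem_ex {S : Finset V} (h : Good S) (x : V) : -x ∈ ex S x :=
  mem_ex.mpr (Or.inr (Or.inr (by simpa using h.1)))

theorem ex_neg (S : Finset V) (x : V) : ex S (-x) = ex S x := by
  ext y
  rw [mem_ex, mem_ex, sub_neg_eq_add, ← sub_eq_add_neg]
  tauto

theorem ex_mono {S T : Finset V} (h : S ⊆ T) (x : V) : ex S x ⊆ ex T x := by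
  intro y hy
  rw [mem_ex] at hy ⊢
  rcases hy with h1 | h1 | h1
  · exact Or.inl (h h1)
  · exact Or.inr (Or.inl (h h1))
  · exact Or.inr (Or.inr (h h1))

theorem ex_comm (S : Finset V) (x y : V) : ex (ex S x) y = ex (ex S y) x := by
  ext z
  simp only [mem_ex]
  have e1 : z - y - x = z - x - y := by abel
  have e2 : z - y + x = z + x - y := by abel
  have e3 : z + y - x = z - x + y := by abel
  have e4 : z + y + x = z + x + y := by abel
  rw [e1, e2, e3, e4]
  tauto

theorem ex_add (S : Finset V) (x y : V) : ex S (x + y) ⊆ ex (ex S x) y := by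
  intro z hz
  simp only [mem_ex] at hz ⊢
  have e1 : z - y - x = z - (x + y) := by abel
  have e4 : z + y + x = z + (x + y) := by abel
  rw [e1, e4]
  tauto

theorem ex_sub (S : Finset V) (x y : V) : ex S (x - y) ⊆ ex (ex S x) y := by
  rw [sub_eq_add_neg, ← ex_neg (ex S x) y]
  exact ex_add S x (-y)

theorem ex_sub' (S : Finset V) (x y : V) : ex S (x - y) ⊆ ex (ex S y) x := by
  rw [ex_comm]
  exact ex_sub S x y

theorem card_ex (S : Finset V) (x : V) : (ex S x).card ≤ 3 * S.card := by
  classical
  unfold ex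
  have h1 := Finset.card_union_le S (S.image (fun s => s + x) ∪ S.image (fun s => s - x))
  have h2 := Finset.card_union_le (S.image (fun s => s + x)) (S.image (fun s => s - x))
  have h3 := Finset.card_image_le (s := S) (f := fun s => s + x)
  have h4 := Finset.card_image_le (s := S) (f := fun s => s - x)
  convert h1.trans ?_ using 3
  omega

theorem good_zero : Good ({0} : Finset V) := ⟨by simp, by simp⟩

end Sets

section PP

variable {K : Type*} [Field K] {A B : Type*} [AddCommGroup A] [Module K A]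
  [AddCommGroup B] [Module K B] {V : Type*} [AddCommGroup V]

theorem Df_comm (f : V → A →ₗ[K] B) (x y : V) : Df f x y = Df f y x := by
  unfold Df
  rw [add_comm y x]
  abel

theorem Df_cocycle (f : V → A →ₗ[K] B) (x y z : V) :
    Df f x y + Df f (x + y) z = Df f y z + Df f x (y + z) := by
  unfold Df
  rw [add_assoc x y z]
  abel

theorem le_PP (f : V → A →ₗ[K] B) {S : Finset V} {a b : V} (ha : a ∈ S) (hb : b ∈ S)
    (hab : a + b ∈ S) : LinearMap.range (Df f a b) ≤ PP f S := by
  classical
  unfold PP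
  have h := Finset.le_sup (s := S ×ˢ S)
    (f := fun q : V × V => if q.1 + q.2 ∈ S then LinearMap.range (Df f q.1 q.2) else ⊥)
    (b := (a, b)) (Finset.mk_mem_product ha hb)
  simp only [hab, if_true] at h
  convert h

theorem PP_mono (f : V → A →ₗ[K] B) {S T : Finset V} (h : S ⊆ T) : PP f S ≤ PP f T := by
  classical
  rw [PP]
  refine Finset.sup_le ?_
  rintro ⟨a, b⟩ hab
  rw [Finset.mem_product] at hab
  dsimp only
  split_ifs with h1
  · exact le_PP f (h hab.1) (h hab.2) (h h1)
  · exact bot_le

theorem finrank_PP_le [FiniteDimensional K B] (f : V → A →ₗ[K] B) (r : ℕ)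
    (hf : ∀ x y, rk (Df f x y) ≤ r) (S : Finset V) :
    finrank K ↥(PP f S) ≤ S.card ^ 2 * r := by
  classical
  have key : ∀ T : Finset (V × V), finrank K ↥(T.sup fun q : V × V =>
      if q.1 + q.2 ∈ S then LinearMap.range (Df f q.1 q.2) else ⊥) ≤ T.card * r := by
    intro T
    induction T using Finset.induction_on with
    | empty => simp
    | insert q T hq ih =>
      rw [Finset.sup_insert, Finset.card_insert_of_notMem hq]
      refine (Submodule.finrank_add_le_finrank_add_finrank _ _).trans ?_
      have h1 : finrank K ↥(if q.1 + q.2 ∈ S then LinearMap.range (Df f q.1 q.2) else ⊥) ≤ r := by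
        by_cases h2 : q.1 + q.2 ∈ S
        · rw [if_pos h2]
          exact hf _ _
        · rw [if_neg h2, finrank_bot]
          exact Nat.zero_le _
      nlinarith
  have h := key (S ×ˢ S)
  rw [Finset.card_product] at h
  unfold PP
  convert h using 1
  ring

/-- `f(b) + f(-b)` has its image in `P(S[b])`. -/
theorem range_add_neg_le (f : V → A →ₗ[K] B) {S : Finset V} (hS : Good S) (b : V) :
    LinearMap.range (f b + f (-b)) ≤ PP f (ex S b) := by
  have e : f b + f (-b) = -(Df f 0 0) - Df f b (-b) := by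
    unfold Df
    rw [add_zero, add_neg_cancel]
    abel
  have h0 : (0 : V) ∈ ex S b := subset_ex S b hS.1
  have h1 := le_PP f (self_mem_ex hS b) (neg_mem_ex hS b) (by rw [add_neg_cancel]; exact h0)
  have h2 := le_PP f h0 h0 (by rw [add_zero]; exact h0)
  rw [e]
  rintro _ ⟨x, rfl⟩
  rw [LinearMap.sub_apply, LinearMap.neg_apply]
  exact Submodule.sub_mem _ (Submodule.neg_mem _ (h2 ⟨x, rfl⟩)) (h1 ⟨x, rfl⟩)

end PP

end AHC
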