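import Pool.Agent.Helper35.AHC.Proj
import Pool.Agent.Helper35.AHC.GoodSets

/-!
# Project AHC, module AHC-19 (GaugePt): the pointwise inequality of section 4.

PROOF.  s = b - b0.  Put M = Df f a b - φ, φ = pr X Y ∘ₗ Df f a b0 with X = P0 a, Y = P0 b0 ⊔ P0 (a+b0),
Q = P1 b ⊔ P1 (a+b), Q⁺ = R s b ⊔ R s (a+b); Q ≤ Q⁺ (rb).
(1) rkm M Q⁺ <= eT a b0 + eT (a+b0) s + eT b0 s:
   Df f a b = Df f a b0 + Df f (a+b0) s - Df f b0 s (Df_cocycle f a b0 s with b0 + s = b), so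
   M = (Df f a b0 - φ) + Df f (a+b0) s - Df f b0 s.
   * Df f a b0 - φ = (id - pr X Y) ∘ₗ Df f a b0, and (id - pr X Y) maps X ⊔ Y into Y (sub_pr_mem):
     rkm_comp_le gives rkm (..) Y <= rkm (Df f a b0) (X ⊔ Y) = eT a b0 (sup_assoc).  Y ≤ Q⁺: P0 b0 ≤ P1 b0 =
     P1 (b - s) ≤ R s b (rsub), P0 (a+b0) ≤ P1 ((a+b) - s) ≤ R s (a+b).  rkm_anti.
   * P0 (a+b0) ≤ R s (a+b) (rsub), P0 s ≤ R s b (rs), P0 (a+b0+s) = P0 (a+b) ≤ R s (a+b) (rb): rkm_anti.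
   * P0 b0 ≤ R s b (rsub), P0 s ≤ R s b, P0 (b0+s) = P0 b ≤ R s b: rkm_anti.
(2) rkm M (P0 a ⊔ Q) <= eT a b: range φ ≤ P0 a (pr_mem), so rkm M (..) = rkm (Df f a b) (..) (rkm_sub_of_le), and
   P0 a ⊔ P0 b ⊔ P0 (a+b) ≤ P0 a ⊔ Q.
(3) rkm M ((P0 a ⊔ Q) ⊓ Q⁺) <= (2) + (1) (rkm_inf), and rkm M Q <= rkm M ((P0 a ⊔ Q) ⊓ Q⁺) + dd ((P0 a ⊔ Q) ⊓ Q⁺) Q
   (rkm_triangle), and dd ((P0 a ⊔ Q) ⊓ Q⁺) Q + dd (P0 a) Q⁺ = dd (P0 a) Q (dd_modular).
-/

namespace AHC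

open Module Submodule

variable {K : Type*} [Field K] {A B : Type*} [AddCommGroup A] [Module K A]
  [AddCommGroup B] [Module K B] {V : Type*} [AddCommGroup V]

/-- `e(a,b) = rk (D(a,b) | P_a + P_b + P_{a+b})`. -/
noncomputable def eT (P : V → Submodule K B) (f : V → A →ₗ[K] B) (a b : V) : ℕ :=
  rkm (Df f a b) (P a ⊔ P b ⊔ P (a + b))

theorem gauge_pt [FiniteDimensional K B] (P0 P1 : V → Submodule K B)
    (R : V → V → Submodule K B)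
    (le01 : ∀ x, P0 x ≤ P1 x) (rs : ∀ s b, P1 s ≤ R s b) (rb : ∀ s b, P1 b ≤ R s b)
    (rsub : ∀ s b, P1 (b - s) ≤ R s b) (f : V → A →ₗ[K] B) (a b b0 : V) :
    rkm (Df f a b - pr (P0 a) (P0 b0 ⊔ P0 (a + b0)) ∘ₗ Df f a b0) (P1 b ⊔ P1 (a + b))
      + dd (P0 a) (R (b - b0) b ⊔ R (b - b0) (a + b)) ≤
    eT P0 f a b + eT P0 f a b0 + eT P0 f (a + b0) (b - b0) + eT P0 f b0 (b - b0)
      + dd (P0 a) (P1 b ⊔ P1 (a + b)) := by
  obtain ⟨s, hs⟩ : ∃ s, s = b - b0 := ⟨_, rfl⟩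
  rw [← hs]
  have e1 : b - s = b0 := by rw [hs]; abel
  have e2 : a + b - s = a + b0 := by rw [hs]; abel
  have e3 : b0 + s = b := by rw [hs]; abel
  have e4 : a + b0 + s = a + b := by rw [hs]; abel
  set X := P0 a with hX
  set Y := P0 b0 ⊔ P0 (a + b0) with hY
  set φ := pr X Y ∘ₗ Df f a b0 with hφ
  set M := Df f a b - φ with hM
  set Q := P1 b ⊔ P1 (a + b) with hQdef
  set Q' := R s b ⊔ R s (a + b) with hQ'
  have hQ : Q ≤ Q' := sup_le_sup (rb s b) (rb s (a + b))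
  have h1 : P0 b0 ≤ Q' := (le01 b0).trans (by
    have := rsub s b
    rw [e1] at this
    exact this.trans le_sup_left)
  have h2 : P0 (a + b0) ≤ Q' := (le01 _).trans (by
    have := rsub s (a + b)
    rw [e2] at this
    exact this.trans le_sup_right)
  have h3 : P0 s ≤ Q' := (le01 s).trans ((rs s b).trans le_sup_left)
  have h5 : P0 (a + b) ≤ Q' := (le01 _).trans ((rb s (a + b)).trans le_sup_right)
  have h6 : P0 b ≤ Q' := (le01 _).trans ((rb s b).trans le_sup_left)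
  have hYQ : Y ≤ Q' := sup_le h1 h2
  have m1 : rkm (Df f a b0 - φ) Q' ≤ eT P0 f a b0 := by
    refine (rkm_anti _ hYQ).trans ?_
    have e5 : Df f a b0 - φ = (LinearMap.id - pr X Y) ∘ₗ Df f a b0 := by
      rw [LinearMap.sub_comp, LinearMap.id_comp]
    have h7 := rkm_comp_le (Df f a b0) (LinearMap.id - pr X Y) (X ⊔ Y) Y (by
      rintro _ ⟨k, hk, rfl⟩
      rw [LinearMap.sub_apply, LinearMap.id_apply]
      exact sub_pr_mem X Y hk)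
    rw [← e5] at h7
    unfold eT
    rw [sup_assoc]
    exact h7
  have m2 : rkm (Df f (a + b0) s) Q' ≤ eT P0 f (a + b0) s := by
    unfold eT
    rw [e4]
    exact rkm_anti _ (sup_le (sup_le h2 h3) h5)
  have m3 : rkm (Df f b0 s) Q' ≤ eT P0 f b0 s := by
    unfold eT
    rw [e3]
    exact rkm_anti _ (sup_le (sup_le h1 h3) h6)
  have m4 : rkm M Q' ≤ eT P0 f a b0 + eT P0 f (a + b0) s + eT P0 f b0 s := by
    have hc := Df_cocycle f a b0 s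
    rw [e3] at hc
    have e6 : M = (Df f a b0 - φ) + Df f (a + b0) s - Df f b0 s := by
      have e7 : Df f a b = Df f a b0 + Df f (a + b0) s - Df f b0 s := by
        rw [hc]
        abel
      rw [hM, e7]
      abel
    rw [e6]
    refine (rkm_sub _ _ _).trans (Nat.add_le_add ((rkm_add _ _ _).trans (Nat.add_le_add m1 m2)) m3)
  have m5 : rkm M (X ⊔ Q) ≤ eT P0 f a b := by
    have hr : LinearMap.range φ ≤ X ⊔ Q := by
      rintro _ ⟨k, rfl⟩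
      exact (le_sup_left : X ≤ X ⊔ Q) (pr_mem X Y _)
    rw [hM, rkm_sub_of_le _ hr]
    unfold eT
    refine rkm_anti _ (sup_le (sup_le le_sup_left ?_) ?_)
    · exact (le01 b).trans (le_sup_left.trans le_sup_right)
    · exact (le01 _).trans (le_sup_right.trans le_sup_right)
  have m6 : rkm M ((X ⊔ Q) ⊓ Q') ≤ rkm M (X ⊔ Q) + rkm M Q' := rkm_inf _ _ _
  have m7 : rkm M Q ≤ rkm M ((X ⊔ Q) ⊓ Q') + dd ((X ⊔ Q) ⊓ Q') Q := rkm_triangle _ _ _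
  have m8 : dd ((X ⊔ Q) ⊓ Q') Q + dd X Q' = dd X Q := dd_modular X Q Q' hQ
  omega

end AHC
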