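import Pool.Agent.Helper35.AHC.SelDefs

/-!
# Project AHC, module AHC-15 (Level): one level of the nested selection.

PROOF.  `greedy` with X = {q : Finset V × Y // Good q.1 ∧ S ⊆ q.1 ∧ Comp q.1 q.2}, phi q = FF P S q.1 (top q.2),
size q = (top q.2).card, g t = β (3 * t) (monotone; t <= 3 t <= β (3 t)), delta = r / k,
good q := Fst P (r/k) S q.1 (top q.2), N = 9 * S.card^2 * k, start: q.1 = S, q.2 = y with
(top y).card <= β S.card (hcard).
If q = (S', y) is not good: av_s FF P S (ex S' s) (ex (top y) s) < FF P S S' (top y) - r/k, so (exists_le_av) some s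
has FF P S (ex S' s) (ex (top y) s) < FF P S S' (top y) - r/k.  New S'' = ex (top y) s: good, contains S
(S ⊆ S' ⊆ top y ⊆ S'', hc), card <= 3 * (top y).card; y' from hcard S'': Comp S'' y',
(top y').card <= β S''.card <= β (3 * (top y).card).  FF P S S'' (top y') <= FF P S (ex S' s) (ex (top y) s):
pointwise dd_mono, since ex S' s ⊆ ex (top y) s = S'' ⊆ ex S'' b: hmm, precisely P (ex (ex S' s) b) ≤ P (ex S'' b)
(ex_mono, ex S' s ⊆ ex (top y) s) and P (ex (top y) s) = P S'' ≤ P (top y') (hc: S'' ⊆ top y').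
phi >= 0: av_nonneg; phi x0 <= 9 * S.card^2 * r: dd_le, hdim (ex S a), card_ex.
Finally g^[N] (size x0) <= g^[N] (β S.card) = itb β k S.card (Monotone.iterate).
-/

namespace AHC

open Module Submodule

variable {K : Type*} [Field K] {B : Type*} [AddCommGroup B] [Module K B] [FiniteDimensional K B]
  {V : Type*} [AddCommGroup V] [Fintype V]

theorem level {Y : Type*} (P : Finset V → Submodule K B) (hmono : ∀ S T, S ⊆ T → P S ≤ P T)
    (r k : ℕ) (hk : 0 < k) (hdim : ∀ S : Finset V, finrank K ↥(P S) ≤ S.card ^ 2 * r)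
    (Comp : Finset V → Y → Prop) (top : Y → Finset V) (β : ℕ → ℕ) (hβ : Monotone β)
    (hβ' : ∀ m, m ≤ β m) (hc : ∀ S y, Comp S y → S ⊆ top y ∧ Good (top y))
    (hcard : ∀ S, Good S → ∃ y, Comp S y ∧ (top y).card ≤ β S.card)
    (S : Finset V) (hS : Good S) :
    ∃ S' y, Good S' ∧ S ⊆ S' ∧ Comp S' y ∧ Fst P ((r : ℝ) / k) S S' (top y) ∧
      (top y).card ≤ itb β k S.card := by
  have : Nonempty V := ⟨0⟩
  have hg : Monotone (fun t => β (3 * t)) := fun a b h => hβ (Nat.mul_le_mul_left 3 h)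
  have hg' : ∀ m, m ≤ (fun t => β (3 * t)) m := fun m =>
    (by omega : m ≤ 3 * m).trans (hβ' (3 * m))
  have hδ : (0 : ℝ) ≤ (r : ℝ) / k := by positivity
  obtain ⟨y0, hy0, hy0c⟩ := hcard S hS
  have h := greedy (X := {q : Finset V × Y // Good q.1 ∧ S ⊆ q.1 ∧ Comp q.1 q.2})
    (fun q => FF P S q.1.1 (top q.1.2))
    (fun q => Fst P ((r : ℝ) / k) S q.1.1 (top q.1.2))
    (fun q => (top q.1.2).card) (fun t => β (3 * t)) hg hg' ((r : ℝ) / k) hδ
    (fun q => av_nonneg fun a => av_nonneg fun b => Nat.cast_nonneg _)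
    (by
      rintro ⟨⟨S', y⟩, hG, hSS', hC⟩ hbad
      dsimp only at hG hSS' hC hbad ⊢
      unfold Fst at hbad
      push Not at hbad
      obtain ⟨s, hs⟩ := exists_le_av (fun s => FF P S (ex S' s) (ex (top y) s))
      obtain ⟨hsub, hGt⟩ := hc S' y hC
      obtain ⟨y', hy', hy'c⟩ := hcard (ex (top y) s) (good_ex hGt s)
      obtain ⟨hsub', -⟩ := hc _ y' hy'
      refine ⟨⟨(ex (top y) s, y'), good_ex hGt s,
        (hSS'.trans hsub).trans (subset_ex _ _), hy'⟩, ?_, ?_⟩
      · have h1 : FF P S (ex (top y) s) (top y') ≤ FF P S (ex S' s) (ex (top y) s) := by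
          refine av_mono fun a => av_mono fun b => ?_
          refine Nat.cast_le.2 (dd_mono le_rfl ?_)
          refine sup_le_sup (sup_le_sup ?_ ?_) (hmono _ _ hsub')
          · exact hmono _ _ (ex_mono (ex_mono hsub s) b)
          · exact hmono _ _ (ex_mono (ex_mono hsub s) (a + b))
        change FF P S (ex (top y) s) (top y') < FF P S S' (top y) - (r : ℝ) / k
        linarith
      · exact hy'c.trans (hβ (card_ex _ _)))
    (9 * S.card ^ 2 * k) ⟨(S, y0), hS, Finset.Subset.refl _, hy0⟩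
    (by
      have hkr : (0 : ℝ) < (k : ℝ) := by exact_mod_cast hk
      have h1 : FF P S S (top y0) ≤ ((9 * S.card ^ 2 * r : ℕ) : ℝ) := by
        refine av_le_const fun a => av_le_const fun b => ?_
        refine Nat.cast_le.2 ((dd_le _ _).trans ((hdim _).trans ?_))
        have h2 := card_ex S a
        calc (ex S a).card ^ 2 * r ≤ (3 * S.card) ^ 2 * r :=
              Nat.mul_le_mul_right r (Nat.pow_le_pow_left h2 2)
          _ = 9 * S.card ^ 2 * r := by ring
      refine h1.trans (le_of_eq ?_)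
      push_cast
      field_simp)
  obtain ⟨⟨⟨S', y⟩, hG, hSS', hC⟩, hgood, hsize⟩ := h
  refine ⟨S', y, hG, hSS', hC, hgood, hsize.trans ?_⟩
  exact hg.iterate _ hy0c

end AHC
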