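import Pool.Agent.Helper35.AHC.Quot

/-!
# Project AHC, module AHC-18 (SelQuot): the structure `Sel` in the quotient `B / P(S5)`.

PROOF.  neg: ex_neg.  le: Submodule.map_mono, hmono, ex_mono.  rs: ex S1 s ⊆ ex (ex S1 s) b (subset_ex);
rb: ex S1 b ⊆ ex (ex S1 b) s = ex (ex S1 s) b (ex_comm); rsub: ex_sub' S1 b s : ex S1 (b - s) ⊆ ex (ex S1 s) b.
c0: quot_stab for (S0, S1, S5).  c1, c2, c3: canon_av with R s b = (P (ex (ex S' s) b)).map mkQ and quot_stab.
j: quot_J.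
-/

namespace AHC

open Module Submodule

variable {K : Type*} [Field K] {B : Type*} [AddCommGroup B] [Module K B] [FiniteDimensional K B]
  {V : Type*} [AddCommGroup V] [Fintype V]

theorem sel_quot (P : Finset V → Submodule K B) (hmono : ∀ S T, S ⊆ T → P S ≤ P T) (δ : ℝ)
    (S0 S1 S2 S3 S4 S5 : Finset V) (h01 : S0 ⊆ S1) (h12 : S1 ⊆ S2) (h23 : S2 ⊆ S3) (h34 : S3 ⊆ S4)
    (h45 : S4 ⊆ S5) (f0 : Fst P δ S0 S1 S5) (f1 : Fst P δ S1 S2 S5) (f2 : Fst P δ S2 S3 S5)
    (f3 : Fst P δ S3 S4 S5) (fj : Jst P δ S4 S5) :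
    Sel (fun x => (P (ex S0 x)).map (P S5).mkQ) (fun x => (P (ex S1 x)).map (P S5).mkQ)
      (fun x => (P (ex S2 x)).map (P S5).mkQ) (fun x => (P (ex S3 x)).map (P S5).mkQ)
      (fun x => (P (ex S4 x)).map (P S5).mkQ)
      (fun s b => (P (ex (ex S1 s) b)).map (P S5).mkQ) δ where
  neg1 x := by simp only [ex_neg]
  neg4 x := by simp only [ex_neg]
  le01 x := Submodule.map_mono (hmono _ _ (ex_mono h01 x))
  le12 x := Submodule.map_mono (hmono _ _ (ex_mono h12 x))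
  le23 x := Submodule.map_mono (hmono _ _ (ex_mono h23 x))
  le34 x := Submodule.map_mono (hmono _ _ (ex_mono h34 x))
  rs s b := Submodule.map_mono (hmono _ _ (subset_ex _ b))
  rb s b := Submodule.map_mono (hmono _ _ (ex_mono (subset_ex S1 s) b))
  rsub s b := Submodule.map_mono (hmono _ _ (ex_sub' S1 b s))
  c0 := quot_stab P hmono δ S0 S1 S5 f0
  c1 := canon_av _ _ (fun s b => (P (ex (ex S2 s) b)).map (P S5).mkQ)
    (fun s b => Submodule.map_mono (hmono _ _ (ex_mono (subset_ex S2 s) b)))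
    (fun s b => Submodule.map_mono (hmono _ _ (ex_sub' S2 b s))) δ
    (quot_stab P hmono δ S1 S2 S5 f1)
  c2 := canon_av _ _ (fun s b => (P (ex (ex S3 s) b)).map (P S5).mkQ)
    (fun s b => Submodule.map_mono (hmono _ _ (ex_mono (subset_ex S3 s) b)))
    (fun s b => Submodule.map_mono (hmono _ _ (ex_sub' S3 b s))) δ
    (quot_stab P hmono δ S2 S3 S5 f2)
  c3 := canon_av _ _ (fun s b => (P (ex (ex S4 s) b)).map (P S5).mkQ)
    (fun s b => Submodule.map_mono (hmono _ _ (ex_mono (subset_ex S4 s) b)))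
    (fun s b => Submodule.map_mono (hmono _ _ (ex_sub' S4 b s))) δ
    (quot_stab P hmono δ S3 S4 S5 f3)
  j := quot_J P hmono δ S4 S5 h45 fj

end AHC
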