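import Pool.Agent.Helper35.AHC.SelJ
import Pool.Agent.Helper35.AHC.Level
import Pool.Agent.Helper35.AHC.BetMono

/-!
# Project AHC, module AHC-16 (Select): the selection.

PROOF.  Apply `level` four times.
 Comp5 S4 S5 := Good S5 ∧ S4 ⊆ S5 ∧ Jst P (r/k) S4 S5, top = id, β = bet5 k (sel_J, bet5_mono, le_bet5).
 -> Comp4 S3 (S4, S5) := Good S4 ∧ S3 ⊆ S4 ∧ Comp5 S4 S5 ∧ Fst P (r/k) S3 S4 S5, top = S5, β = itb (bet5 k) k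
   (itb_mono, le_itb; `level` gives exactly hcard),
 -> Comp3 S2 (S3, (S4, S5)), Comp2 S1 (S2, ...), and the last application of `level` for S0.
Good (top y) and S ⊆ top y follow by transitivity.
-/

namespace AHC

open Module Submodule

variable {K : Type*} [Field K] {B : Type*} [AddCommGroup B] [Module K B] [FiniteDimensional K B]
  {V : Type*} [AddCommGroup V] [Fintype V]

theorem select (P : Finset V → Submodule K B) (hmono : ∀ S T, S ⊆ T → P S ≤ P T)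
    (r k : ℕ) (hk : 0 < k) (hdim : ∀ S : Finset V, finrank K ↥(P S) ≤ S.card ^ 2 * r)
    (S0 : Finset V) (hS0 : Good S0) :
    ∃ S1 S2 S3 S4 S5 : Finset V, Good S1 ∧ Good S2 ∧ Good S3 ∧ Good S4 ∧ Good S5 ∧
      S0 ⊆ S1 ∧ S1 ⊆ S2 ∧ S2 ⊆ S3 ∧ S3 ⊆ S4 ∧ S4 ⊆ S5 ∧ S5.card ≤ bet k S0.card ∧
      Fst P ((r : ℝ) / k) S0 S1 S5 ∧ Fst P ((r : ℝ) / k) S1 S2 S5 ∧
      Fst P ((r : ℝ) / k) S2 S3 S5 ∧ Fst P ((r : ℝ) / k) S3 S4 S5 ∧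
      Jst P ((r : ℝ) / k) S4 S5 := by
  have h1 : ∀ S3 : Finset V, Good S3 → ∃ S4 S5 : Finset V, Good S4 ∧ S3 ⊆ S4 ∧
      (Good S5 ∧ S4 ⊆ S5 ∧ Jst P ((r : ℝ) / k) S4 S5) ∧ Fst P ((r : ℝ) / k) S3 S4 S5 ∧
      S5.card ≤ itb (bet5 k) k S3.card := by
    intro S3 hS3
    exact level P hmono r k hk hdim
      (fun S4 S5 => Good S5 ∧ S4 ⊆ S5 ∧ Jst P ((r : ℝ) / k) S4 S5) id (bet5 k)
      (bet5_mono k) (le_bet5 k) (fun S y h => ⟨h.2.1, h.1⟩)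
      (fun S hS => by
        obtain ⟨T, a, b, c, d⟩ := sel_J P r k hk hdim S hS
        exact ⟨T, ⟨a, b, c⟩, d⟩) S3 hS3
  have h2 : ∀ S2 : Finset V, Good S2 → ∃ (S3 : Finset V) (y : Finset V × Finset V),
      Good S3 ∧ S2 ⊆ S3 ∧ (Good y.1 ∧ S3 ⊆ y.1 ∧
        (Good y.2 ∧ y.1 ⊆ y.2 ∧ Jst P ((r : ℝ) / k) y.1 y.2) ∧
        Fst P ((r : ℝ) / k) S3 y.1 y.2) ∧ Fst P ((r : ℝ) / k) S2 S3 y.2 ∧
      y.2.card ≤ itb (itb (bet5 k) k) k S2.card := by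
    intro S2 hS2
    exact level P hmono r k hk hdim
      (fun S3 (y : Finset V × Finset V) => Good y.1 ∧ S3 ⊆ y.1 ∧
        (Good y.2 ∧ y.1 ⊆ y.2 ∧ Jst P ((r : ℝ) / k) y.1 y.2) ∧
        Fst P ((r : ℝ) / k) S3 y.1 y.2) (fun y => y.2) (itb (bet5 k) k)
      (itb_mono _ (bet5_mono k) (le_bet5 k) k) (le_itb _ (bet5_mono k) (le_bet5 k) k)
      (fun S y h => ⟨h.2.1.trans h.2.2.1.2.1, h.2.2.1.1⟩)
      (fun S hS => by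
        obtain ⟨S4, S5, a, b, c, d, e⟩ := h1 S hS
        exact ⟨(S4, S5), ⟨a, b, c, d⟩, e⟩) S2 hS2
  have m1 := itb_mono _ (bet5_mono k) (le_bet5 k) k
  have l1 := le_itb _ (bet5_mono k) (le_bet5 k) k
  have h3 : ∀ S1 : Finset V, Good S1 → ∃ (S2 : Finset V) (y : Finset V × Finset V × Finset V),
      Good S2 ∧ S1 ⊆ S2 ∧ (Good y.1 ∧ S2 ⊆ y.1 ∧ (Good y.2.1 ∧ y.1 ⊆ y.2.1 ∧
        (Good y.2.2 ∧ y.2.1 ⊆ y.2.2 ∧ Jst P ((r : ℝ) / k) y.2.1 y.2.2) ∧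
        Fst P ((r : ℝ) / k) y.1 y.2.1 y.2.2) ∧ Fst P ((r : ℝ) / k) S2 y.1 y.2.2) ∧
        Fst P ((r : ℝ) / k) S1 S2 y.2.2 ∧
      y.2.2.card ≤ itb (itb (itb (bet5 k) k) k) k S1.card := by
    intro S1 hS1
    exact level P hmono r k hk hdim
      (fun S2 (y : Finset V × Finset V × Finset V) => Good y.1 ∧ S2 ⊆ y.1 ∧
        (Good y.2.1 ∧ y.1 ⊆ y.2.1 ∧
        (Good y.2.2 ∧ y.2.1 ⊆ y.2.2 ∧ Jst P ((r : ℝ) / k) y.2.1 y.2.2) ∧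
        Fst P ((r : ℝ) / k) y.1 y.2.1 y.2.2) ∧ Fst P ((r : ℝ) / k) S2 y.1 y.2.2)
      (fun y => y.2.2) (itb (itb (bet5 k) k) k)
      (itb_mono _ m1 l1 k) (le_itb _ m1 l1 k)
      (fun S y h => ⟨h.2.1.trans (h.2.2.1.2.1.trans h.2.2.1.2.2.1.2.1), h.2.2.1.2.2.1.1⟩)
      (fun S hS => by
        obtain ⟨S3, y, a, b, c, d, e⟩ := h2 S hS
        exact ⟨(S3, y.1, y.2), ⟨a, b, c, d⟩, e⟩) S1 hS1
  have m2 := itb_mono _ m1 l1 k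
  have l2 := le_itb _ m1 l1 k
  obtain ⟨S1, y, a, b, c, d, e⟩ := level P hmono r k hk hdim
      (fun S1 (y : Finset V × Finset V × Finset V × Finset V) => Good y.1 ∧ S1 ⊆ y.1 ∧
        (Good y.2.1 ∧ y.1 ⊆ y.2.1 ∧ (Good y.2.2.1 ∧ y.2.1 ⊆ y.2.2.1 ∧
        (Good y.2.2.2 ∧ y.2.2.1 ⊆ y.2.2.2 ∧ Jst P ((r : ℝ) / k) y.2.2.1 y.2.2.2) ∧
        Fst P ((r : ℝ) / k) y.2.1 y.2.2.1 y.2.2.2) ∧ Fst P ((r : ℝ) / k) y.1 y.2.1 y.2.2.2) ∧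
        Fst P ((r : ℝ) / k) S1 y.1 y.2.2.2)
      (fun y => y.2.2.2) (itb (itb (itb (bet5 k) k) k) k)
      (itb_mono _ m2 l2 k) (le_itb _ m2 l2 k)
      (fun S y h => ⟨h.2.1.trans (h.2.2.1.2.1.trans (h.2.2.1.2.2.1.2.1.trans
        h.2.2.1.2.2.1.2.2.1.2.1)), h.2.2.1.2.2.1.2.2.1.1⟩)
      (fun S hS => by
        obtain ⟨S2, y, a, b, c, d, e⟩ := h3 S hS
        exact ⟨(S2, y.1, y.2.1, y.2.2), ⟨a, b, c, d⟩, e⟩) S0 hS0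
  obtain ⟨c1, c2, ⟨c3, c4, ⟨c5, c6, ⟨c7, c8, c9⟩, c10⟩, c11⟩, c12⟩ := c
  exact ⟨S1, y.1, y.2.1, y.2.2.1, y.2.2.2, a, c1, c3, c5, c7, b, c2, c4, c6, c8, e, d, c12, c11,
    c10, c9⟩

end AHC
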