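import Pool.Agent.Helper35.AHC.StepS
import Pool.Agent.Helper35.AHC.GaugeAv
import Pool.Agent.Helper35.AHC.GaugeFin
import Pool.Agent.Helper35.AHC.SelQuot
import Pool.Agent.Helper35.AHC.Select
import Pool.Agent.Helper35.AHC.ColFin

/-!
# Project AHC, module AHC-30 (MainStep): the MAIN step.

PROOF.  (never unfold or evaluate cst, bet.)
col_main: S0, f1.  P = PP f (PP_mono, finrank_PP_le).  select: S1, ..., S5.  W = P S5, q = W.mkQ, sel_quot with
δ = r/k: hS : Sel P0 ... P4 R (r/k) over B ⧸ W.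
g x = q ∘ₗ f1 x : V → (A → B ⧸ W).  Df g x y = q ∘ₗ Df f1 x y; eT P0 g x y = rkm (q ∘ₗ Df f1 x y)
((P (ex S0 x)).map q ⊔ (P (ex S0 y)).map q ⊔ (P (ex S0 (x+y))).map q) <= rkm (Df f1 x y) (PT f S0 x y)
(rkm_comp_le; Submodule.map_sup).  So he with e1 = 6 * (r/k).  gauge_av (hS.le01, rs, rb, rsub, c0): φ.
hneg: range (g b + g (-b)) = (range (f1 b + f1 (-b))).map q ≤ P0 b.  gauge_fin with e2 = 4 * e1 + r/k:
e3 = 3 * e2 = 75 * (r/k).  step_S: o, F with average <= 11 * e3 + 125 * (r/k) = 950 * (r/k).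
Section: σ : (B ⧸ W) →ₗ B with q ∘ₗ σ = id (LinearMap.exists_rightInverse_of_surjective, range_mkQ).
h x = σ ∘ₗ F x: Df h x y = σ ∘ₗ Df F x y, rk_comp_le_right.
f x - h x = (f x - f1 x) + (f1 x - σ ∘ₗ g x) - σ ∘ₗ φ x + σ ∘ₗ (g x + φ x - F x):
 rk <= r + dim W + dim (P0 x) + dim (P2 o); (f1 x - σ q f1 x has range in ker q = W; range φ x ≤ P0 x)
 dim W <= S5.card^2 * r, dim (P0 x) <= dim (PP f (ex S0 x)) <= (3 * S0.card)^2 * r, dim (P2 o) <= (3 * S2.card)^2 * r;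
 S0.card, S2.card <= S5.card <= bet k S0.card <= bet k (3^k) (bet is monotone: itb_mono four times, Finset.card_le_card).
 total <= (1 + 19 * bet^2) * r.
-/

namespace AHC

open Module Submodule

/-- the constant of the MAIN step. -/
def cst (k : ℕ) : ℕ := 1 + 19 * (bet k (3 ^ k)) ^ 2

private theorem bet_mono (k : ℕ) : Monotone (bet k) := by
  have m0 := bet5_mono k
  have l0 := le_bet5 k
  have m1 := itb_mono _ m0 l0 k
  have l1 := le_itb _ m0 l0 k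
  have m2 := itb_mono _ m1 l1 k
  have l2 := le_itb _ m1 l1 k
  have m3 := itb_mono _ m2 l2 k
  have l3 := le_itb _ m2 l2 k
  exact itb_mono _ m3 l3 k

variable {K : Type*} [Field K] {A B : Type*} [AddCommGroup A] [Module K A]
  [FiniteDimensional K A] [AddCommGroup B] [Module K B] [FiniteDimensional K B]
  {V : Type*} [AddCommGroup V] [Fintype V]

omit [FiniteDimensional K A] [Fintype V] in
private theorem ms_dim (f : V → A →ₗ[K] B) (r : ℕ) (hf : ∀ x y, rk (Df f x y) ≤ r)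
    (S : Finset V) (x : V) (m : ℕ) (hm : S.card ≤ m) :
    finrank K ↥(PP f (ex S x)) ≤ 9 * m ^ 2 * r := by
  have h1 := finrank_PP_le f r hf (ex S x)
  have h2 : (ex S x).card ≤ 3 * m := (card_ex S x).trans (Nat.mul_le_mul_left 3 hm)
  have h3 : (ex S x).card ^ 2 ≤ 9 * m ^ 2 := by
    calc (ex S x).card ^ 2 ≤ (3 * m) ^ 2 := Nat.pow_le_pow_left h2 2
      _ = 9 * m ^ 2 := by ring
  exact h1.trans (Nat.mul_le_mul_right r h3)

theorem main_step (k : ℕ) (hk : 0 < k) (r : ℕ) (f : V → A →ₗ[K] B)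
    (hf : ∀ x y, rk (Df f x y) ≤ r) :
    ∃ h : V → A →ₗ[K] B, (∀ x, rk (f x - h x) ≤ cst k * r) ∧
      av (fun x => av fun y => (rk (Df h x y) : ℝ)) ≤ 950 * ((r : ℝ) / k) := by
  obtain ⟨S0, hS0, hcard0, f1, hf1, hneg1, hav1⟩ := col_main f r hf k hk
  obtain ⟨S1, S2, S3, S4, S5, g1, g2, g3, g4, g5, h01, h12, h23, h34, h45, hcard5,
    F0, F1, F2, F3, J⟩ :=
    select (PP f) (fun S T h => PP_mono f h) r k hk (finrank_PP_le f r hf) S0 hS0
  have hS := sel_quot (PP f) (fun S T h => PP_mono f h) ((r : ℝ) / k) S0 S1 S2 S3 S4 S5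
    h01 h12 h23 h34 h45 F0 F1 F2 F3 J
  set W := PP f S5 with hW
  obtain ⟨σ, hσ⟩ := W.mkQ.exists_rightInverse_of_surjective W.range_mkQ
  have hDg : ∀ x y, Df (fun x => W.mkQ ∘ₗ f1 x) x y = W.mkQ ∘ₗ Df f1 x y := by
    intro x y
    simp only [Df, LinearMap.comp_sub]
  have he1 : av (fun a => av fun b =>
      (eT (fun x => (PP f (ex S0 x)).map W.mkQ) (fun x => W.mkQ ∘ₗ f1 x) a b : ℝ)) ≤
      6 * ((r : ℝ) / k) := by
    refine le_trans (av_mono fun a => av_mono fun b => ?_) hav1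
    have h : eT (fun x => (PP f (ex S0 x)).map W.mkQ) (fun x => W.mkQ ∘ₗ f1 x) a b ≤
        rkm (Df f1 a b) (PT f S0 a b) := by
      unfold eT
      rw [hDg]
      apply rkm_comp_le
      rw [PT, Submodule.map_sup, Submodule.map_sup]
    exact_mod_cast h
  obtain ⟨φ, hφ, hav2⟩ := gauge_av _ _ _ hS.le01 hS.rs hS.rb hS.rsub _ hS.c0 _ _ he1
  have hneg : ∀ b, LinearMap.range ((fun x => W.mkQ ∘ₗ f1 x) b + (fun x => W.mkQ ∘ₗ f1 x) (-b))
      ≤ (PP f (ex S0 b)).map W.mkQ := by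
    intro b
    have h : (fun x => W.mkQ ∘ₗ f1 x) b + (fun x => W.mkQ ∘ₗ f1 x) (-b)
        = W.mkQ ∘ₗ (f1 b + f1 (-b)) := by
      simp only [LinearMap.comp_add]
    rw [h, LinearMap.range_comp]
    exact Submodule.map_mono (hneg1 b)
  have hav3 := gauge_fin _ _ _ hS.neg1 hS.le01 hS.le12 (fun x => W.mkQ ∘ₗ f1 x) φ hφ hneg _ hav2
  obtain ⟨o, F, hF, hav4⟩ := step_S _ _ _ _ _ _ _ hS (fun t => W.mkQ ∘ₗ f1 t + φ t) _ hav3
  refine ⟨fun x => σ ∘ₗ F x, ?_, ?_⟩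
  · intro x
    set m := bet k (3 ^ k) with hm
    have c5 : S5.card ≤ m := hcard5.trans (bet_mono k hcard0)
    have c0 : S0.card ≤ m :=
      (Finset.card_le_card (h01.trans (h12.trans (h23.trans (h34.trans h45))))).trans c5
    have c2 : S2.card ≤ m := (Finset.card_le_card (h23.trans (h34.trans h45))).trans c5
    have e : f x - σ ∘ₗ F x = (f x - f1 x) + (f1 x - σ ∘ₗ (W.mkQ ∘ₗ f1 x)) - σ ∘ₗ φ x
        + σ ∘ₗ (W.mkQ ∘ₗ f1 x + φ x - F x) := by
      rw [LinearMap.comp_sub, LinearMap.comp_add]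
      abel
    have t1 : rk (f1 x - σ ∘ₗ (W.mkQ ∘ₗ f1 x)) ≤ m ^ 2 * r := by
      have h1 : LinearMap.range (f1 x - σ ∘ₗ (W.mkQ ∘ₗ f1 x)) ≤ W := by
        rintro _ ⟨a, rfl⟩
        have h2 : W.mkQ (σ (W.mkQ (f1 x a))) = W.mkQ (f1 x a) := by
          have := LinearMap.congr_fun hσ (W.mkQ (f1 x a))
          simpa using this
        have h3 : W.mkQ ((f1 x - σ ∘ₗ (W.mkQ ∘ₗ f1 x)) a) = 0 := by
          rw [LinearMap.sub_apply, map_sub, LinearMap.comp_apply, LinearMap.comp_apply, h2,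
            sub_self]
        rwa [Submodule.mkQ_apply, Submodule.Quotient.mk_eq_zero] at h3
      have h4 : rk (f1 x - σ ∘ₗ (W.mkQ ∘ₗ f1 x)) ≤ finrank K ↥W := Submodule.finrank_mono h1
      have h5 : finrank K ↥W ≤ S5.card ^ 2 * r := finrank_PP_le f r hf S5
      exact h4.trans (h5.trans (Nat.mul_le_mul_right r (Nat.pow_le_pow_left c5 2)))
    have t2 : rk (σ ∘ₗ φ x) ≤ 9 * m ^ 2 * r := by
      have h1 := rk_comp_le_right (φ x) σ
      have h2 : rk (φ x) ≤ finrank K ↥((PP f (ex S0 x)).map W.mkQ) :=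
        Submodule.finrank_mono (hφ x)
      have h3 := Submodule.finrank_map_le W.mkQ (PP f (ex S0 x))
      exact h1.trans (h2.trans (h3.trans (ms_dim f r hf S0 x m c0)))
    have t3 : rk (σ ∘ₗ (W.mkQ ∘ₗ f1 x + φ x - F x)) ≤ 9 * m ^ 2 * r := by
      have h1 := rk_comp_le_right (W.mkQ ∘ₗ f1 x + φ x - F x) σ
      have h2 := hF x
      have h3 := Submodule.finrank_map_le W.mkQ (PP f (ex S2 o))
      exact h1.trans (h2.trans (h3.trans (ms_dim f r hf S2 o m c2)))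
    have s1 := rk_add ((f x - f1 x) + (f1 x - σ ∘ₗ (W.mkQ ∘ₗ f1 x)) - σ ∘ₗ φ x)
      (σ ∘ₗ (W.mkQ ∘ₗ f1 x + φ x - F x))
    have s2 := rk_sub ((f x - f1 x) + (f1 x - σ ∘ₗ (W.mkQ ∘ₗ f1 x))) (σ ∘ₗ φ x)
    have s3 := rk_add (f x - f1 x) (f1 x - σ ∘ₗ (W.mkQ ∘ₗ f1 x))
    have s4 := hf1 x
    have hc : cst k * r = r + m ^ 2 * r + 9 * m ^ 2 * r + 9 * m ^ 2 * r := by
      unfold cst
      rw [← hm]
      ring
    show rk (f x - σ ∘ₗ F x) ≤ cst k * r
    rw [e, hc]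
    clear_value m
    omega
  · refine le_trans (av_mono fun a => av_mono fun b => ?_) (hav4.trans (le_of_eq ?_))
    · have h : Df (fun x => σ ∘ₗ F x) a b = σ ∘ₗ Df F a b := by
        simp only [Df, LinearMap.comp_sub]
      rw [h]
      exact Nat.cast_le.2 (rk_comp_le_right (Df F a b) σ)
    · ring

end AHC
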