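import Pool.Agent.Helper35.AHC.Dim

/-!
# Project AHC, module AHC-11 (Proj): the projection lemma.

PROOF of exists_proj.  X' = a complement of X ⊓ Y inside X (Submodule.exists_isCompl (X ⊓ Y) : Z, X' = X ⊓ Z; as in
the proof of dd_map_le), so X' ≤ X, X' ⊓ Y = ⊥, X' ⊔ Y = X ⊔ Y.  Then X' and Y are disjoint; let Y' ≥ Y be such
that IsCompl X' Y' (take a complement T of X ⊔ Y and Y' = Y ⊔ T; or Submodule: exists a complement of X' containing
Y: `Disjoint.exists_isCompl`-type lemmas).  pi = projection onto X' along Y'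
(X'.subtype ∘ₗ Submodule.linearProjOfIsCompl).  range pi ≤ X' ≤ X.  For k = x' + y (x' ∈ X', y ∈ Y):
pi k = x' and k - pi k = y ∈ Y.
`pr X Y` is the chosen one; `uu P3 o x = - pr (P3 x) (P3 (x+o))`.
-/

namespace AHC

open Module Submodule

variable {K : Type*} [Field K] {B : Type*} [AddCommGroup B] [Module K B]

theorem exists_proj (X Y : Submodule K B) :
    ∃ π : B →ₗ[K] B, (∀ k, π k ∈ X) ∧ ∀ k ∈ X ⊔ Y, k - π k ∈ Y := by
  obtain ⟨Z, hZ⟩ := Submodule.exists_isCompl (X ⊓ Y)
  have hsup : X ⊔ Y = (X ⊓ Z) ⊔ Y := by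
    have h1 : (X ⊓ Y) ⊔ (Z ⊓ X) = ((X ⊓ Y) ⊔ Z) ⊓ X := (sup_inf_assoc_of_le Z inf_le_left).symm
    have h2 : (X ⊓ Y) ⊔ (X ⊓ Z) = X := by
      rw [inf_comm X Z, h1, hZ.sup_eq_top, top_inf_eq]
    apply le_antisymm
    · refine sup_le ?_ le_sup_right
      rw [← h2]
      exact sup_le (inf_le_right.trans le_sup_right) (by rw [h2]; exact le_sup_left)
    · exact sup_le_sup_right inf_le_left _
  have hdis : Disjoint Y (X ⊓ Z) := by
    rw [disjoint_iff]
    apply le_bot_iff.mp
    rw [← hZ.inf_eq_bot]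
    exact le_inf (le_inf (inf_le_right.trans inf_le_left) inf_le_left)
      (inf_le_right.trans inf_le_right)
  obtain ⟨Y', hY, hc⟩ := hdis.exists_isCompl
  refine ⟨(X ⊓ Z).projection Y' hc.symm, fun k => ?_, fun k hk => ?_⟩
  · exact (Submodule.projection_apply_mem hc.symm k).1
  · rw [hsup] at hk
    obtain ⟨x, hx, y, hy, rfl⟩ := Submodule.mem_sup.1 hk
    rw [map_add, Submodule.projection_apply_of_mem_left hc.symm hx,
      Submodule.projection_apply_of_mem_right hc.symm (hY hy), add_zero, add_sub_cancel_left]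
    exact hy

/-- a linear map with values in `X`, congruent to the identity modulo `Y` on `X + Y`. -/
noncomputable def pr (X Y : Submodule K B) : B →ₗ[K] B := Classical.choose (exists_proj X Y)

theorem pr_mem (X Y : Submodule K B) (k : B) : pr X Y k ∈ X :=
  (Classical.choose_spec (exists_proj X Y)).1 k

theorem sub_pr_mem (X Y : Submodule K B) {k : B} (h : k ∈ X ⊔ Y) : k - pr X Y k ∈ Y :=
  (Classical.choose_spec (exists_proj X Y)).2 k h

/-- the maps `u(x)` of the paper. -/
noncomputable def uu {V : Type*} [AddCommGroup V] (P3 : V → Submodule K B) (o x : V) : B →ₗ[K] B :=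
  - pr (P3 x) (P3 (x + o))

theorem uu_mem {V : Type*} [AddCommGroup V] (P3 : V → Submodule K B) (o x : V) (k : B) :
    uu P3 o x k ∈ P3 x := by
  unfold uu
  rw [LinearMap.neg_apply]
  exact Submodule.neg_mem _ (pr_mem _ _ _)

theorem add_uu_mem {V : Type*} [AddCommGroup V] (P3 : V → Submodule K B) (o x : V) {k : B}
    (h : k ∈ P3 x ⊔ P3 (x + o)) : k + uu P3 o x k ∈ P3 (x + o) := by
  unfold uu
  rw [LinearMap.neg_apply, ← sub_eq_add_neg]
  exact sub_pr_mem _ _ h

end AHC
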