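import Pool.Agent.Helper35.AHC.GoodSets
import Pool.Agent.Helper35.AHC.Av
import Pool.Agent.Helper35.AHC.Greedy

/-!
# Project AHC: definitions for the selection (section 3 of the memo).
-/

namespace AHC

open Module Submodule

variable {K : Type*} [Field K] {B : Type*} [AddCommGroup B] [Module K B]
  {V : Type*} [AddCommGroup V] [Fintype V]

/-- the potential `F(S; S', T) = E_{a,b} d(P(S[a]) | P(S'[b]) + P(S'[a+b]) + P(T))`. -/
noncomputable def FF (P : Finset V → Submodule K B) (S S' T : Finset V) : ℝ :=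
  av fun a => av fun b => (dd (P (ex S a)) (P (ex S' b) ⊔ P (ex S' (a + b)) ⊔ P T) : ℝ)

/-- the potential `s(T) = E_x d(P(S[x]) | P(T))`. -/
noncomputable def JJ (P : Finset V → Submodule K B) (S T : Finset V) : ℝ :=
  av fun x => (dd (P (ex S x)) (P T) : ℝ)

/-- stability of `FF`. -/
def Fst (P : Finset V → Submodule K B) (δ : ℝ) (S S' T : Finset V) : Prop :=
  FF P S S' T - av (fun s => FF P S (ex S' s) (ex T s)) ≤ δ

/-- stability of `JJ`. -/
def Jst (P : Finset V → Submodule K B) (δ : ℝ) (S T : Finset V) : Prop :=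
  JJ P S T - av (fun y => av fun z => JJ P S (ex (ex T y) z)) ≤ δ

/-- size bound for the last level. -/
def bet5 (k m : ℕ) : ℕ := (fun t => 9 * t)^[9 * m ^ 2 * k] m

/-- size bound: one level from the next. -/
def itb (β : ℕ → ℕ) (k m : ℕ) : ℕ := (fun t => β (3 * t))^[9 * m ^ 2 * k] (β m)

/-- the final size bound. -/
def bet (k m : ℕ) : ℕ := itb (itb (itb (itb (bet5 k) k) k) k) k m

end AHC
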