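import Pool.Agent.Helper35.AHC.Canon
import Pool.Agent.Helper35.AHC.SelDefs

/-!
# Project AHC, module AHC-17 (Quot): passing to the quotient by `W = P T`.

PROOF of dd_map_mkQ.  (X.map W.mkQ) ⊔ (Y.map W.mkQ) = (X ⊔ Y).map W.mkQ (Submodule.map_sup); for every Z,
dim (Z.map W.mkQ) + dim (Z ⊓ W) = dim Z (finrank_map_add with ker mkQ = W), i.e. dim (Z.map mkQ) = dim (Z ⊔ W) - dim W
(finrank_sup_add_finrank_inf_eq).  So dd (X.map) (Y.map) = dim (X ⊔ Y ⊔ W) - dim (Y ⊔ W) = dd X (Y ⊔ W).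
PROOF of quot_stab.  Q(S,a) := (P (ex S a)).map (P T).mkQ.  By dd_map_mkQ the first term is
dd (P (ex S a)) (P (ex S' b) ⊔ P (ex S' (a+b)) ⊔ P T) (sum = FF P S S' T, av_const for s), and the second term is
dd (P (ex S a)) (P (ex (ex S' s) b) ⊔ P (ex (ex S' s) (a+b)) ⊔ P T) >= the same with P (ex T s) instead of P T
(dd_mono, subset_ex); its average over a, b, s is (av_comm: bring s outside) >= av_s FF P S (ex S' s) (ex T s).
PROOF of quot_J.  In the quotient: dim (X' ⊓ (Y' ⊔ Z')) = dim X' - dd X' (Y' ⊔ Z') (dd_inf), where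
X' = (P (ex S x)).map mkQ etc.; dim X' = dd X' ⊥ = dd (P (ex S x)) (P T) (dd_map_mkQ with Y = ⊥), and
dd X' (Y' ⊔ Z') = dd (P (ex S x)) (P (ex S y) ⊔ P (ex S z) ⊔ P T) >= dd (P (ex S x)) (P (ex (ex T y) z)), since
ex S y ⊆ ex T y ⊆ ex (ex T y) z, ex S z ⊆ ex T z ⊆ ex (ex T y) z (ex_mono, subset_ex, ex_comm).
Average over x, y, z (x to the inside by av_comm): <= JJ P S T - av_y av_z JJ P S (ex (ex T y) z) <= delta.
-/

namespace AHC

open Module Submodule

variable {K : Type*} [Field K] {B : Type*} [AddCommGroup B] [Module K B] [FiniteDimensional K B]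
  {V : Type*} [AddCommGroup V]

omit [AddCommGroup V] in
theorem dd_map_mkQ (W X Y : Submodule K B) :
    dd (X.map W.mkQ) (Y.map W.mkQ) = dd X (Y ⊔ W) := by
  have key : ∀ Z : Submodule K B, finrank K ↥(Z.map W.mkQ) + finrank K ↥W =
      finrank K ↥(Z ⊔ W) := by
    intro Z
    have h1 := finrank_map_add W.mkQ Z
    have h2 := Submodule.finrank_sup_add_finrank_inf_eq Z W
    rw [Submodule.ker_mkQ] at h1
    omega
  have h1 := dd_add (X.map W.mkQ) (Y.map W.mkQ)
  have h2 := dd_add X (Y ⊔ W)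
  rw [← Submodule.map_sup] at h1
  rw [← sup_assoc] at h2
  have h3 := key (X ⊔ Y)
  have h4 := key Y
  omega

theorem quot_stab [Fintype V] (P : Finset V → Submodule K B) (hmono : ∀ S T, S ⊆ T → P S ≤ P T)
    (δ : ℝ) (S S' T : Finset V) (h : Fst P δ S S' T) :
    av (fun a => av fun b => av fun s =>
      ((dd ((P (ex S a)).map (P T).mkQ)
          ((P (ex S' b)).map (P T).mkQ ⊔ (P (ex S' (a + b))).map (P T).mkQ) : ℝ) -
        dd ((P (ex S a)).map (P T).mkQ)
          ((P (ex (ex S' s) b)).map (P T).mkQ ⊔ (P (ex (ex S' s) (a + b))).map (P T).mkQ))) ≤ δ := by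
  have hne : Nonempty V := ⟨0⟩
  refine le_trans (av_mono (h := fun a => av fun b => av fun s =>
      ((dd (P (ex S a)) (P (ex S' b) ⊔ P (ex S' (a + b)) ⊔ P T) : ℝ) -
        dd (P (ex S a)) (P (ex (ex S' s) b) ⊔ P (ex (ex S' s) (a + b)) ⊔ P (ex T s))))
      fun a => av_mono fun b => av_mono fun s => ?_) ?_
  · rw [← Submodule.map_sup, ← Submodule.map_sup, dd_map_mkQ, dd_map_mkQ]
    have h1 : dd (P (ex S a)) (P (ex (ex S' s) b) ⊔ P (ex (ex S' s) (a + b)) ⊔ P (ex T s)) ≤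
        dd (P (ex S a)) (P (ex (ex S' s) b) ⊔ P (ex (ex S' s) (a + b)) ⊔ P T) :=
      dd_mono le_rfl (sup_le_sup_left (hmono _ _ (subset_ex T s)) _)
    have h2 : (dd (P (ex S a)) (P (ex (ex S' s) b) ⊔ P (ex (ex S' s) (a + b)) ⊔ P (ex T s)) : ℝ) ≤
        dd (P (ex S a)) (P (ex (ex S' s) b) ⊔ P (ex (ex S' s) (a + b)) ⊔ P T) := by
      exact_mod_cast h1
    linarith
  · simp only [av_sub, av_const]
    have h1 : av (fun a => av fun b => av fun s =>
        (dd (P (ex S a)) (P (ex (ex S' s) b) ⊔ P (ex (ex S' s) (a + b)) ⊔ P (ex T s)) : ℝ)) =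
        av (fun s => FF P S (ex S' s) (ex T s)) := by
      have h2 : (fun a => av fun b => av fun s =>
          (dd (P (ex S a)) (P (ex (ex S' s) b) ⊔ P (ex (ex S' s) (a + b)) ⊔ P (ex T s)) : ℝ)) =
          fun a => av fun s => av fun b =>
          (dd (P (ex S a)) (P (ex (ex S' s) b) ⊔ P (ex (ex S' s) (a + b)) ⊔ P (ex T s)) : ℝ) := by
        funext a
        exact av_comm _
      rw [h2, av_comm]
      rfl
    rw [h1]
    exact h

theorem quot_J [Fintype V] (P : Finset V → Submodule K B) (hmono : ∀ S T, S ⊆ T → P S ≤ P T)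
    (δ : ℝ) (S T : Finset V) (hST : S ⊆ T) (h : Jst P δ S T) :
    av (fun x : V => av fun y : V => av fun z : V =>
      (finrank K ↥((P (ex S x)).map (P T).mkQ ⊓
        ((P (ex S y)).map (P T).mkQ ⊔ (P (ex S z)).map (P T).mkQ)) : ℝ)) ≤ δ := by
  have hne : Nonempty V := ⟨0⟩
  refine le_trans (av_mono (h := fun x => av fun y => av fun z =>
      ((dd (P (ex S x)) (P T) : ℝ) - dd (P (ex S x)) (P (ex (ex T y) z))))
      fun x => av_mono fun y => av_mono fun z => ?_) ?_
  · have h1 := dd_inf ((P (ex S x)).map (P T).mkQ)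
      ((P (ex S y)).map (P T).mkQ ⊔ (P (ex S z)).map (P T).mkQ)
    have h2 : finrank K ↥((P (ex S x)).map (P T).mkQ) = dd (P (ex S x)) (P T) := by
      have h3 := dd_map_mkQ (P T) (P (ex S x)) ⊥
      rw [Submodule.map_bot, dd_bot, bot_sup_eq] at h3
      exact h3
    have h4 : dd (P (ex S x)) (P (ex (ex T y) z)) ≤ dd ((P (ex S x)).map (P T).mkQ)
        ((P (ex S y)).map (P T).mkQ ⊔ (P (ex S z)).map (P T).mkQ) := by
      rw [← Submodule.map_sup, dd_map_mkQ]
      refine dd_mono le_rfl (sup_le (sup_le (hmono _ _ ?_) (hmono _ _ ?_)) (hmono _ _ ?_))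
      · exact (ex_mono hST y).trans (subset_ex _ z)
      · exact (ex_mono hST z).trans (ex_mono (subset_ex T y) z)
      · exact (subset_ex T y).trans (subset_ex _ z)
    have h5 : finrank K ↥((P (ex S x)).map (P T).mkQ ⊓
        ((P (ex S y)).map (P T).mkQ ⊔ (P (ex S z)).map (P T).mkQ)) +
        dd (P (ex S x)) (P (ex (ex T y) z)) ≤ dd (P (ex S x)) (P T) := by omega
    have h6 : (finrank K ↥((P (ex S x)).map (P T).mkQ ⊓
        ((P (ex S y)).map (P T).mkQ ⊔ (P (ex S z)).map (P T).mkQ)) : ℝ) +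
        dd (P (ex S x)) (P (ex (ex T y) z)) ≤ dd (P (ex S x)) (P T) := by exact_mod_cast h5
    linarith
  · simp only [av_sub, av_const]
    have h1 : av (fun x => av fun y => av fun z => (dd (P (ex S x)) (P (ex (ex T y) z)) : ℝ)) =
        av (fun y => av fun z => JJ P S (ex (ex T y) z)) := by
      rw [av_comm]
      congr 1
      funext y
      rw [av_comm]
      rfl
    rw [h1]
    exact h

end AHC
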