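import Pool.Agent.Helper35.AHC.SelDefs

/-!
# Project AHC, module AHC-14 (SelJ): the last level of the selection.

PROOF.  `greedy` with X = {T : Finset V // Good T ∧ S ⊆ T}, phi T = JJ P S T, size = card, g t = 9 * t,
delta = r / k, good T := Jst P (r/k) S T, N = 9 * S.card^2 * k, x0 = S.
If T is not good: av_y av_z JJ P S (ex (ex T y) z) < JJ P S T - r/k; exists_le_av twice gives y, z with
JJ P S (ex (ex T y) z) <= the average; T' = ex (ex T y) z (good_ex, subset_ex, card_ex twice: <= 9 * card).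
phi >= 0: av_nonneg.  phi x0 <= N * (r/k) = 9 * S.card^2 * r: dd_le, hdim (ex S x), card_ex:
(3 * S.card)^2 * r.
-/

namespace AHC

open Module Submodule

variable {K : Type*} [Field K] {B : Type*} [AddCommGroup B] [Module K B] [FiniteDimensional K B]
  {V : Type*} [AddCommGroup V] [Fintype V]

theorem sel_J (P : Finset V → Submodule K B) (r k : ℕ) (hk : 0 < k)
    (hdim : ∀ S : Finset V, finrank K ↥(P S) ≤ S.card ^ 2 * r) (S : Finset V) (hS : Good S) :
    ∃ T : Finset V, Good T ∧ S ⊆ T ∧ Jst P ((r : ℝ) / k) S T ∧ T.card ≤ bet5 k S.card := by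
  have hkR : (0 : ℝ) < (k : ℝ) := by exact_mod_cast hk
  have hstep : ∀ x : {T : Finset V // Good T ∧ S ⊆ T}, ¬ Jst P ((r : ℝ) / k) S x.1 →
      ∃ x' : {T : Finset V // Good T ∧ S ⊆ T},
        JJ P S x'.1 < JJ P S x.1 - (r : ℝ) / k ∧ x'.1.card ≤ 9 * x.1.card := by
    rintro ⟨T, hT, hST⟩ hn
    unfold Jst at hn
    push Not at hn
    obtain ⟨y, hy⟩ := exists_le_av (fun y => av fun z => JJ P S (ex (ex T y) z))
    obtain ⟨z, hz⟩ := exists_le_av (fun z => JJ P S (ex (ex T y) z))
    refine ⟨⟨ex (ex T y) z, good_ex (good_ex hT y) z,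
      hST.trans ((subset_ex T y).trans (subset_ex _ z))⟩, ?_, ?_⟩
    · dsimp only at hy hz hn ⊢
      linarith
    · dsimp only
      have h1 := card_ex (ex T y) z
      have h2 := card_ex T y
      omega
  obtain ⟨x, hx, hc⟩ := greedy (X := {T : Finset V // Good T ∧ S ⊆ T}) (fun x => JJ P S x.1)
    (fun x => Jst P ((r : ℝ) / k) S x.1) (fun x => x.1.card) (fun t => 9 * t)
    (fun a b h => Nat.mul_le_mul_left 9 h) (fun m => by omega) ((r : ℝ) / k) (by positivity)
    (fun x => av_nonneg fun y => Nat.cast_nonneg _) hstep (9 * S.card ^ 2 * k)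
    ⟨S, hS, subset_rfl⟩ (by
      refine av_le_const fun x => ?_
      have h1 : dd (P (ex S x)) (P S) ≤ 9 * S.card ^ 2 * r := by
        refine (dd_le _ _).trans ((hdim _).trans ?_)
        have h2 : (ex S x).card ^ 2 ≤ (3 * S.card) ^ 2 := Nat.pow_le_pow_left (card_ex S x) 2
        calc (ex S x).card ^ 2 * r ≤ (3 * S.card) ^ 2 * r := Nat.mul_le_mul_right r h2
          _ = 9 * S.card ^ 2 * r := by ring
      have h3 : ((dd (P (ex S x)) (P S) : ℕ) : ℝ) ≤ ((9 * S.card ^ 2 * r : ℕ) : ℝ) := by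
        exact_mod_cast h1
      refine h3.trans (le_of_eq ?_)
      push_cast
      field_simp)
  exact ⟨x.1, x.2.1, x.2.2, hx, hc⟩

end AHC
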