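import Pool.Agent.Helper35.AHC.GoodSets
import Pool.Agent.Helper35.AHC.Av

/-!
# Project AHC, module AHC-04 (SelfCor): self-correction.

PROOF.  For x, y, z:  [h(x+y)-h(y)] - [h(x+z)-h(z)] = Df h (x+z) (y-z) - Df h z (y-z)
(unfold Df; (x+z)+(y-z) = x+y, z+(y-z) = y; abel).  Hence for fixed x
  av_y av_z rk([h(x+y)-h(y)] - [h(x+z)-h(z)]) <= av_y av_z rk(Df h (x+z) (y-z)) + av_y av_z rk(Df h z (y-z));
by av_comm this is av_z av_y ..., and the substitution y -> y - z (av_shift_sub) for the inner variable, then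
z -> x + z (av_shift') for the outer one, turns both terms into av av rk(Df h . .) <= delta.  So the sum is
<= 2 delta, and by exists_le_av there is y_x with  av_z rk([h(x+y_x)-h(y_x)] - [h(x+z)-h(z)]) <= 2 delta   (1).
Put h'(x) = h(x+y_x) - h(y_x) (choose y_x by `choose`).
* For x, x': h'(x+x')-h'(x)-h'(x') = [h'(x+x') - (h(x+x'+z)-h(z))] - [h'(x) - (h(x+(x'+z)) - h(x'+z))]
  - [h'(x') - (h(x'+z)-h(z))] for every z.  Average over z (av_const on the left, av_shift' for the middle
  term, replacing z by x'+z): <= 2d+2d+2d.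
* h(x) - h'(x) = -[h'(x) - (h(x+z)-h(z))] - Df h x z; average over z, then over x: <= 2 delta + delta.
Ranks: rk_add, rk_sub, rk_neg.  Casts: `exact_mod_cast`, push_cast.
-/

namespace AHC

open Module Submodule

variable {K : Type*} [Field K] {A B : Type*} [AddCommGroup A] [Module K A]
  [AddCommGroup B] [Module K B] [FiniteDimensional K B] {V : Type*} [AddCommGroup V] [Fintype V]

theorem self_correct (h : V → A →ₗ[K] B) (δ : ℝ)
    (hδ : av (fun x => av fun y => (rk (Df h x y) : ℝ)) ≤ δ) :
    ∃ h' : V → A →ₗ[K] B, (∀ x y, (rk (Df h' x y) : ℝ) ≤ 6 * δ) ∧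
      av (fun x => (rk (h x - h' x) : ℝ)) ≤ 3 * δ := by
  have hne : Nonempty V := ⟨0⟩
  have hE : ∀ x y z : V, (rk ((h (x + y) - h y) - (h (x + z) - h z)) : ℝ) ≤
      (rk (Df h (x + z) (y - z)) : ℝ) + (rk (Df h z (y - z)) : ℝ) := by
    intro x y z
    have e : (h (x + y) - h y) - (h (x + z) - h z) =
        Df h (x + z) (y - z) - Df h z (y - z) := by
      unfold Df
      have e1 : x + z + (y - z) = x + y := by abel
      have e2 : z + (y - z) = y := by abel
      rw [e1, e2]
      abel
    rw [e]
    exact_mod_cast rk_sub _ _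
  have h1 : ∀ x : V, av (fun y => av fun z => (rk ((h (x + y) - h y) - (h (x + z) - h z)) : ℝ)) ≤
      2 * δ := by
    intro x
    have t1 : av (fun y => av fun z => (rk (Df h (x + z) (y - z)) : ℝ)) =
        av (fun x => av fun y => (rk (Df h x y) : ℝ)) := by
      rw [av_comm (fun y z => (rk (Df h (x + z) (y - z)) : ℝ))]
      have e : (fun z : V => av fun y => (rk (Df h (x + z) (y - z)) : ℝ)) =
          fun z => (fun w => av fun y => (rk (Df h w y) : ℝ)) (x + z) := by
        funext z
        exact av_shift_sub (fun y => (rk (Df h (x + z) y) : ℝ)) z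
      rw [e]
      exact av_shift' (fun w => av fun y => (rk (Df h w y) : ℝ)) x
    have t2 : av (fun y => av fun z => (rk (Df h z (y - z)) : ℝ)) =
        av (fun x => av fun y => (rk (Df h x y) : ℝ)) := by
      rw [av_comm (fun y z => (rk (Df h z (y - z)) : ℝ))]
      congr 1
      funext z
      exact av_shift_sub (fun y => (rk (Df h z y) : ℝ)) z
    have t3 : av (fun y => av fun z => (rk ((h (x + y) - h y) - (h (x + z) - h z)) : ℝ)) ≤
        av (fun y => av fun z =>
          ((rk (Df h (x + z) (y - z)) : ℝ) + (rk (Df h z (y - z)) : ℝ))) :=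
      av_mono fun y => av_mono fun z => hE x y z
    have t4 : av (fun y => av fun z =>
          ((rk (Df h (x + z) (y - z)) : ℝ) + (rk (Df h z (y - z)) : ℝ))) =
        av (fun y => av fun z => (rk (Df h (x + z) (y - z)) : ℝ)) +
          av (fun y => av fun z => (rk (Df h z (y - z)) : ℝ)) := by
      rw [← av_add]
      congr 1
      funext y
      exact av_add _ _
    rw [t4, t1, t2] at t3
    linarith
  have h2 : ∀ x : V, ∃ y : V,
      av (fun z => (rk ((h (x + y) - h y) - (h (x + z) - h z)) : ℝ)) ≤ 2 * δ := by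
    intro x
    obtain ⟨y, hy⟩ := exists_le_av
      (fun y => av fun z => (rk ((h (x + y) - h y) - (h (x + z) - h z)) : ℝ))
    exact ⟨y, hy.trans (h1 x)⟩
  choose Y hY using h2
  refine ⟨fun x => h (x + Y x) - h (Y x), ?_, ?_⟩
  · intro x x'
    set h' : V → A →ₗ[K] B := fun x => h (x + Y x) - h (Y x) with hh'
    have hY' : ∀ x, av (fun z => (rk (h' x - (h (x + z) - h z)) : ℝ)) ≤ 2 * δ := hY
    have hpt : ∀ z : V, (rk (Df h' x x') : ℝ) ≤
        (rk (h' (x + x') - (h (x + x' + z) - h z)) : ℝ) +
        ((rk (h' x - (h (x + (x' + z)) - h (x' + z))) : ℝ) +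
        (rk (h' x' - (h (x' + z) - h z)) : ℝ)) := by
      intro z
      have e : Df h' x x' = (h' (x + x') - (h (x + x' + z) - h z)) -
          ((h' x - (h (x + (x' + z)) - h (x' + z))) + (h' x' - (h (x' + z) - h z))) := by
        unfold Df
        rw [add_assoc x x' z]
        abel
      rw [e]
      have r1 := rk_sub (h' (x + x') - (h (x + x' + z) - h z))
        ((h' x - (h (x + (x' + z)) - h (x' + z))) + (h' x' - (h (x' + z) - h z)))
      have r2 := rk_add (h' x - (h (x + (x' + z)) - h (x' + z))) (h' x' - (h (x' + z) - h z))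
      exact_mod_cast r1.trans (Nat.add_le_add_left r2 _)
    have hav := av_mono hpt
    rw [av_const, av_add, av_add] at hav
    have a1 := hY' (x + x')
    have a2 : av (fun z => (rk (h' x - (h (x + (x' + z)) - h (x' + z))) : ℝ)) ≤ 2 * δ := by
      have e := av_shift' (fun w => (rk (h' x - (h (x + w) - h w)) : ℝ)) x'
      rw [e]
      exact hY' x
    have a3 := hY' x'
    linarith
  · set h' : V → A →ₗ[K] B := fun x => h (x + Y x) - h (Y x) with hh'
    have hY' : ∀ x, av (fun z => (rk (h' x - (h (x + z) - h z)) : ℝ)) ≤ 2 * δ := hY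
    have hpt : ∀ x z : V, (rk (h x - h' x) : ℝ) ≤
        (rk (h' x - (h (x + z) - h z)) : ℝ) + (rk (Df h x z) : ℝ) := by
      intro x z
      have e : h x - h' x = -((h' x - (h (x + z) - h z)) + Df h x z) := by
        unfold Df
        abel
      rw [e, rk_neg]
      exact_mod_cast rk_add _ _
    have hx : ∀ x : V, (rk (h x - h' x) : ℝ) ≤ 2 * δ + av (fun z => (rk (Df h x z) : ℝ)) := by
      intro x
      have hav := av_mono (hpt x)
      rw [av_const, av_add] at hav
      have := hY' x
      linarith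
    have hav := av_mono hx
    rw [av_add, av_const] at hav
    change av (fun x => (rk (h x - h' x) : ℝ)) ≤ 3 * δ
    linarith

end AHC
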