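import Pool.Agent.Helper35.AHC.UOne
import Pool.Agent.Helper35.AHC.Av

/-!
# Project AHC, module AHC-24 (UAvOne): the average of (U1).

PROOF.  Average u_one over o, x0, x, y (casts; av_mono, av_add).  The ten terms, each <= η:
 1. dd (Kc P2 P3 o x0) (Kc P2 P3 o x): hS.c2 reads av_a av_b av_b' dd (Kc a b') (Kc a b): a = o, b' = x0, b = x
    (av_comm), av_const for y.
 2. same with y.  3. same with x + y: for fixed o, x0, y shift x (av_shift).
 4. dd (Kc P3 P4 x o) (Kc P3 P4 x y): hS.c3 with a = x, b' = o, b = y.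
 5. dd (Kc P3 P4 (x+o) (-o)) (Kc P3 P4 (x+o) y): for fixed o shift x (av_shift), then av_neg in o, then as 4.
 6., 7. same with x, y exchanged.
 8. finrank (P4 (x+y) ⊓ (P4 y ⊔ P4 (x+y+o))): for fixed x, y replace o by (x+y)+o (av_shift'); then for fixed
    y (and o) shift x by y; = av av av finrank (P4 x ⊓ (P4 y ⊔ P4 o)) <= η (hS.j).
 9. finrank (P4 (x+y) ⊓ (P4 x ⊔ P4 (x+y+o))): same with x, y exchanged.
 10. finrank (P4 x ⊓ P4 y) <= finrank (P4 x ⊓ (P4 y ⊔ P4 o)) (finrank_mono), hS.j.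
Here (P4 x ⊓ ...) in hS.j is av_x av_y av_z finrank (P4 x ⊓ (P4 y ⊔ P4 z)).
-/

namespace AHC

open Module Submodule

variable {K : Type*} [Field K] {B : Type*} [AddCommGroup B] [Module K B] [FiniteDimensional K B]
  {V : Type*} [AddCommGroup V] [Fintype V]

private noncomputable def av4 {V : Type*} [Fintype V] (g : V → V → V → V → ℝ) : ℝ :=
  av fun o => av fun x0 => av fun x => av fun y => g o x0 x y

private theorem av4_mono {V : Type*} [Fintype V] {g h : V → V → V → V → ℝ}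
    (H : ∀ o x0 x y, g o x0 x y ≤ h o x0 x y) : av4 g ≤ av4 h :=
  av_mono fun o => av_mono fun x0 => av_mono fun x => av_mono fun y => H o x0 x y

private theorem av4_add {V : Type*} [Fintype V] (g h : V → V → V → V → ℝ) :
    av4 (fun o x0 x y => g o x0 x y + h o x0 x y) = av4 g + av4 h := by
  unfold av4
  simp only [av_add]

private theorem av_three {V : Type*} [Fintype V] (G : V → V → V → ℝ) :
    av (fun o => av fun x => av fun y => G x y o) = av fun x => av fun y => av fun o => G x y o := by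
  rw [av_comm (fun o x => av fun y => G x y o)]
  congr 1
  ext x
  exact av_comm (fun o y => G x y o)

theorem u_av_one (P0 P1 P2 P3 P4 : V → Submodule K B) (R : V → V → Submodule K B) (η : ℝ)
    (hS : Sel P0 P1 P2 P3 P4 R η) :
    av (fun o => av fun x0 => av fun x => av fun y =>
      (finrank K ↥((Kc P2 P3 o x0).map (uu P3 o x + uu P3 o y - uu P3 o (x + y))) : ℝ))
      ≤ 10 * η := by
  haveI : Nonempty V := ⟨0⟩
  have hle : av4 (fun o x0 x y =>
      (finrank K ↥((Kc P2 P3 o x0).map (uu P3 o x + uu P3 o y - uu P3 o (x + y))) : ℝ)) ≤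
      av4 (fun o x0 x y =>
        ((((((((((dd (Kc P2 P3 o x0) (Kc P2 P3 o x) : ℝ) + (dd (Kc P2 P3 o x0) (Kc P2 P3 o y) : ℝ))
        + (dd (Kc P2 P3 o x0) (Kc P2 P3 o (x + y)) : ℝ))
        + (dd (Kc P3 P4 x o) (Kc P3 P4 x y) : ℝ))
        + (dd (Kc P3 P4 (x + o) (-o)) (Kc P3 P4 (x + o) y) : ℝ))
        + (dd (Kc P3 P4 y o) (Kc P3 P4 y x) : ℝ))
        + (dd (Kc P3 P4 (y + o) (-o)) (Kc P3 P4 (y + o) x) : ℝ))
        + (finrank K ↥(P4 (x + y) ⊓ (P4 y ⊔ P4 (x + y + o))) : ℝ))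
        + (finrank K ↥(P4 (x + y) ⊓ (P4 x ⊔ P4 (x + y + o))) : ℝ))
        + (finrank K ↥(P4 x ⊓ P4 y) : ℝ))) := by
    apply av4_mono
    intro o x0 x y
    have h := u_one P2 P3 P4 hS.neg4 hS.le23 hS.le34 o x0 x y
    have h' := (Nat.cast_le (α := ℝ)).2 h
    push_cast at h'
    exact h'
  have c2 := hS.c2
  have c3 := hS.c3
  have hj := hS.j
  -- the function of `c2`
  have e2 : av (fun o : V => av fun x0 : V => av fun x : V =>
      (dd (Kc P2 P3 o x0) (Kc P2 P3 o x) : ℝ)) ≤ η := by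
    refine le_trans (le_of_eq ?_) c2
    congr 1
    ext o
    exact av_comm (fun x0 x => (dd (Kc P2 P3 o x0) (Kc P2 P3 o x) : ℝ))
  have e3 : av (fun o : V => av fun x : V => av fun y : V =>
      (dd (Kc P3 P4 x o) (Kc P3 P4 x y) : ℝ)) ≤ η := by
    refine le_trans (le_of_eq ?_) c3
    exact av_three (fun x y o => (dd (Kc P3 P4 x o) (Kc P3 P4 x y) : ℝ))
  have e3' : av (fun o : V => av fun x : V => av fun y : V =>
      (dd (Kc P3 P4 (x + o) (-o)) (Kc P3 P4 (x + o) y) : ℝ)) ≤ η := by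
    refine le_trans (le_of_eq ?_) e3
    have h1 : av (fun o : V => av fun x : V => av fun y : V =>
        (dd (Kc P3 P4 (x + o) (-o)) (Kc P3 P4 (x + o) y) : ℝ)) =
        av (fun o : V => av fun x : V => av fun y : V =>
        (dd (Kc P3 P4 x (-o)) (Kc P3 P4 x y) : ℝ)) := by
      congr 1
      ext o
      exact av_shift (fun x => av fun y : V => (dd (Kc P3 P4 x (-o)) (Kc P3 P4 x y) : ℝ)) o
    rw [h1]
    exact av_neg (fun o => av fun x : V => av fun y : V => (dd (Kc P3 P4 x o) (Kc P3 P4 x y) : ℝ))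
  have t1 : av4 (fun o x0 x _ => (dd (Kc P2 P3 o x0) (Kc P2 P3 o x) : ℝ)) ≤ η := by
    unfold av4
    simp only [av_const]
    exact e2
  have t2 : av4 (fun o x0 _ y => (dd (Kc P2 P3 o x0) (Kc P2 P3 o y) : ℝ)) ≤ η := by
    unfold av4
    simp only [av_const]
    exact e2
  have t3 : av4 (fun o x0 x y => (dd (Kc P2 P3 o x0) (Kc P2 P3 o (x + y)) : ℝ)) ≤ η := by
    refine le_trans (le_of_eq ?_) e2
    unfold av4
    congr 1
    ext o
    congr 1
    ext x0
    rw [av2_add' (fun _ y => (dd (Kc P2 P3 o x0) (Kc P2 P3 o y) : ℝ)), av_const]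
  have t4 : av4 (fun o _ x y => (dd (Kc P3 P4 x o) (Kc P3 P4 x y) : ℝ)) ≤ η := by
    unfold av4
    simp only [av_const]
    exact e3
  have t5 : av4 (fun o _ x y => (dd (Kc P3 P4 (x + o) (-o)) (Kc P3 P4 (x + o) y) : ℝ)) ≤ η := by
    unfold av4
    simp only [av_const]
    exact e3'
  have t6 : av4 (fun o _ x y => (dd (Kc P3 P4 y o) (Kc P3 P4 y x) : ℝ)) ≤ η := by
    unfold av4
    simp only [av_const]
    refine le_trans (le_of_eq ?_) e3
    congr 1
    ext o
    exact av_comm (fun x y => (dd (Kc P3 P4 y o) (Kc P3 P4 y x) : ℝ))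
  have t7 : av4 (fun o _ x y => (dd (Kc P3 P4 (y + o) (-o)) (Kc P3 P4 (y + o) x) : ℝ)) ≤ η := by
    unfold av4
    simp only [av_const]
    refine le_trans (le_of_eq ?_) e3'
    congr 1
    ext o
    exact av_comm (fun x y => (dd (Kc P3 P4 (y + o) (-o)) (Kc P3 P4 (y + o) x) : ℝ))
  have t8 : av4 (fun o _ x y =>
      (finrank K ↥(P4 (x + y) ⊓ (P4 y ⊔ P4 (x + y + o))) : ℝ)) ≤ η := by
    unfold av4
    simp only [av_const]
    refine le_trans (le_of_eq ?_) hj
    rw [av_three (fun x y o => (finrank K ↥(P4 (x + y) ⊓ (P4 y ⊔ P4 (x + y + o))) : ℝ))]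
    have h1 : ∀ x y : V, av (fun o : V =>
        (finrank K ↥(P4 (x + y) ⊓ (P4 y ⊔ P4 (x + y + o))) : ℝ)) =
        av (fun o : V => (finrank K ↥(P4 (x + y) ⊓ (P4 y ⊔ P4 o)) : ℝ)) := fun x y =>
      av_shift' (fun o => (finrank K ↥(P4 (x + y) ⊓ (P4 y ⊔ P4 o)) : ℝ)) (x + y)
    simp only [h1]
    exact av2_add (fun x y => av (fun o : V => (finrank K ↥(P4 x ⊓ (P4 y ⊔ P4 o)) : ℝ)))
  have t9 : av4 (fun o _ x y =>
      (finrank K ↥(P4 (x + y) ⊓ (P4 x ⊔ P4 (x + y + o))) : ℝ)) ≤ η := by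
    unfold av4
    simp only [av_const]
    refine le_trans (le_of_eq ?_) hj
    rw [av_three (fun x y o => (finrank K ↥(P4 (x + y) ⊓ (P4 x ⊔ P4 (x + y + o))) : ℝ))]
    have h1 : ∀ x y : V, av (fun o : V =>
        (finrank K ↥(P4 (x + y) ⊓ (P4 x ⊔ P4 (x + y + o))) : ℝ)) =
        av (fun o : V => (finrank K ↥(P4 (y + x) ⊓ (P4 x ⊔ P4 o)) : ℝ)) := fun x y => by
      rw [add_comm y x]
      exact av_shift' (fun o => (finrank K ↥(P4 (x + y) ⊓ (P4 x ⊔ P4 o)) : ℝ)) (x + y)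
    simp only [h1]
    rw [av_comm (fun x y => av (fun o : V => (finrank K ↥(P4 (y + x) ⊓ (P4 x ⊔ P4 o)) : ℝ)))]
    exact av2_add (fun x y => av (fun o : V => (finrank K ↥(P4 x ⊓ (P4 y ⊔ P4 o)) : ℝ)))
  have t10 : av4 (fun _ _ x y => (finrank K ↥(P4 x ⊓ P4 y) : ℝ)) ≤ η := by
    unfold av4
    simp only [av_const]
    refine le_trans ?_ hj
    apply av_mono
    intro x
    apply av_mono
    intro y
    refine le_trans (le_of_eq (av_const (V := V) _).symm) ?_
    apply av_mono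
    intro o
    exact_mod_cast Submodule.finrank_mono (inf_le_inf_left _ le_sup_left)
  have hsum := hle
  simp only [av4_add] at hsum
  change av4 (fun o x0 x y =>
      (finrank K ↥((Kc P2 P3 o x0).map (uu P3 o x + uu P3 o y - uu P3 o (x + y))) : ℝ)) ≤ 10 * η
  linarith

end AHC
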