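import Pool.Agent.Helper35.AHC.UTwo
import Pool.Agent.Helper35.AHC.Av

/-!
# Project AHC, module AHC-25 (UAvTwo): the averages of (U2) and (U3).

PROOF of u_av_two.  dd (Kc P1 P2 a b) (KK.map (u a)) <= dd (Kc P1 P2 a b) (Kc P1 P2 a o)
+ dd (Kc P1 P2 a o) (KK.map (u a)) (dd_triangle) <= dd (Kc P1 P2 a b) (Kc P1 P2 a o) + dd (Kc P2 P3 o a) (Kc P2 P3 o x0)
+ finrank (P3 a ⊓ P3 (a+o)) (u_two).  Averages over o, x0, a, b: hS.c1 (a, b := o, b' := b), hS.c2 (a := o,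
b := x0, b' := a), and finrank (P3 a ⊓ P3 (a+o)) <= finrank (P4 a ⊓ (P4 (a+o) ⊔ P4 x0)) (le34, finrank_mono),
shift o by a (av_shift'), hS.j.
PROOF of u_av_three.  u_three: dd (Kc P2 P3 o x0) (Kc P2 P3 o x): hS.c2; finrank (P3 x ⊓ (P3 y ⊔ P3 z)) <=
finrank (P4 x ⊓ (P4 y ⊔ P4 z)): hS.j; finrank (P2 o ⊓ P3 (x+o)) <= finrank (P4 o ⊓ (P4 (x+o) ⊔ P4 y)): shift x
(av_shift), hS.j.  Unused variables: av_const.
-/

namespace AHC

open Module Submodule

variable {K : Type*} [Field K] {B : Type*} [AddCommGroup B] [Module K B] [FiniteDimensional K B]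
  {V : Type*} [AddCommGroup V] [Fintype V]

theorem u_av_two (P0 P1 P2 P3 P4 : V → Submodule K B) (R : V → V → Submodule K B) (η : ℝ)
    (hS : Sel P0 P1 P2 P3 P4 R η) :
    av (fun o => av fun x0 => av fun a => av fun b =>
      (dd (Kc P1 P2 a b) ((Kc P2 P3 o x0).map (uu P3 o a)) : ℝ)) ≤ 3 * η := by
  have hp : ∀ o x0 a b, (dd (Kc P1 P2 a b) ((Kc P2 P3 o x0).map (uu P3 o a)) : ℝ) ≤
      (dd (Kc P1 P2 a b) (Kc P1 P2 a o) : ℝ) + (dd (Kc P2 P3 o a) (Kc P2 P3 o x0) : ℝ) +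
        (finrank K ↥(P4 a ⊓ (P4 (a + o) ⊔ P4 x0)) : ℝ) := by
    intro o x0 a b
    have h1 := dd_triangle (Kc P1 P2 a b) (Kc P1 P2 a o) ((Kc P2 P3 o x0).map (uu P3 o a))
    have h2 := u_two P1 P2 P3 hS.le12 hS.le23 o x0 a
    have h3 : finrank K ↥(P3 a ⊓ P3 (a + o)) ≤ finrank K ↥(P4 a ⊓ (P4 (a + o) ⊔ P4 x0)) :=
      Submodule.finrank_mono (inf_le_inf (hS.le34 a) ((hS.le34 _).trans le_sup_left))
    have h4 : dd (Kc P1 P2 a b) ((Kc P2 P3 o x0).map (uu P3 o a)) ≤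
        dd (Kc P1 P2 a b) (Kc P1 P2 a o) + dd (Kc P2 P3 o a) (Kc P2 P3 o x0) +
        finrank K ↥(P4 a ⊓ (P4 (a + o) ⊔ P4 x0)) := by omega
    exact_mod_cast h4
  have h0 := av_mono fun o => av_mono fun x0 => av_mono fun a => av_mono fun b => hp o x0 a b
  refine h0.trans ?_
  simp only [av_add]
  have e1 : (av fun o : V => av fun _ : V => av fun a : V => av fun b : V =>
      (dd (Kc P1 P2 a b) (Kc P1 P2 a o) : ℝ)) ≤ η := by
    simp only [av_const]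
    rw [av_comm]
    exact hS.c1
  have e2 : (av fun o : V => av fun x0 : V => av fun a : V => av fun _ : V =>
      (dd (Kc P2 P3 o a) (Kc P2 P3 o x0) : ℝ)) ≤ η := by
    simp only [av_const]
    exact hS.c2
  have e3 : (av fun o : V => av fun x0 : V => av fun a : V => av fun _ : V =>
      (finrank K ↥(P4 a ⊓ (P4 (a + o) ⊔ P4 x0)) : ℝ)) ≤ η := by
    simp only [av_const]
    have k1 : (av fun o : V => av fun x0 : V => av fun a : V =>
        (finrank K ↥(P4 a ⊓ (P4 (a + o) ⊔ P4 x0)) : ℝ)) =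
        av fun a : V => av fun o : V => av fun x0 : V =>
        (finrank K ↥(P4 a ⊓ (P4 (a + o) ⊔ P4 x0)) : ℝ) := by
      have k2 : ∀ o : V, (av fun x0 : V => av fun a : V =>
          (finrank K ↥(P4 a ⊓ (P4 (a + o) ⊔ P4 x0)) : ℝ)) = av fun a : V => av fun x0 : V =>
          (finrank K ↥(P4 a ⊓ (P4 (a + o) ⊔ P4 x0)) : ℝ) := fun o => av_comm _
      simp only [k2]
      exact av_comm _
    rw [k1]
    have k3 : ∀ a : V, (av fun o : V => av fun x0 : V =>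
        (finrank K ↥(P4 a ⊓ (P4 (a + o) ⊔ P4 x0)) : ℝ)) = av fun o : V => av fun x0 : V =>
        (finrank K ↥(P4 a ⊓ (P4 o ⊔ P4 x0)) : ℝ) := fun a =>
      av_shift' (fun o : V => av fun x0 : V => (finrank K ↥(P4 a ⊓ (P4 o ⊔ P4 x0)) : ℝ)) a
    simp only [k3]
    exact hS.j
  linarith

theorem u_av_three (P0 P1 P2 P3 P4 : V → Submodule K B) (R : V → V → Submodule K B) (η : ℝ)
    (hS : Sel P0 P1 P2 P3 P4 R η) :
    av (fun o => av fun x0 => av fun x => av fun y => av fun z =>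
      (finrank K ↥(Kc P2 P3 o x0 ⊓ ((Kc P2 P3 o x0).map (uu P3 o y) ⊔
        (Kc P2 P3 o x0).map (uu P3 o z)).comap (uu P3 o x)) : ℝ)) ≤ 3 * η := by
  have hp : ∀ o x0 x y z, (finrank K ↥(Kc P2 P3 o x0 ⊓ ((Kc P2 P3 o x0).map (uu P3 o y) ⊔
        (Kc P2 P3 o x0).map (uu P3 o z)).comap (uu P3 o x)) : ℝ) ≤
      (dd (Kc P2 P3 o x0) (Kc P2 P3 o x) : ℝ) + (finrank K ↥(P4 x ⊓ (P4 y ⊔ P4 z)) : ℝ) +
        (finrank K ↥(P4 o ⊓ (P4 (x + o) ⊔ P4 y)) : ℝ) := by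
    intro o x0 x y z
    have h2 := u_three P2 P3 o x0 x y z
    have h3 : finrank K ↥(P3 x ⊓ (P3 y ⊔ P3 z)) ≤ finrank K ↥(P4 x ⊓ (P4 y ⊔ P4 z)) :=
      Submodule.finrank_mono (inf_le_inf (hS.le34 x) (sup_le_sup (hS.le34 y) (hS.le34 z)))
    have h5 : finrank K ↥(P2 o ⊓ P3 (x + o)) ≤ finrank K ↥(P4 o ⊓ (P4 (x + o) ⊔ P4 y)) :=
      Submodule.finrank_mono (inf_le_inf ((hS.le23 o).trans (hS.le34 o))
        ((hS.le34 _).trans le_sup_left))
    have h4 := h2.trans (add_le_add (add_le_add le_rfl h3) h5)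
    exact_mod_cast h4
  have h0 := av_mono fun o => av_mono fun x0 => av_mono fun x => av_mono fun y =>
    av_mono fun z => hp o x0 x y z
  refine h0.trans ?_
  simp only [av_add]
  have e1 : (av fun o : V => av fun x0 : V => av fun x : V => av fun _ : V => av fun _ : V =>
      (dd (Kc P2 P3 o x0) (Kc P2 P3 o x) : ℝ)) ≤ η := by
    simp only [av_const]
    have k2 : ∀ o : V, (av fun x0 : V => av fun x : V =>
        (dd (Kc P2 P3 o x0) (Kc P2 P3 o x) : ℝ)) = av fun x : V => av fun x0 : V =>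
        (dd (Kc P2 P3 o x0) (Kc P2 P3 o x) : ℝ) := fun o => av_comm _
    simp only [k2]
    exact hS.c2
  have e2 : (av fun _ : V => av fun _ : V => av fun x : V => av fun y : V => av fun z : V =>
      (finrank K ↥(P4 x ⊓ (P4 y ⊔ P4 z)) : ℝ)) ≤ η := by
    simp only [av_const]
    exact hS.j
  have e3 : (av fun o : V => av fun _ : V => av fun x : V => av fun y : V => av fun _ : V =>
      (finrank K ↥(P4 o ⊓ (P4 (x + o) ⊔ P4 y)) : ℝ)) ≤ η := by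
    simp only [av_const]
    have k3 : ∀ o : V, (av fun x : V => av fun y : V =>
        (finrank K ↥(P4 o ⊓ (P4 (x + o) ⊔ P4 y)) : ℝ)) = av fun x : V => av fun y : V =>
        (finrank K ↥(P4 o ⊓ (P4 x ⊔ P4 y)) : ℝ) := fun o =>
      av_shift (fun x : V => av fun y : V => (finrank K ↥(P4 o ⊓ (P4 x ⊔ P4 y)) : ℝ)) o
    simp only [k3]
    exact hS.j
  linarith

end AHC
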