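import Pool.Agent.Helper35.AHC.TAv
import Pool.Agent.Helper35.AHC.UAvOne
import Pool.Agent.Helper35.AHC.UAvTwo

/-!
# Project AHC, module AHC-29 (StepS): the second gauge.

PROOF.  For o, x0: KK = Kc P2 P3 o x0, u = uu P3 o, thm_T.  Let e4(o,x0), U1(o,x0), U3(o,x0) be the three averages on the
right of thm_T.  rkm (Df h x y) (KK.map (u x) ⊔ KK.map (u y)) <= rkm (Df h x y) (Kc P1 P2 x y ⊔ Kc P1 P2 y x)
 + dd (Kc P1 P2 x y) (KK.map (u x)) + dd (Kc P1 P2 y x) (KK.map (u y)) (rkm_triangle, dd_sup_sup), so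
av_o av_x0 e4 <= e3 + 2 * 3 η (u_av_two; av_comm for x, y in the last term).  With u_av_one, u_av_three:
av_o av_x0 (11 e4 + 5 U1 + 3 U3) <= 11 e3 + 66 η + 50 η + 9 η = 11 e3 + 125 η; exists_le_av twice gives o, x0.
F x = h x - u x ∘ₗ ψ x; h x - F x = u x ∘ₗ ψ x, rk <= dim KK <= dim (P2 o) (range ψ x ≤ KK ≤ P2 o; rk_comp_le_right).
-/

namespace AHC

open Module Submodule

variable {K : Type*} [Field K] {A B : Type*} [AddCommGroup A] [Module K A]
  [FiniteDimensional K A] [AddCommGroup B] [Module K B] [FiniteDimensional K B]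
  {V : Type*} [AddCommGroup V] [Fintype V]

theorem step_S (P0 P1 P2 P3 P4 : V → Submodule K B) (R : V → V → Submodule K B) (η : ℝ)
    (hS : Sel P0 P1 P2 P3 P4 R η) (h : V → A →ₗ[K] B) (e3 : ℝ)
    (he : av (fun a => av fun b =>
      (rkm (Df h a b) (Kc P1 P2 a b ⊔ Kc P1 P2 b a) : ℝ)) ≤ e3) :
    ∃ (o : V) (F : V → A →ₗ[K] B), (∀ x, rk (h x - F x) ≤ finrank K ↥(P2 o)) ∧
      av (fun x => av fun y => (rk (Df F x y) : ℝ)) ≤ 11 * e3 + 125 * η := by
  haveI : Nonempty V := ⟨0⟩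
  set E4 : V → V → ℝ := fun o x0 => av fun x => av fun y =>
    (rkm (Df h x y) ((Kc P2 P3 o x0).map (uu P3 o x) ⊔ (Kc P2 P3 o x0).map (uu P3 o y)) : ℝ)
    with hE4
  set U1 : V → V → ℝ := fun o x0 => av fun x => av fun y =>
    (finrank K ↥((Kc P2 P3 o x0).map (uu P3 o x + uu P3 o y - uu P3 o (x + y))) : ℝ) with hU1
  set U3 : V → V → ℝ := fun o x0 => av fun x => av fun y => av fun z =>
    (finrank K ↥(Kc P2 P3 o x0 ⊓ ((Kc P2 P3 o x0).map (uu P3 o y) ⊔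
        (Kc P2 P3 o x0).map (uu P3 o z)).comap (uu P3 o x)) : ℝ) with hU3
  have h1 : av (fun o => av fun x0 => U1 o x0) ≤ 10 * η :=
    u_av_one P0 P1 P2 P3 P4 R η hS
  have h3 : av (fun o => av fun x0 => U3 o x0) ≤ 3 * η :=
    u_av_three P0 P1 P2 P3 P4 R η hS
  have h2 := u_av_two P0 P1 P2 P3 P4 R η hS
  have h4 : av (fun o => av fun x0 => E4 o x0) ≤ e3 + 3 * η + 3 * η := by
    have hpt : ∀ o x0 x y : V,
        (rkm (Df h x y) ((Kc P2 P3 o x0).map (uu P3 o x) ⊔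
          (Kc P2 P3 o x0).map (uu P3 o y)) : ℝ) ≤
        (rkm (Df h x y) (Kc P1 P2 x y ⊔ Kc P1 P2 y x) : ℝ)
        + (dd (Kc P1 P2 x y) ((Kc P2 P3 o x0).map (uu P3 o x)) : ℝ)
        + (dd (Kc P1 P2 y x) ((Kc P2 P3 o x0).map (uu P3 o y)) : ℝ) := by
      intro o x0 x y
      have a1 := rkm_triangle (Df h x y) ((Kc P2 P3 o x0).map (uu P3 o x) ⊔
          (Kc P2 P3 o x0).map (uu P3 o y)) (Kc P1 P2 x y ⊔ Kc P1 P2 y x)
      have a2 := dd_sup_sup (Kc P1 P2 x y) (Kc P1 P2 y x) ((Kc P2 P3 o x0).map (uu P3 o x))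
        ((Kc P2 P3 o x0).map (uu P3 o y))
      have a3 := a1.trans (Nat.add_le_add_left a2 _)
      have a4 : ((rkm (Df h x y) ((Kc P2 P3 o x0).map (uu P3 o x) ⊔
          (Kc P2 P3 o x0).map (uu P3 o y)) : ℕ) : ℝ) ≤
          ((rkm (Df h x y) (Kc P1 P2 x y ⊔ Kc P1 P2 y x) +
            (dd (Kc P1 P2 x y) ((Kc P2 P3 o x0).map (uu P3 o x)) +
            dd (Kc P1 P2 y x) ((Kc P2 P3 o x0).map (uu P3 o y))) : ℕ) : ℝ) := by
        exact_mod_cast a3
      push_cast at a4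
      linarith
    have hav : av (fun o => av fun x0 => E4 o x0) ≤
        av (fun o : V => av fun x0 : V => (av (fun a => av fun b =>
          (rkm (Df h a b) (Kc P1 P2 a b ⊔ Kc P1 P2 b a) : ℝ))
        + av (fun x => av fun y => (dd (Kc P1 P2 x y) ((Kc P2 P3 o x0).map (uu P3 o x)) : ℝ))
        + av (fun x => av fun y =>
          (dd (Kc P1 P2 y x) ((Kc P2 P3 o x0).map (uu P3 o y)) : ℝ)))) := by
      refine av_mono fun o => av_mono fun x0 => ?_
      rw [← av_add, ← av_add]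
      refine av_mono fun x => ?_
      rw [← av_add, ← av_add]
      exact av_mono fun y => hpt o x0 x y
    refine hav.trans ?_
    have e1 : ∀ o : V, av (fun x0 : V => (av (fun a => av fun b =>
          (rkm (Df h a b) (Kc P1 P2 a b ⊔ Kc P1 P2 b a) : ℝ))
        + av (fun x => av fun y => (dd (Kc P1 P2 x y) ((Kc P2 P3 o x0).map (uu P3 o x)) : ℝ))
        + av (fun x => av fun y =>
          (dd (Kc P1 P2 y x) ((Kc P2 P3 o x0).map (uu P3 o y)) : ℝ)))) =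
        av (fun a => av fun b =>
          (rkm (Df h a b) (Kc P1 P2 a b ⊔ Kc P1 P2 b a) : ℝ))
        + av (fun x0 => av (fun x => av fun y =>
          (dd (Kc P1 P2 x y) ((Kc P2 P3 o x0).map (uu P3 o x)) : ℝ)))
        + av (fun x0 => av (fun x => av fun y =>
          (dd (Kc P1 P2 x y) ((Kc P2 P3 o x0).map (uu P3 o x)) : ℝ))) := by
      intro o
      rw [av_add, av_add, av_const]
      congr 1
      congr 1
      funext x0
      rw [av_comm]
    simp_rw [e1]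
    rw [av_add, av_add, av_const]
    linarith
  have h5 : av (fun o => av fun x0 => (11 * E4 o x0 + 5 * U1 o x0 + 3 * U3 o x0)) ≤
      11 * e3 + 125 * η := by
    have e1 : ∀ o, av (fun x0 => (11 * E4 o x0 + 5 * U1 o x0 + 3 * U3 o x0)) =
        11 * av (fun x0 => E4 o x0) + 5 * av (fun x0 => U1 o x0) +
          3 * av (fun x0 => U3 o x0) := by
      intro o
      rw [av_add, av_add, av_mul, av_mul, av_mul]
    simp_rw [e1]
    rw [av_add, av_add, av_mul, av_mul, av_mul]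
    linarith
  obtain ⟨o, ho⟩ := exists_le_av (fun o => av fun x0 =>
    (11 * E4 o x0 + 5 * U1 o x0 + 3 * U3 o x0))
  obtain ⟨x0, hx0⟩ := exists_le_av (fun x0 => (11 * E4 o x0 + 5 * U1 o x0 + 3 * U3 o x0))
  obtain ⟨ψ, hψ, hT⟩ := thm_T (Kc P2 P3 o x0) (uu P3 o) h
  refine ⟨o, fun t => h t - uu P3 o t ∘ₗ ψ t, fun x => ?_, ?_⟩
  · have e : h x - (h x - uu P3 o x ∘ₗ ψ x) = uu P3 o x ∘ₗ ψ x := by abel
    show rk (h x - (h x - uu P3 o x ∘ₗ ψ x)) ≤ _
    rw [e]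
    refine (rk_comp_le_right _ _).trans ?_
    refine Submodule.finrank_mono ?_
    rintro _ ⟨a, rfl⟩
    exact (hψ x a).1
  · exact hT.trans (hx0.trans (ho.trans h5))

end AHC
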