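import Pool.Agent.Helper35.AHC.TPt
import Pool.Agent.Helper35.AHC.GoodSets
import Pool.Agent.Helper35.AHC.Av

/-!
# Project AHC, module AHC-28 (TAv): Theorem T.

PROOF.  By decomp (choose) M1, M2 : V → V → (A → B) with values in KK and rk (R x y) <= ρ x y, where
R x y = Df h x y - u x ∘ M1 x y - u y ∘ M2 x y, ρ x y = rkm (Df h x y) (KK.map (u x) ⊔ KK.map (u y)).
e = av av ρ, U1 = av av finrank (KK.map (u x + u y - u (x+y))), U3 = av av av finrank (KK ⊓ ...).
(a) Γ x y z = M1 x y + M1 (x+y) z - M1 x (y+z).  gamma_pt (D1 = Df h x y, D2 = Df h (x+y) z, D3 = Df h y z,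
  D4 = Df h x (y+z), Df_cocycle; uxy = u (x+y), uyz = u (y+z)):  av_x av_y av_z rk Γ <= 4 e + 2 U1 + U3
  (av_comm, av_shift, av_shift'; av_const).
(b) Λ x y = M2 x y - M1 y x.  lambda_pt with D = Df h x y = Df h y x (Df_comm), b1 = M1 y x, b2 = M2 y x (R y x = Df h y x
  - u y M1 y x - u x M2 y x): rk Λ <= ρ x y + ρ y x + finrank (KK ⊓ comap (u y) (KK.map (u x))), the last one is <=
  finrank (KK ⊓ comap (u y) (KK.map (u x) ⊔ KK.map (u z))) for every z.  av av rk Λ <= 2 e + U3.
(c) For g let ψ_g x = M1 g (x - g).  Γ g (x-g) y = ψ_g x + M1 x y - ψ_g (x+y) (g + (x-g) = x, x-g+y = (x+y)-g),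
  Γ g (y-g) x = ψ_g y + M1 y x - ψ_g (x+y).  final_pt with a1 = M1 x y, a2 = M2 x y, b1 = M1 y x, px = ψ x, py = ψ y,
  pxy = ψ (x+y): Df (fun t => h t - u t ∘ₗ ψ t) x y = Df h x y - (u(x+y) ψ(x+y) - u x ψ x - u y ψ y), so its rank
  is <= ρ x y + rk Γ g (x-g) y + rk Λ x y + rk Γ g (y-g) x + finrank (KK.map (u x + u y - u (x+y))).
  Average over g, x, y: <= e + (4e+2U1+U3) + (2e+U3) + (4e+2U1+U3) + U1 = 11 e + 5 U1 + 3 U3 (shift x by g, y by g;
  av_comm).  exists_le_av gives g.
-/

namespace AHC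

open Module Submodule

section AvLemmas

variable {V : Type*} [AddCommGroup V] [Fintype V]

private theorem av3_gamma (ρ U : V → V → ℝ) (T G : V → V → V → ℝ)
    (hG : ∀ x y z, G x y z ≤ ρ x y + ρ (x + y) z + ρ y z + ρ x (y + z) + U x y + U y z + T x y z) :
    av (fun x => av fun y => av fun z => G x y z) ≤
      4 * av (fun x => av fun y => ρ x y) + 2 * av (fun x => av fun y => U x y)
        + av (fun x => av fun y => av fun z => T x y z) := by
  haveI : Nonempty V := ⟨0⟩
  have h1 : av (fun x => av fun y => av fun z => G x y z) ≤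
      av (fun x => av fun y => av fun z =>
        (ρ x y + ρ (x + y) z + ρ y z + ρ x (y + z) + U x y + U y z + T x y z)) :=
    av_mono fun x => av_mono fun y => av_mono fun z => hG x y z
  refine h1.trans (le_of_eq ?_)
  simp only [av_add]
  have e1 : av (fun x => av fun y => av fun _ : V => ρ x y) = av (fun x => av fun y => ρ x y) := by
    simp only [av_const]
  have e2 : av (fun x => av fun y => av fun z => ρ (x + y) z) = av (fun x => av fun y => ρ x y) := by
    rw [av_comm]
    have : (fun y => av fun x => av fun z => ρ (x + y) z)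
        = fun _ : V => av (fun x => av fun z => ρ x z) := by
      funext y
      exact av_shift (fun x => av fun z => ρ x z) y
    rw [this, av_const]
  have e3 : av (fun _ : V => av fun y => av fun z => ρ y z) = av (fun x => av fun y => ρ x y) := by
    rw [av_const]
  have e4 : av (fun x => av fun y => av fun z => ρ x (y + z)) = av (fun x => av fun y => ρ x y) := by
    congr 1
    funext x
    have : (fun y => av fun z => ρ x (y + z)) = fun _ : V => av (fun z => ρ x z) := by
      funext y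
      exact av_shift' (fun z => ρ x z) y
    rw [this, av_const]
  have e5 : av (fun x => av fun y => av fun _ : V => U x y) = av (fun x => av fun y => U x y) := by
    simp only [av_const]
  have e6 : av (fun _ : V => av fun y => av fun z => U y z) = av (fun x => av fun y => U x y) := by
    rw [av_const]
  rw [e1, e2, e3, e4, e5, e6]
  ring

private theorem av2_lambda (ρ : V → V → ℝ) (T : V → V → V → ℝ) (L : V → V → ℝ)
    (hL : ∀ x y z, L x y ≤ ρ x y + ρ y x + T y x z) :
    av (fun x => av fun y => L x y) ≤ 2 * av (fun x => av fun y => ρ x y)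
        + av (fun x => av fun y => av fun z => T x y z) := by
  haveI : Nonempty V := ⟨0⟩
  have h1 : av (fun x => av fun y => L x y) ≤
      av (fun x => av fun y => (ρ x y + ρ y x + av fun z => T y x z)) := by
    refine av_mono fun x => av_mono fun y => ?_
    have h2 : av (fun _ : V => L x y) ≤ av (fun z => (ρ x y + ρ y x + T y x z)) :=
      av_mono fun z => hL x y z
    rw [av_const, av_add, av_const] at h2
    exact h2
  refine h1.trans (le_of_eq ?_)
  simp only [av_add]
  have e1 : av (fun x => av fun y => ρ y x) = av (fun x => av fun y => ρ x y) :=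
    av_comm fun x y => ρ y x
  have e2 : av (fun x => av fun y => av fun z => T y x z)
      = av (fun x => av fun y => av fun z => T x y z) :=
    av_comm fun x y => av fun z => T y x z
  rw [e1, e2]
  ring

private theorem av3_final (ρ U L : V → V → ℝ) (G F : V → V → V → ℝ)
    (hF : ∀ g x y, F g x y ≤ ρ x y + G g (x - g) y + L x y + G g (y - g) x + U x y) :
    av (fun g => av fun x => av fun y => F g x y) ≤
      av (fun x => av fun y => ρ x y) + 2 * av (fun x => av fun y => av fun z => G x y z)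
        + av (fun x => av fun y => L x y) + av (fun x => av fun y => U x y) := by
  haveI : Nonempty V := ⟨0⟩
  have h1 : av (fun g => av fun x => av fun y => F g x y) ≤
      av (fun g => av fun x => av fun y =>
        (ρ x y + G g (x - g) y + L x y + G g (y - g) x + U x y)) :=
    av_mono fun x => av_mono fun y => av_mono fun z => hF x y z
  refine h1.trans (le_of_eq ?_)
  simp only [av_add, av_const]
  have e1 : av (fun g => av fun x => av fun y => G g (x - g) y)
      = av (fun x => av fun y => av fun z => G x y z) := by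
    congr 1
    funext g
    exact av_shift_sub (fun x => av fun y => G g x y) g
  have e2 : av (fun g => av fun x => av fun y => G g (y - g) x)
      = av (fun x => av fun y => av fun z => G x y z) := by
    congr 1
    funext g
    rw [av_comm]
    exact av_shift_sub (fun y => av fun x => G g y x) g
  rw [e1, e2]
  ring

end AvLemmas

variable {K : Type*} [Field K] {A B : Type*} [AddCommGroup A] [Module K A]
  [FiniteDimensional K A] [AddCommGroup B] [Module K B] [FiniteDimensional K B]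
  {V : Type*} [AddCommGroup V] [Fintype V]

theorem thm_T (KK : Submodule K B) (u : V → B →ₗ[K] B) (h : V → A →ₗ[K] B) :
    ∃ ψ : V → A →ₗ[K] B, (∀ x a, ψ x a ∈ KK) ∧
      av (fun x => av fun y => (rk (Df (fun t => h t - u t ∘ₗ ψ t) x y) : ℝ)) ≤
        11 * av (fun x => av fun y =>
          (rkm (Df h x y) (KK.map (u x) ⊔ KK.map (u y)) : ℝ))
        + 5 * av (fun x => av fun y => (finrank K ↥(KK.map (u x + u y - u (x + y))) : ℝ))
        + 3 * av (fun x => av fun y => av fun z =>
          (finrank K ↥(KK ⊓ (KK.map (u y) ⊔ KK.map (u z)).comap (u x)) : ℝ)) := by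
  haveI : Nonempty V := ⟨0⟩
  choose M1 M2 hM1 hM2 hR using fun x y => decomp KK (u x) (u y) (Df h x y)
  have hΓ : ∀ x y z, ((rk (M1 x y + M1 (x + y) z - M1 x (y + z)) : ℕ) : ℝ) ≤
      (rkm (Df h x y) (KK.map (u x) ⊔ KK.map (u y)) : ℝ)
      + (rkm (Df h (x + y) z) (KK.map (u (x + y)) ⊔ KK.map (u z)) : ℝ)
      + (rkm (Df h y z) (KK.map (u y) ⊔ KK.map (u z)) : ℝ)
      + (rkm (Df h x (y + z)) (KK.map (u x) ⊔ KK.map (u (y + z))) : ℝ)
      + (finrank K ↥(KK.map (u x + u y - u (x + y))) : ℝ)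
      + (finrank K ↥(KK.map (u y + u z - u (y + z))) : ℝ)
      + (finrank K ↥(KK ⊓ (KK.map (u y) ⊔ KK.map (u z)).comap (u x)) : ℝ) := by
    intro x y z
    have k := gamma_pt KK (u x) (u y) (u z) (u (x + y)) (u (y + z)) (Df h x y) (Df h (x + y) z)
      (Df h y z) (Df h x (y + z)) (Df_cocycle h x y z) (M1 x y) (M2 x y) (M1 (x + y) z)
      (M2 (x + y) z) (M1 y z) (M2 y z) (M1 x (y + z)) (M2 x (y + z)) (hM1 _ _) (hM2 _ _)
      (hM1 _ _) (hM2 _ _) (hM1 _ _) (hM2 _ _) (hM1 _ _) (hM2 _ _)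
    have r1 := hR x y
    have r2 := hR (x + y) z
    have r3 := hR y z
    have r4 := hR x (y + z)
    exact_mod_cast k.trans (by omega)
  have hΛ : ∀ x y z, ((rk (M2 x y - M1 y x) : ℕ) : ℝ) ≤
      (rkm (Df h x y) (KK.map (u x) ⊔ KK.map (u y)) : ℝ)
      + (rkm (Df h y x) (KK.map (u y) ⊔ KK.map (u x)) : ℝ)
      + (finrank K ↥(KK ⊓ (KK.map (u x) ⊔ KK.map (u z)).comap (u y)) : ℝ) := by
    intro x y z
    have k := lambda_pt KK (u x) (u y) (Df h x y) (M1 x y) (M2 x y) (M1 y x) (M2 y x)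
      (hM1 _ _) (hM2 _ _) (hM1 _ _) (hM2 _ _)
    have r1 := hR x y
    have r2 := hR y x
    rw [Df_comm h y x] at r2
    rw [Df_comm h y x]
    have r3 : finrank K ↥(KK ⊓ (KK.map (u x)).comap (u y)) ≤
        finrank K ↥(KK ⊓ (KK.map (u x) ⊔ KK.map (u z)).comap (u y)) :=
      Submodule.finrank_mono (inf_le_inf_left _ (Submodule.comap_mono le_sup_left))
    exact_mod_cast k.trans (by omega)
  have aΓ := av3_gamma
    (fun x y => (rkm (Df h x y) (KK.map (u x) ⊔ KK.map (u y)) : ℝ))
    (fun x y => (finrank K ↥(KK.map (u x + u y - u (x + y))) : ℝ))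
    (fun x y z => (finrank K ↥(KK ⊓ (KK.map (u y) ⊔ KK.map (u z)).comap (u x)) : ℝ))
    (fun x y z => ((rk (M1 x y + M1 (x + y) z - M1 x (y + z)) : ℕ) : ℝ)) hΓ
  have aΛ := av2_lambda
    (fun x y => (rkm (Df h x y) (KK.map (u x) ⊔ KK.map (u y)) : ℝ))
    (fun x y z => (finrank K ↥(KK ⊓ (KK.map (u y) ⊔ KK.map (u z)).comap (u x)) : ℝ))
    (fun x y => ((rk (M2 x y - M1 y x) : ℕ) : ℝ)) hΛ
  have hF : ∀ g x y, ((rk (Df (fun t => h t - u t ∘ₗ M1 g (t - g)) x y) : ℕ) : ℝ) ≤
      (rkm (Df h x y) (KK.map (u x) ⊔ KK.map (u y)) : ℝ)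
      + ((rk (M1 g (x - g) + M1 (g + (x - g)) y - M1 g (x - g + y)) : ℕ) : ℝ)
      + ((rk (M2 x y - M1 y x) : ℕ) : ℝ)
      + ((rk (M1 g (y - g) + M1 (g + (y - g)) x - M1 g (y - g + x)) : ℕ) : ℝ)
      + (finrank K ↥(KK.map (u x + u y - u (x + y))) : ℝ) := by
    intro g x y
    have k := final_pt KK (u x) (u y) (u (x + y)) (Df h x y) (M1 x y) (M2 x y) (M1 y x)
      (M1 g (x - g)) (M1 g (y - g)) (M1 g (x + y - g)) (hM1 _ _)
    have r1 := hR x y
    have e0 : Df (fun t => h t - u t ∘ₗ M1 g (t - g)) x y = Df h x y -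
        (u (x + y) ∘ₗ M1 g (x + y - g) - u x ∘ₗ M1 g (x - g) - u y ∘ₗ M1 g (y - g)) := by
      show (h (x + y) - u (x + y) ∘ₗ M1 g (x + y - g)) - (h x - u x ∘ₗ M1 g (x - g))
        - (h y - u y ∘ₗ M1 g (y - g)) = (h (x + y) - h x - h y) -
        (u (x + y) ∘ₗ M1 g (x + y - g) - u x ∘ₗ M1 g (x - g) - u y ∘ₗ M1 g (y - g))
      generalize u (x + y) ∘ₗ M1 g (x + y - g) = p1
      generalize u x ∘ₗ M1 g (x - g) = p2
      generalize u y ∘ₗ M1 g (y - g) = p3
      abel
    have e1 : g + (x - g) = x := by abel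
    have e2 : x - g + y = x + y - g := by abel
    have e3 : g + (y - g) = y := by abel
    have e4 : y - g + x = x + y - g := by abel
    rw [e0, e1, e2, e3, e4]
    exact_mod_cast k.trans (by omega)
  have aF := av3_final
    (fun x y => (rkm (Df h x y) (KK.map (u x) ⊔ KK.map (u y)) : ℝ))
    (fun x y => (finrank K ↥(KK.map (u x + u y - u (x + y))) : ℝ))
    (fun x y => ((rk (M2 x y - M1 y x) : ℕ) : ℝ))
    (fun x y z => ((rk (M1 x y + M1 (x + y) z - M1 x (y + z)) : ℕ) : ℝ))
    (fun g x y => ((rk (Df (fun t => h t - u t ∘ₗ M1 g (t - g)) x y) : ℕ) : ℝ)) hF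
  obtain ⟨g, hg⟩ := exists_le_av (fun g => av fun x => av fun y =>
    ((rk (Df (fun t => h t - u t ∘ₗ M1 g (t - g)) x y) : ℕ) : ℝ))
  refine ⟨fun t => M1 g (t - g), fun x a => hM1 _ _ _, hg.trans (aF.trans ?_)⟩
  linarith

end AHC
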