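import Pool.Agent.Helper35.AHC.Dim

/-!
# Project AHC, module AHC-26 (TKey): linear algebra for Theorem T.

PROOF of decomp.  Y = KK.map U ⊔ KK.map U'.  Let p : B → B be a projection onto Y (range Y, identity on Y;
Submodule.exists_isCompl / Submodule.exists_le_ker_of_... or LinearMap.exists_leftInverse of Y.subtype), so
D - p ∘ D = (id - p) ∘ D has rank <= dim range D - dim (range D ⊓ Y) = rkm D Y (rkm_comp_le with T = id - p, X = Y,
Y := ⊥, and rkm_bot).  The map S : KK × KK → B, (k, k') ↦ U k + U' k', has range Y; (a section) there is a linear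
s : Y → KK × KK with S ∘ s = id (LinearMap.exists_rightInverse_of_surjective for the map onto its range);
M1 = fst ∘ s ∘ p ∘ D, M2 = snd ∘ s ∘ p ∘ D.
PROOF of rk_of_small.  E = u ∘ₗ G - Z.  For a ∈ ker E: u (G a) = Z a ∈ Y, so G a ∈ KK ⊓ comap u Y:
(ker E).map G ≤ KK ⊓ Y.comap u.  rk G = dim A - dim ker G; rk G = dim range G <= dd (⊤.map G) ((ker E).map G)
+ dim ((ker E).map G) <= dd ⊤ (ker E) + ... (dd_map_le) and dd ⊤ (ker E) = dim A - dim ker E = rk E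
(LinearMap.finrank_range_add_finrank_ker).
PROOF of rk_comp_le_map.  range (T ∘ₗ G) ≤ KK.map T.
-/

namespace AHC

open Module Submodule

variable {K : Type*} [Field K] {A B : Type*} [AddCommGroup A] [Module K A]
  [FiniteDimensional K A] [AddCommGroup B] [Module K B] [FiniteDimensional K B]

theorem decomp (KK : Submodule K B) (U U' : B →ₗ[K] B) (D : A →ₗ[K] B) :
    ∃ M1 M2 : A →ₗ[K] B, (∀ a, M1 a ∈ KK) ∧ (∀ a, M2 a ∈ KK) ∧
      rk (D - U ∘ₗ M1 - U' ∘ₗ M2) ≤ rkm D (KK.map U ⊔ KK.map U') := by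
  set Y : Submodule K B := KK.map U ⊔ KK.map U' with hY
  obtain ⟨p, hp⟩ := LinearMap.exists_leftInverse_of_injective Y.subtype (Submodule.ker_subtype Y)
  have hSY : ∀ k : KK × KK, U k.1 + U' k.2 ∈ Y := fun k =>
    Submodule.add_mem_sup (Submodule.mem_map_of_mem k.1.2) (Submodule.mem_map_of_mem k.2.2)
  let S : (KK × KK) →ₗ[K] B :=
    (U ∘ₗ KK.subtype) ∘ₗ LinearMap.fst K KK KK + (U' ∘ₗ KK.subtype) ∘ₗ LinearMap.snd K KK KK
  have hS : ∀ k : KK × KK, S k = U k.1 + U' k.2 := fun k => rfl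
  let S' : (KK × KK) →ₗ[K] Y := S.codRestrict Y (fun k => by rw [hS]; exact hSY k)
  have hS' : ∀ k : KK × KK, ((S' k : Y) : B) = U k.1 + U' k.2 := fun k => rfl
  have hsurj : LinearMap.range S' = ⊤ := by
    rw [LinearMap.range_eq_top]
    rintro ⟨y, hy⟩
    rw [hY, Submodule.mem_sup] at hy
    obtain ⟨_, ⟨k1, hk1, rfl⟩, _, ⟨k2, hk2, rfl⟩, rfl⟩ := hy
    exact ⟨(⟨k1, hk1⟩, ⟨k2, hk2⟩), Subtype.ext rfl⟩
  obtain ⟨s, hs⟩ := LinearMap.exists_rightInverse_of_surjective S' hsurj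
  refine ⟨KK.subtype ∘ₗ LinearMap.fst K KK KK ∘ₗ s ∘ₗ p ∘ₗ D,
    KK.subtype ∘ₗ LinearMap.snd K KK KK ∘ₗ s ∘ₗ p ∘ₗ D, fun a => (s (p (D a))).1.2,
    fun a => (s (p (D a))).2.2, ?_⟩
  have key : D - U ∘ₗ (KK.subtype ∘ₗ LinearMap.fst K KK KK ∘ₗ s ∘ₗ p ∘ₗ D) -
      U' ∘ₗ (KK.subtype ∘ₗ LinearMap.snd K KK KK ∘ₗ s ∘ₗ p ∘ₗ D) =
      (LinearMap.id - Y.subtype ∘ₗ p) ∘ₗ D := by
    ext a
    have h1 := hS' (s (p (D a)))
    have h2 : S' (s (p (D a))) = p (D a) := LinearMap.congr_fun hs (p (D a))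
    rw [h2] at h1
    simp only [LinearMap.sub_apply, LinearMap.comp_apply, LinearMap.id_apply,
      Submodule.subtype_apply, LinearMap.fst_apply, LinearMap.snd_apply]
    rw [h1]
    abel
  rw [key, ← rkm_bot]
  refine rkm_comp_le D _ Y ⊥ ?_
  rintro _ ⟨y, hy, rfl⟩
  have h3 : p y = ⟨y, hy⟩ := LinearMap.congr_fun hp ⟨y, hy⟩
  simp [h3]

theorem rk_of_small (KK Y : Submodule K B) (u : B →ₗ[K] B) (G Z : A →ₗ[K] B)
    (hG : ∀ a, G a ∈ KK) (hZ : ∀ a, Z a ∈ Y) :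
    rk G ≤ rk (u ∘ₗ G - Z) + finrank K ↥(KK ⊓ Y.comap u) := by
  set E := u ∘ₗ G - Z with hE
  have h1 := LinearMap.finrank_range_add_finrank_ker E
  have h2 := dd_inf (⊤ : Submodule K A) (LinearMap.ker E)
  rw [top_inf_eq, finrank_top] at h2
  have h3 := dd_map_le G (⊤ : Submodule K A) (LinearMap.ker E)
  have h4 := finrank_le_dd_add ((⊤ : Submodule K A).map G) ((LinearMap.ker E).map G)
  have h5 : finrank K ↥((⊤ : Submodule K A).map G ⊓ (LinearMap.ker E).map G) ≤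
      finrank K ↥(KK ⊓ Y.comap u) := by
    refine Submodule.finrank_mono (inf_le_right.trans ?_)
    rintro _ ⟨a, ha, rfl⟩
    have h6 : u (G a) - Z a = 0 := ha
    refine ⟨hG a, ?_⟩
    change u (G a) ∈ Y
    rw [sub_eq_zero.mp h6]
    exact hZ a
  rw [Submodule.map_top] at h3 h4
  rw [Submodule.map_top] at h5
  have h7 : rk G = finrank K ↥(LinearMap.range G) := rfl
  have h8 : rk E = finrank K ↥(LinearMap.range E) := rfl
  omega

theorem rk_comp_le_map (KK : Submodule K B) (T : B →ₗ[K] B) (G : A →ₗ[K] B)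
    (hG : ∀ a, G a ∈ KK) : rk (T ∘ₗ G) ≤ finrank K ↥(KK.map T) := by
  refine Submodule.finrank_mono ?_
  rintro _ ⟨a, rfl⟩
  exact Submodule.mem_map_of_mem (hG a)

end AHC
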