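import Pool.Agent.Helper35.AHC.TKey

/-!
# Project AHC, module AHC-27 (TPt): the three pointwise inequalities of Theorem T.

PROOF of gamma_pt.  R1 = D1 - ux a1 - uy b1, R2 = D2 - uxy a2 - uz b2, R3 = D3 - uy a3 - uz b3,
R4 = D4 - ux a4 - uyz b4.  From D1 + D2 = D3 + D4:
 ux (a1+a2-a4) + [uy (b1+a2-a3-b4) + uz (b2-b3-b4)]
   = -R1 - R2 + R3 + R4 + (ux+uy-uxy) a2 - (uy+uz-uyz) b4.
rk_of_small with G = a1+a2-a4, Z = -[...], Y = KK.map uy ⊔ KK.map uz; rk_comp_le_map for the last two terms.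
(LinearMap.ext, or `simp only [LinearMap.comp_add, ...]` and `abel`/module identities.)
PROOF of lambda_pt.  uy (a2 - b1) + ux (a1 - b2) = -(D - ux a1 - uy a2) + (D - uy b1 - ux b2); rk_of_small with
G = a2 - b1, Z = -(ux (a1 - b2)), Y = KK.map ux.
PROOF of final_pt.  D - (uxy pxy - ux px - uy py) = (D - ux a1 - uy a2) + ux (px + a1 - pxy) + uy (a2 - b1)
 + uy (py + b1 - pxy) + (ux + uy - uxy) pxy; rk_add, rk_comp_le_right (rk (T ∘ₗ M) <= rk M), rk_comp_le_map.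
-/

namespace AHC

open Module Submodule

variable {K : Type*} [Field K] {A B : Type*} [AddCommGroup A] [Module K A]
  [FiniteDimensional K A] [AddCommGroup B] [Module K B] [FiniteDimensional K B]

theorem gamma_pt (KK : Submodule K B) (ux uy uz uxy uyz : B →ₗ[K] B) (D1 D2 D3 D4 : A →ₗ[K] B)
    (hD : D1 + D2 = D3 + D4) (a1 b1 a2 b2 a3 b3 a4 b4 : A →ₗ[K] B)
    (ha1 : ∀ a, a1 a ∈ KK) (hb1 : ∀ a, b1 a ∈ KK) (ha2 : ∀ a, a2 a ∈ KK) (hb2 : ∀ a, b2 a ∈ KK)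
    (ha3 : ∀ a, a3 a ∈ KK) (hb3 : ∀ a, b3 a ∈ KK) (ha4 : ∀ a, a4 a ∈ KK) (hb4 : ∀ a, b4 a ∈ KK) :
    rk (a1 + a2 - a4) ≤ rk (D1 - ux ∘ₗ a1 - uy ∘ₗ b1) + rk (D2 - uxy ∘ₗ a2 - uz ∘ₗ b2)
      + rk (D3 - uy ∘ₗ a3 - uz ∘ₗ b3) + rk (D4 - ux ∘ₗ a4 - uyz ∘ₗ b4)
      + finrank K ↥(KK.map (ux + uy - uxy)) + finrank K ↥(KK.map (uy + uz - uyz))
      + finrank K ↥(KK ⊓ (KK.map uy ⊔ KK.map uz).comap ux) := by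
  obtain rfl : D4 = D1 + D2 - D3 := by rw [hD]; abel
  have hid : ux ∘ₗ (a1 + a2 - a4) - (-(uy ∘ₗ (b1 + a2 - a3 - b4) + uz ∘ₗ (b2 - b3 - b4))) =
      (D3 - uy ∘ₗ a3 - uz ∘ₗ b3) + (D1 + D2 - D3 - ux ∘ₗ a4 - uyz ∘ₗ b4)
        - (D1 - ux ∘ₗ a1 - uy ∘ₗ b1) - (D2 - uxy ∘ₗ a2 - uz ∘ₗ b2)
        + (ux + uy - uxy) ∘ₗ a2 - (uy + uz - uyz) ∘ₗ b4 := by
    ext a
    simp only [LinearMap.add_apply, LinearMap.sub_apply, LinearMap.neg_apply,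
      LinearMap.comp_apply, map_add, map_sub]
    abel
  have hmain := rk_of_small KK (KK.map uy ⊔ KK.map uz) ux (a1 + a2 - a4)
    (-(uy ∘ₗ (b1 + a2 - a3 - b4) + uz ∘ₗ (b2 - b3 - b4)))
    (fun a => KK.sub_mem (KK.add_mem (ha1 a) (ha2 a)) (ha4 a))
    (fun a => Submodule.neg_mem _ (Submodule.add_mem_sup
      (Submodule.mem_map_of_mem (KK.sub_mem (KK.sub_mem (KK.add_mem (hb1 a) (ha2 a)) (ha3 a)) (hb4 a)))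
      (Submodule.mem_map_of_mem (KK.sub_mem (KK.sub_mem (hb2 a) (hb3 a)) (hb4 a)))))
  rw [hid] at hmain
  have h1 := rk_sub ((D3 - uy ∘ₗ a3 - uz ∘ₗ b3) + (D1 + D2 - D3 - ux ∘ₗ a4 - uyz ∘ₗ b4)
        - (D1 - ux ∘ₗ a1 - uy ∘ₗ b1) - (D2 - uxy ∘ₗ a2 - uz ∘ₗ b2)
        + (ux + uy - uxy) ∘ₗ a2) ((uy + uz - uyz) ∘ₗ b4)
  have h2 := rk_add ((D3 - uy ∘ₗ a3 - uz ∘ₗ b3) + (D1 + D2 - D3 - ux ∘ₗ a4 - uyz ∘ₗ b4)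
        - (D1 - ux ∘ₗ a1 - uy ∘ₗ b1) - (D2 - uxy ∘ₗ a2 - uz ∘ₗ b2)) ((ux + uy - uxy) ∘ₗ a2)
  have h3 := rk_sub ((D3 - uy ∘ₗ a3 - uz ∘ₗ b3) + (D1 + D2 - D3 - ux ∘ₗ a4 - uyz ∘ₗ b4)
        - (D1 - ux ∘ₗ a1 - uy ∘ₗ b1)) (D2 - uxy ∘ₗ a2 - uz ∘ₗ b2)
  have h4 := rk_sub ((D3 - uy ∘ₗ a3 - uz ∘ₗ b3) + (D1 + D2 - D3 - ux ∘ₗ a4 - uyz ∘ₗ b4))
    (D1 - ux ∘ₗ a1 - uy ∘ₗ b1)
  have h5 := rk_add (D3 - uy ∘ₗ a3 - uz ∘ₗ b3) (D1 + D2 - D3 - ux ∘ₗ a4 - uyz ∘ₗ b4)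
  have h6 := rk_comp_le_map KK (ux + uy - uxy) a2 ha2
  have h7 := rk_comp_le_map KK (uy + uz - uyz) b4 hb4
  omega

theorem lambda_pt (KK : Submodule K B) (ux uy : B →ₗ[K] B) (D : A →ₗ[K] B)
    (a1 a2 b1 b2 : A →ₗ[K] B) (ha1 : ∀ a, a1 a ∈ KK) (ha2 : ∀ a, a2 a ∈ KK)
    (hb1 : ∀ a, b1 a ∈ KK) (hb2 : ∀ a, b2 a ∈ KK) :
    rk (a2 - b1) ≤ rk (D - ux ∘ₗ a1 - uy ∘ₗ a2) + rk (D - uy ∘ₗ b1 - ux ∘ₗ b2)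
      + finrank K ↥(KK ⊓ (KK.map ux).comap uy) := by
  have hid : uy ∘ₗ (a2 - b1) - (-(ux ∘ₗ (a1 - b2))) =
      (D - uy ∘ₗ b1 - ux ∘ₗ b2) - (D - ux ∘ₗ a1 - uy ∘ₗ a2) := by
    ext a
    simp only [LinearMap.sub_apply, LinearMap.neg_apply,
      LinearMap.comp_apply, map_sub]
    abel
  have hmain := rk_of_small KK (KK.map ux) uy (a2 - b1) (-(ux ∘ₗ (a1 - b2)))
    (fun a => KK.sub_mem (ha2 a) (hb1 a))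
    (fun a => Submodule.neg_mem _ (Submodule.mem_map_of_mem (KK.sub_mem (ha1 a) (hb2 a))))
  rw [hid] at hmain
  have h1 := rk_sub (D - uy ∘ₗ b1 - ux ∘ₗ b2) (D - ux ∘ₗ a1 - uy ∘ₗ a2)
  omega

theorem final_pt (KK : Submodule K B) (ux uy uxy : B →ₗ[K] B)
    (D a1 a2 b1 px py pxy : A →ₗ[K] B) (hpxy : ∀ a, pxy a ∈ KK) :
    rk (D - (uxy ∘ₗ pxy - ux ∘ₗ px - uy ∘ₗ py)) ≤ rk (D - ux ∘ₗ a1 - uy ∘ₗ a2)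
      + rk (px + a1 - pxy) + rk (a2 - b1) + rk (py + b1 - pxy)
      + finrank K ↥(KK.map (ux + uy - uxy)) := by
  have hid : D - (uxy ∘ₗ pxy - ux ∘ₗ px - uy ∘ₗ py) =
      (D - ux ∘ₗ a1 - uy ∘ₗ a2) + ux ∘ₗ (px + a1 - pxy) + uy ∘ₗ (a2 - b1)
        + uy ∘ₗ (py + b1 - pxy) + (ux + uy - uxy) ∘ₗ pxy := by
    ext a
    simp only [LinearMap.add_apply, LinearMap.sub_apply,
      LinearMap.comp_apply, map_add, map_sub]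
    abel
  rw [hid]
  have h1 := rk_add ((D - ux ∘ₗ a1 - uy ∘ₗ a2) + ux ∘ₗ (px + a1 - pxy) + uy ∘ₗ (a2 - b1)
        + uy ∘ₗ (py + b1 - pxy)) ((ux + uy - uxy) ∘ₗ pxy)
  have h2 := rk_add ((D - ux ∘ₗ a1 - uy ∘ₗ a2) + ux ∘ₗ (px + a1 - pxy) + uy ∘ₗ (a2 - b1))
    (uy ∘ₗ (py + b1 - pxy))
  have h3 := rk_add ((D - ux ∘ₗ a1 - uy ∘ₗ a2) + ux ∘ₗ (px + a1 - pxy)) (uy ∘ₗ (a2 - b1))
  have h4 := rk_add (D - ux ∘ₗ a1 - uy ∘ₗ a2) (ux ∘ₗ (px + a1 - pxy))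
  have h5 := rk_comp_le_right (px + a1 - pxy) ux
  have h6 := rk_comp_le_right (a2 - b1) uy
  have h7 := rk_comp_le_right (py + b1 - pxy) uy
  have h8 := rk_comp_le_map KK (ux + uy - uxy) pxy hpxy
  omega

end AHC
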