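import Pool.Agent.Helper35.AHC.Proj

/-!
# Project AHC, module AHC-22 (UOne): almost additivity of `u` on `KK` (pointwise).

PROOF.  u = uu P3 o, KK = Kc P2 P3 o x0, z = x + y.  v(w) k := k + u(w) k.
(1) KK1 = KK ⊓ Kc P2 P3 o x ⊓ Kc P2 P3 o y ⊓ Kc P2 P3 o z.  For k ∈ Kc P2 P3 o w = P2 o ⊓ (P3 w ⊔ P3 (o+w)):
   u(w) k ∈ P3 w (uu_mem), v(w) k ∈ P3 (w+o) (add_uu_mem; o + w = w + o).  Moreover
   u(w) k = v(w) k - k ∈ P4 (w+o) ⊔ P4 o (P3 ≤ P4, P2 o ≤ P4 o), so u(w) k ∈ Kc P3 P4 w o;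
   v(w) k = k + u(w) k ∈ P4 o ⊔ P4 w, P4 o = P4 (-o), so v(w) k ∈ Kc P3 P4 (w+o) (-o) (w+o+(-o) = w).
(2) KK' = {k ∈ KK1 : u(x)k ∈ Kc P3 P4 x y, v(x)k ∈ Kc P3 P4 (x+o) y, u(y)k ∈ Kc P3 P4 y x,
   v(y)k ∈ Kc P3 P4 (y+o) x} = KK1 ⊓ four comaps (v(w) = LinearMap.id + u(w)).
   dd KK KK' <= the sum of the seven dd terms: dd_inf_right repeatedly; for the comap terms use
   dd KK1 (comap u(x) (Kc P3 P4 x y)) <= dd (Kc P3 P4 x o) (Kc P3 P4 x y) (dd_comap_le, KK1.map u(x) ≤ Kc P3 P4 x o).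
   (dd KK (KK1 ⊓ C1 ⊓ ...) <= dd KK KK1 + dd KK1 (C1 ⊓ ...), dd_triangle and dd_sup/dd_inf; or count dimensions.)
(3) T = u(x) + u(y) - u(z).  For k ∈ KK': u(x)k = αy + αz (αy ∈ P4 y, αz ∈ P4 (x+y)), v(x)k = βy + βz
   (βy ∈ P4 y, βz ∈ P4 (x+o+y)).  k = v(x)k - u(x)k = v(z)k - u(z)k, hence
   αz - u(z)k = βy - αy + βz - v(z)k ∈ P4 (x+y) ⊓ (P4 y ⊔ P4 (x+y+o)) =: E1, and
   T k = αy + (αz - u(z)k) + u(y)k ∈ P4 y ⊔ E1.  Symmetrically T k ∈ P4 x ⊔ E2,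
   E2 = P4 (x+y) ⊓ (P4 x ⊔ P4 (x+y+o)).  So KK'.map T ≤ (P4 y ⊔ E1) ⊓ (P4 x ⊔ E2), of dimension
   <= dim (P4 x ⊓ P4 y) + dim E1 + dim E2 (finrank_inf_sup_le).
(4) dim (KK.map T) <= dd (KK.map T) (KK'.map T) + dim (KK'.map T) <= dd KK KK' + ... (dd_map_le, dd_inf).
-/

namespace AHC

open Module Submodule

variable {K : Type*} [Field K] {B : Type*} [AddCommGroup B] [Module K B] [FiniteDimensional K B]
  {V : Type*} [AddCommGroup V]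

omit [FiniteDimensional K B] in
private theorem u_one_pt (P4 : V → Submodule K B) (o x y : V) {k a b c : B}
    (h1 : a ∈ P4 y ⊔ P4 (x + y)) (h2 : k + a ∈ P4 y ⊔ P4 (x + o + y)) (h3 : c ∈ P4 (x + y))
    (h4 : k + c ∈ P4 (x + y + o)) (h5 : b ∈ P4 y) :
    a + b - c ∈ P4 y ⊔ (P4 (x + y) ⊓ (P4 y ⊔ P4 (x + y + o))) := by
  have e1 : x + o + y = x + y + o := by abel
  rw [e1] at h2
  obtain ⟨αy, hαy, αz, hαz, ha⟩ := Submodule.mem_sup.1 h1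
  obtain ⟨βy, hβy, βz, hβz, hb⟩ := Submodule.mem_sup.1 h2
  have e2 : αz - c = (βy - αy) + (βz - (k + c)) := by
    have e3 : k + a = βy + βz := hb.symm
    have e4 : a = αy + αz := ha.symm
    rw [e4] at e3
    have e5 : βy = k + (αy + αz) - βz := by rw [e3]; abel
    rw [e5]
    abel
  have e6 : a + b - c = (αy + b) + (αz - c) := by
    rw [← ha]
    abel
  rw [e6]
  refine Submodule.add_mem_sup (Submodule.add_mem _ hαy h5) ?_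
  refine ⟨Submodule.sub_mem _ hαz h3, ?_⟩
  rw [e2]
  exact Submodule.add_mem_sup (Submodule.sub_mem _ hβy hαy) (Submodule.sub_mem _ hβz h4)

omit [FiniteDimensional K B] in
private theorem kc_u (P2 P3 P4 : V → Submodule K B)
    (le23 : ∀ x, P2 x ≤ P3 x) (le34 : ∀ x, P3 x ≤ P4 x) (o w : V) {k : B}
    (hk : k ∈ Kc P2 P3 o w) : uu P3 o w k ∈ Kc P3 P4 w o := by
  have h1 : k ∈ P2 o := hk.1
  have h2 : k ∈ P3 w ⊔ P3 (w + o) := by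
    have := hk.2
    rwa [add_comm o w] at this
  have h3 := uu_mem P3 o w k
  have h4 := add_uu_mem P3 o w h2
  refine ⟨h3, ?_⟩
  have h5 : uu P3 o w k = -k + (k + uu P3 o w k) := by abel
  rw [h5]
  exact Submodule.add_mem_sup (Submodule.neg_mem _ (le34 _ (le23 _ h1))) (le34 _ h4)

omit [FiniteDimensional K B] in
private theorem kc_v (P2 P3 P4 : V → Submodule K B) (neg4 : ∀ x, P4 (-x) = P4 x)
    (le23 : ∀ x, P2 x ≤ P3 x) (le34 : ∀ x, P3 x ≤ P4 x) (o w : V) {k : B}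
    (hk : k ∈ Kc P2 P3 o w) : k + uu P3 o w k ∈ Kc P3 P4 (w + o) (-o) := by
  have h1 : k ∈ P2 o := hk.1
  have h2 : k ∈ P3 w ⊔ P3 (w + o) := by
    have := hk.2
    rwa [add_comm o w] at this
  have h3 := uu_mem P3 o w k
  have h4 := add_uu_mem P3 o w h2
  refine ⟨h4, ?_⟩
  rw [neg4, add_neg_cancel_right]
  exact Submodule.add_mem_sup (le34 _ (le23 _ h1)) (le34 _ h3)

theorem u_one (P2 P3 P4 : V → Submodule K B) (neg4 : ∀ x, P4 (-x) = P4 x)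
    (le23 : ∀ x, P2 x ≤ P3 x) (le34 : ∀ x, P3 x ≤ P4 x) (o x0 x y : V) :
    finrank K ↥((Kc P2 P3 o x0).map (uu P3 o x + uu P3 o y - uu P3 o (x + y))) ≤
      dd (Kc P2 P3 o x0) (Kc P2 P3 o x) + dd (Kc P2 P3 o x0) (Kc P2 P3 o y)
      + dd (Kc P2 P3 o x0) (Kc P2 P3 o (x + y))
      + dd (Kc P3 P4 x o) (Kc P3 P4 x y) + dd (Kc P3 P4 (x + o) (-o)) (Kc P3 P4 (x + o) y)
      + dd (Kc P3 P4 y o) (Kc P3 P4 y x) + dd (Kc P3 P4 (y + o) (-o)) (Kc P3 P4 (y + o) x)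
      + finrank K ↥(P4 (x + y) ⊓ (P4 y ⊔ P4 (x + y + o)))
      + finrank K ↥(P4 (x + y) ⊓ (P4 x ⊔ P4 (x + y + o)))
      + finrank K ↥(P4 x ⊓ P4 y) := by
  set KK := Kc P2 P3 o x0 with hKK
  set A1 := KK ⊓ (Kc P2 P3 o x ⊓ (Kc P2 P3 o y ⊓ Kc P2 P3 o (x + y))) with hA1
  set C1 := (Kc P3 P4 x y).comap (uu P3 o x) with hC1
  set C2 := (Kc P3 P4 (x + o) y).comap (LinearMap.id + uu P3 o x) with hC2
  set C3 := (Kc P3 P4 y x).comap (uu P3 o y) with hC3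
  set C4 := (Kc P3 P4 (y + o) x).comap (LinearMap.id + uu P3 o y) with hC4
  set C := C1 ⊓ (C2 ⊓ (C3 ⊓ C4)) with hC
  set T := uu P3 o x + uu P3 o y - uu P3 o (x + y) with hT
  -- dimensions
  have a1 : dd KK A1 ≤ dd KK (Kc P2 P3 o x) + dd KK (Kc P2 P3 o y)
      + dd KK (Kc P2 P3 o (x + y)) := by
    have b1 := dd_inf_right KK KK (Kc P2 P3 o x ⊓ (Kc P2 P3 o y ⊓ Kc P2 P3 o (x + y)))
    have b2 := dd_inf_right KK (Kc P2 P3 o x) (Kc P2 P3 o y ⊓ Kc P2 P3 o (x + y))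
    have b3 := dd_inf_right KK (Kc P2 P3 o y) (Kc P2 P3 o (x + y))
    have b4 : dd KK KK = 0 := dd_of_le le_rfl
    rw [← hA1] at b1
    omega
  have a2 : dd A1 C ≤ dd A1 C1 + dd A1 C2 + dd A1 C3 + dd A1 C4 := by
    have b1 := dd_inf_right A1 C1 (C2 ⊓ (C3 ⊓ C4))
    have b2 := dd_inf_right A1 C2 (C3 ⊓ C4)
    have b3 := dd_inf_right A1 C3 C4
    rw [← hC] at b1
    omega
  have a3 : dd KK (A1 ⊓ C) ≤ dd KK A1 + dd A1 C := by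
    have b1 := dd_triangle KK A1 (A1 ⊓ C)
    have b2 := dd_inf_right A1 A1 C
    have b3 : dd A1 A1 = 0 := dd_of_le le_rfl
    omega
  have hx : A1 ≤ Kc P2 P3 o x := inf_le_right.trans inf_le_left
  have hy : A1 ≤ Kc P2 P3 o y := inf_le_right.trans (inf_le_right.trans inf_le_left)
  have hz : A1 ≤ Kc P2 P3 o (x + y) := inf_le_right.trans (inf_le_right.trans inf_le_right)
  have c1 : dd A1 C1 ≤ dd (Kc P3 P4 x o) (Kc P3 P4 x y) := by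
    refine dd_comap_le _ _ _ _ ?_
    rintro _ ⟨k, hk, rfl⟩
    exact kc_u P2 P3 P4 le23 le34 o x (hx hk)
  have c2 : dd A1 C2 ≤ dd (Kc P3 P4 (x + o) (-o)) (Kc P3 P4 (x + o) y) := by
    refine dd_comap_le _ _ _ _ ?_
    rintro _ ⟨k, hk, rfl⟩
    exact kc_v P2 P3 P4 neg4 le23 le34 o x (hx hk)
  have c3 : dd A1 C3 ≤ dd (Kc P3 P4 y o) (Kc P3 P4 y x) := by
    refine dd_comap_le _ _ _ _ ?_
    rintro _ ⟨k, hk, rfl⟩
    exact kc_u P2 P3 P4 le23 le34 o y (hy hk)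
  have c4 : dd A1 C4 ≤ dd (Kc P3 P4 (y + o) (-o)) (Kc P3 P4 (y + o) x) := by
    refine dd_comap_le _ _ _ _ ?_
    rintro _ ⟨k, hk, rfl⟩
    exact kc_v P2 P3 P4 neg4 le23 le34 o y (hy hk)
  -- the image of the small subspace
  have hmap : (A1 ⊓ C).map T ≤ (P4 y ⊔ (P4 (x + y) ⊓ (P4 y ⊔ P4 (x + y + o)))) ⊓
      (P4 x ⊔ (P4 (x + y) ⊓ (P4 x ⊔ P4 (x + y + o)))) := by
    rintro _ ⟨k, ⟨hk, hkC⟩, rfl⟩
    have kx : uu P3 o x k ∈ P4 x := le34 _ (uu_mem P3 o x k)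
    have ky : uu P3 o y k ∈ P4 y := le34 _ (uu_mem P3 o y k)
    have kz : uu P3 o (x + y) k ∈ P4 (x + y) := le34 _ (uu_mem P3 o (x + y) k)
    have kz' : k + uu P3 o (x + y) k ∈ P4 (x + y + o) :=
      le34 _ (kc_v P2 P3 P4 neg4 le23 le34 o (x + y) (hz hk)).1
    have m1 : uu P3 o x k ∈ P4 y ⊔ P4 (x + y) := hkC.1.2
    have m2 : k + uu P3 o x k ∈ P4 y ⊔ P4 (x + o + y) := hkC.2.1.2
    have m3 : uu P3 o y k ∈ P4 x ⊔ P4 (y + x) := hkC.2.2.1.2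
    have m4 : k + uu P3 o y k ∈ P4 x ⊔ P4 (y + o + x) := hkC.2.2.2.2
    have hTk : T k = uu P3 o x k + uu P3 o y k - uu P3 o (x + y) k := rfl
    rw [hTk]
    refine ⟨u_one_pt P4 o x y m1 m2 kz kz' ky, ?_⟩
    have e := u_one_pt P4 o y x (k := k) (a := uu P3 o y k) (b := uu P3 o x k)
      (c := uu P3 o (x + y) k) m3 m4 (by rw [add_comm y x]; exact kz)
      (by rw [add_comm y x]; exact kz') kx
    rw [add_comm y x, add_comm (uu P3 o y k)] at e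
    exact e
  have d1 := Submodule.finrank_mono hmap
  have d2 := finrank_inf_sup_le (P4 x) (P4 y) (P4 (x + y) ⊓ (P4 y ⊔ P4 (x + y + o)))
    (P4 (x + y) ⊓ (P4 x ⊔ P4 (x + y + o)))
  have d3 := dd_map_le T KK (A1 ⊓ C)
  have d4 := finrank_le_dd_add (KK.map T) ((A1 ⊓ C).map T)
  have d5 : finrank K ↥(KK.map T ⊓ (A1 ⊓ C).map T) ≤ finrank K ↥((A1 ⊓ C).map T) :=
    Submodule.finrank_mono inf_le_right
  omega

end AHC
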