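import Pool.Agent.Helper35.AHC.Proj

/-!
# Project AHC, module AHC-23 (UTwo): the inequalities (U2) and (U3) (pointwise).

PROOF of u_two.  u = uu P3 o, KK = Kc P2 P3 o x0.
(1) Kc P1 P2 a o ≤ (Kc P2 P3 o a).map (u a) ⊔ (P3 a ⊓ P3 (a+o)): let m ∈ P1 a ⊓ (P2 o ⊔ P2 (a+o)),
   m = κ + ρ, κ ∈ P2 o, ρ ∈ P2 (a+o).  κ = m - ρ ∈ P3 a ⊔ P3 (o+a), so k := -κ ∈ Kc P2 P3 o a;
   u(a)k ∈ P3 a, k + u(a)k ∈ P3 (a+o) (add_uu_mem).  m - u(a)k = ρ - (k + u(a)k) ∈ P3 (a+o) and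
   m - u(a)k ∈ P3 a.
(2) dd (Kc P1 P2 a o) (KK.map (u a)) <= dd ((Kc P2 P3 o a).map (u a)) (KK.map (u a)) + dim (P3 a ⊓ P3 (a+o))
   (dd_mono, dd_sup_left, dd_le) and dd_map_le.
PROOF of u_three.  N = KK ⊓ comap (u x) (KK.map (u y) ⊔ KK.map (u z)); N' = N ⊓ Kc P2 P3 o x.
dim N <= dd N (Kc P2 P3 o x) + dim N' <= dd KK (Kc P2 P3 o x) + dim N' (dd_inf, dd_mono).
(N').map (u x) ≤ P3 x ⊓ (P3 y ⊔ P3 z) (uu_mem), and N' ⊓ ker (u x) ≤ P2 o ⊓ P3 (x+o) (k = k + u(x)k ∈ P3 (x+o) by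
add_uu_mem, as k ∈ P3 x ⊔ P3 (o+x)); dim N' = dim (N'.map (u x)) + dim (N' ⊓ ker) (finrank_map_add).
-/

namespace AHC

open Module Submodule

variable {K : Type*} [Field K] {B : Type*} [AddCommGroup B] [Module K B] [FiniteDimensional K B]
  {V : Type*} [AddCommGroup V]

theorem u_two (P1 P2 P3 : V → Submodule K B) (le12 : ∀ x, P1 x ≤ P2 x)
    (le23 : ∀ x, P2 x ≤ P3 x) (o x0 a : V) :
    dd (Kc P1 P2 a o) ((Kc P2 P3 o x0).map (uu P3 o a)) ≤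
      dd (Kc P2 P3 o a) (Kc P2 P3 o x0) + finrank K ↥(P3 a ⊓ P3 (a + o)) := by
  have h1 : Kc P1 P2 a o ≤ (Kc P2 P3 o a).map (uu P3 o a) ⊔ (P3 a ⊓ P3 (a + o)) := by
    rintro m ⟨hm1, hm2⟩
    obtain ⟨κ, hκ, ρ, hρ, hm⟩ := Submodule.mem_sup.1 hm2
    have hm3 : m ∈ P3 a := le23 a (le12 a hm1)
    have hρ3 : ρ ∈ P3 (a + o) := le23 _ hρ
    have hκ2 : κ ∈ P3 a ⊔ P3 (a + o) := by
      have e : κ = m + (-ρ) := by rw [← hm]; abel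
      rw [e]
      exact Submodule.add_mem_sup hm3 (Submodule.neg_mem _ hρ3)
    have hk2 : -κ ∈ P3 a ⊔ P3 (a + o) := Submodule.neg_mem _ hκ2
    have hk : -κ ∈ Kc P2 P3 o a := by
      refine ⟨Submodule.neg_mem _ hκ, ?_⟩
      rw [add_comm o a]
      exact hk2
    have hu1 := uu_mem P3 o a (-κ)
    have hu2 := add_uu_mem P3 o a hk2
    have e2 : m = uu P3 o a (-κ) + (m - uu P3 o a (-κ)) := by abel
    rw [e2]
    refine Submodule.add_mem_sup ⟨-κ, hk, rfl⟩ ⟨Submodule.sub_mem _ hm3 hu1, ?_⟩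
    have e3 : m - uu P3 o a (-κ) = ρ - (-κ + uu P3 o a (-κ)) := by
      rw [← hm]
      abel
    rw [e3]
    exact Submodule.sub_mem _ hρ3 hu2
  have h2 : dd (Kc P1 P2 a o) ((Kc P2 P3 o x0).map (uu P3 o a)) ≤
      dd ((Kc P2 P3 o a).map (uu P3 o a) ⊔ (P3 a ⊓ P3 (a + o)))
        ((Kc P2 P3 o x0).map (uu P3 o a)) := dd_mono h1 le_rfl
  have h3 := dd_sup_left ((Kc P2 P3 o a).map (uu P3 o a)) (P3 a ⊓ P3 (a + o))
    ((Kc P2 P3 o x0).map (uu P3 o a))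
  have h4 := dd_le (P3 a ⊓ P3 (a + o)) ((Kc P2 P3 o x0).map (uu P3 o a))
  have h5 := dd_map_le (uu P3 o a) (Kc P2 P3 o a) (Kc P2 P3 o x0)
  omega

theorem u_three (P2 P3 : V → Submodule K B) (o x0 x y z : V) :
    finrank K ↥(Kc P2 P3 o x0 ⊓ ((Kc P2 P3 o x0).map (uu P3 o y) ⊔
      (Kc P2 P3 o x0).map (uu P3 o z)).comap (uu P3 o x)) ≤
      dd (Kc P2 P3 o x0) (Kc P2 P3 o x) + finrank K ↥(P3 x ⊓ (P3 y ⊔ P3 z))
        + finrank K ↥(P2 o ⊓ P3 (x + o)) := by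
  obtain ⟨N, hN⟩ : ∃ N : Submodule K B, N = Kc P2 P3 o x0 ⊓ ((Kc P2 P3 o x0).map (uu P3 o y) ⊔
      (Kc P2 P3 o x0).map (uu P3 o z)).comap (uu P3 o x) := ⟨_, rfl⟩
  rw [← hN]
  have hNK : N ≤ Kc P2 P3 o x0 := by rw [hN]; exact inf_le_left
  have hNc : N ≤ ((Kc P2 P3 o x0).map (uu P3 o y) ⊔
      (Kc P2 P3 o x0).map (uu P3 o z)).comap (uu P3 o x) := by rw [hN]; exact inf_le_right
  have h1 := dd_inf N (Kc P2 P3 o x)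
  have h2 : dd N (Kc P2 P3 o x) ≤ dd (Kc P2 P3 o x0) (Kc P2 P3 o x) := dd_mono hNK le_rfl
  have h3 := finrank_map_add (uu P3 o x) (N ⊓ Kc P2 P3 o x)
  have h4 : (N ⊓ Kc P2 P3 o x).map (uu P3 o x) ≤ P3 x ⊓ (P3 y ⊔ P3 z) := by
    rintro _ ⟨k, ⟨hk1, hk2⟩, rfl⟩
    refine ⟨uu_mem _ _ _ _, ?_⟩
    have h5 : uu P3 o x k ∈ (Kc P2 P3 o x0).map (uu P3 o y) ⊔
      (Kc P2 P3 o x0).map (uu P3 o z) := hNc hk1
    have hy : (Kc P2 P3 o x0).map (uu P3 o y) ≤ P3 y := by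
      rintro _ ⟨l, _, rfl⟩
      exact uu_mem _ _ _ _
    have hz : (Kc P2 P3 o x0).map (uu P3 o z) ≤ P3 z := by
      rintro _ ⟨l, _, rfl⟩
      exact uu_mem _ _ _ _
    have h9 : (Kc P2 P3 o x0).map (uu P3 o y) ⊔ (Kc P2 P3 o x0).map (uu P3 o z) ≤
        P3 y ⊔ P3 z := sup_le_sup hy hz
    exact h9 h5
  have h5 : N ⊓ Kc P2 P3 o x ⊓ LinearMap.ker (uu P3 o x) ≤ P2 o ⊓ P3 (x + o) := by
    rintro k ⟨⟨hk1, hk2⟩, hk3⟩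
    refine ⟨hk2.1, ?_⟩
    have h6 : k ∈ P3 x ⊔ P3 (x + o) := by
      have := hk2.2
      rwa [add_comm o x] at this
    have h7 := add_uu_mem P3 o x h6
    have h8 : uu P3 o x k = 0 := hk3
    rwa [h8, add_zero] at h7
  have h6 := Submodule.finrank_mono h4
  have h7 := Submodule.finrank_mono h5
  omega

end AHC
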